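import Pool.Agent.W5h10.TL.Sys

/-!
# Coefficients of the formal solutions
-/

set_option autoImplicit false
set_option linter.unusedSimpArgs false

open PowerSeries

namespace Pool.Agent.W5h10.TL

/-- the coefficients, stage A -/
theorem coefsA {B J Z W V : ℝ⟦X⟧} (h : Sys B J Z W V) {b0 b1 b2 J0 J1 : ℝ}
    (B0 : coeff 0 B = b0)
    (B1 : coeff 1 B = b1)
    (B2 : coeff 2 B = (1/2)*b2)
    (J0' : coeff 0 J = J0)
    (J1' : coeff 1 J = J1)
    : coeff 0 (V * Z - d⁄dX ℝ Z * W) = 0 ∧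
      coeff 1 (V * Z - d⁄dX ℝ Z * W) = 0 ∧
      coeff 2 (V * Z - d⁄dX ℝ Z * W) = 0 ∧
      coeff 3 (V * Z - d⁄dX ℝ Z * W) = 0 ∧
      coeff 4 (V * Z - d⁄dX ℝ Z * W) = 0 ∧
      coeff 5 (V * Z - d⁄dX ℝ Z * W) = 0 ∧
      coeff 6 (V * Z - d⁄dX ℝ Z * W) = -(1/40)*J0 - (1/48)*b1 ∧
      coeff 7 (V * Z - d⁄dX ℝ Z * W) = -(1/80)*J1 - (1/96)*b2 ∧
      coeff 0 (V * Z + d⁄dX ℝ Z * W) = 0 ∧
      coeff 1 (V * Z + d⁄dX ℝ Z * W) = 0 ∧
      coeff 2 (V * Z + d⁄dX ℝ Z * W) = 0 ∧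
      coeff 3 (V * Z + d⁄dX ℝ Z * W) = 1 ∧
      coeff 4 (V * Z + d⁄dX ℝ Z * W) = 0 ∧
      coeff 0 (Z * W) = 0 ∧
      coeff 1 (Z * W) = 0 ∧
      coeff 2 (Z * W) = 0 ∧
      coeff 3 (Z * W) = 0 ∧
      coeff 4 (Z * W) = (1/4) ∧
      coeff 5 (Z * W) = 0 := by
  have Z0 := h.Z0
  have Z1 := h.Z1
  have Z2 := h.Z2
  have W0 := h.W0
  have W1 := h.W1
  have W2 := h.W2
  have V0 := h.V0
  have V1 := h.V1
  have V2 := h.V2
  have Z3 : coeff 3 Z = 0 := by
    have r := rec3 h.hZ 0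
    simp only [cS, Finset.sum_range_succ, Finset.sum_range_zero, Nat.reduceAdd, Nat.reduceSub, zero_add, Nat.add_zero, Nat.sub_zero, Nat.sub_self, B0, B1, B2, J0', J1', Z0, Z1, Z2, zero_mul, mul_zero, add_zero] at r
    push_cast at r
    linear_combination (1/6 : ℝ) * r
  have Z4 : coeff 4 Z = (1/24)*b0 := by
    have r := rec3 h.hZ 1
    simp only [cS, Finset.sum_range_succ, Finset.sum_range_zero, Nat.reduceAdd, Nat.reduceSub, zero_add, Nat.add_zero, Nat.sub_zero, Nat.sub_self, B0, B1, B2, J0', J1', Z0, Z1, Z2, Z3, zero_mul, mul_zero, add_zero] at r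
    push_cast at r
    linear_combination (1/24 : ℝ) * r
  have Z5 : coeff 5 Z = (1/120)*J0 + (1/48)*b1 := by
    have r := rec3 h.hZ 2
    simp only [cS, Finset.sum_range_succ, Finset.sum_range_zero, Nat.reduceAdd, Nat.reduceSub, zero_add, Nat.add_zero, Nat.sub_zero, Nat.sub_self, B0, B1, B2, J0', J1', Z0, Z1, Z2, Z3, Z4, zero_mul, mul_zero, add_zero] at r
    push_cast at r
    linear_combination (1/60 : ℝ) * r
  have Z6 : coeff 6 Z = (1/720)*b0^2 + (1/240)*J1 + (1/160)*b2 := by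
    have r := rec3 h.hZ 3
    simp only [cS, Finset.sum_range_succ, Finset.sum_range_zero, Nat.reduceAdd, Nat.reduceSub, zero_add, Nat.add_zero, Nat.sub_zero, Nat.sub_self, B0, B1, B2, J0', J1', Z0, Z1, Z2, Z3, Z4, Z5, zero_mul, mul_zero, add_zero] at r
    push_cast at r
    linear_combination (1/120 : ℝ) * r
  have W3 : coeff 3 W = 0 := by
    have r := rec3 h.hW 0
    simp only [cT, Finset.sum_range_succ, Finset.sum_range_zero, Nat.reduceAdd, Nat.reduceSub, zero_add, Nat.add_zero, Nat.sub_zero, Nat.sub_self, B0, B1, B2, J0', J1', W0, W1, W2, zero_mul, mul_zero, add_zero] at r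
    push_cast at r
    linear_combination (1/6 : ℝ) * r
  have W4 : coeff 4 W = (1/24)*b0 := by
    have r := rec3 h.hW 1
    simp only [cT, Finset.sum_range_succ, Finset.sum_range_zero, Nat.reduceAdd, Nat.reduceSub, zero_add, Nat.add_zero, Nat.sub_zero, Nat.sub_self, B0, B1, B2, J0', J1', W0, W1, W2, W3, zero_mul, mul_zero, add_zero] at r
    push_cast at r
    linear_combination (1/24 : ℝ) * r
  have W5 : coeff 5 W = -(1/120)*J0 + (1/48)*b1 := by
    have r := rec3 h.hW 2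
    simp only [cT, Finset.sum_range_succ, Finset.sum_range_zero, Nat.reduceAdd, Nat.reduceSub, zero_add, Nat.add_zero, Nat.sub_zero, Nat.sub_self, B0, B1, B2, J0', J1', W0, W1, W2, W3, W4, zero_mul, mul_zero, add_zero] at r
    push_cast at r
    linear_combination (1/60 : ℝ) * r
  have W6 : coeff 6 W = (1/720)*b0^2 - (1/240)*J1 + (1/160)*b2 := by
    have r := rec3 h.hW 3
    simp only [cT, Finset.sum_range_succ, Finset.sum_range_zero, Nat.reduceAdd, Nat.reduceSub, zero_add, Nat.add_zero, Nat.sub_zero, Nat.sub_self, B0, B1, B2, J0', J1', W0, W1, W2, W3, W4, W5, zero_mul, mul_zero, add_zero] at r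
    push_cast at r
    linear_combination (1/120 : ℝ) * r
  have V3 : coeff 3 V = (1/6)*b0 := by
    have r := rec3 h.hV 0
    simp only [cT, Finset.sum_range_succ, Finset.sum_range_zero, Nat.reduceAdd, Nat.reduceSub, zero_add, Nat.add_zero, Nat.sub_zero, Nat.sub_self, B0, B1, B2, J0', J1', V0, V1, V2, zero_mul, mul_zero, add_zero] at r
    push_cast at r
    linear_combination (1/6 : ℝ) * r
  have V4 : coeff 4 V = -(1/24)*J0 + (1/16)*b1 := by
    have r := rec3 h.hV 1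
    simp only [cT, Finset.sum_range_succ, Finset.sum_range_zero, Nat.reduceAdd, Nat.reduceSub, zero_add, Nat.add_zero, Nat.sub_zero, Nat.sub_self, B0, B1, B2, J0', J1', V0, V1, V2, V3, zero_mul, mul_zero, add_zero] at r
    push_cast at r
    linear_combination (1/24 : ℝ) * r
  have V5 : coeff 5 V = (1/120)*b0^2 - (1/60)*J1 + (1/60)*b2 := by
    have r := rec3 h.hV 2
    simp only [cT, Finset.sum_range_succ, Finset.sum_range_zero, Nat.reduceAdd, Nat.reduceSub, zero_add, Nat.add_zero, Nat.sub_zero, Nat.sub_self, B0, B1, B2, J0', J1', V0, V1, V2, V3, V4, zero_mul, mul_zero, add_zero] at r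
    push_cast at r
    linear_combination (1/60 : ℝ) * r
  refine ⟨?_, ?_, ?_, ?_, ?_, ?_, ?_, ?_, ?_, ?_, ?_, ?_, ?_, ?_, ?_, ?_, ?_, ?_, ?_⟩
  all_goals
    simp only [map_sub, map_add, mulc, coeff_derivative, Finset.sum_range_succ, Finset.sum_range_zero, Nat.reduceAdd, Nat.reduceSub, zero_add, Nat.add_zero, Nat.sub_zero, Nat.sub_self, Z0, Z1, Z2, Z3, Z4, Z5, Z6, W0, W1, W2, W3, W4, W5, W6, V0, V1, V2, V3, V4, V5, zero_mul, mul_zero, add_zero]
    try (push_cast; ring)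

end Pool.Agent.W5h10.TL
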