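import Pool.Agent.W5h10.TL.Sys

/-!
# Coefficients of the formal solutions
-/

set_option autoImplicit false
set_option linter.unusedSimpArgs false

open PowerSeries

namespace Pool.Agent.W5h10.TL

/-- the coefficients, stage C -/
theorem coefsC {B J Z W V : ℝ⟦X⟧} (h : Sys B J Z W V) {b0 b1 b2 J0 J1 J2 J3 J4 : ℝ}
    (B0 : coeff 0 B = b0)
    (B1 : coeff 1 B = b1)
    (B2 : coeff 2 B = (1/2)*b2)
    (B3 : coeff 3 B = (2/7)*J0*b0 + (2/3)*b0*b1 - (1/7)*J2)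
    (B4 : coeff 4 B = (1/14)*J0*b1 + (1/14)*J1*b0 + (1/6)*b0*b2 + (1/6)*b1^2 - (1/28)*J3)
    (B5 : coeff 5 B = (2/35)*J0*b0^2 + (2/15)*b0^2*b1 + (1/70)*J0*b2 + (1/35)*J1*b1 - (1/70)*J2*b0 + (1/10)*b1*b2 - (1/140)*J4)
    (J0' : coeff 0 J = J0)
    (J1' : coeff 1 J = J1)
    (J2' : coeff 2 J = (1/2)*J2)
    (J3' : coeff 3 J = (1/6)*J3)
    (J4' : coeff 4 J = (1/24)*J4)
    : coeff 0 (V * Z - d⁄dX ℝ Z * W) = 0 ∧
      coeff 1 (V * Z - d⁄dX ℝ Z * W) = 0 ∧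
      coeff 2 (V * Z - d⁄dX ℝ Z * W) = 0 ∧
      coeff 3 (V * Z - d⁄dX ℝ Z * W) = 0 ∧
      coeff 4 (V * Z - d⁄dX ℝ Z * W) = 0 ∧
      coeff 5 (V * Z - d⁄dX ℝ Z * W) = 0 ∧
      coeff 6 (V * Z - d⁄dX ℝ Z * W) = -(1/40)*J0 - (1/48)*b1 ∧
      coeff 7 (V * Z - d⁄dX ℝ Z * W) = -(1/80)*J1 - (1/96)*b2 ∧
      coeff 8 (V * Z - d⁄dX ℝ Z * W) = -(9/1120)*J0*b0 - (1/64)*b0*b1 - (1/840)*J2 ∧
      coeff 9 (V * Z - d⁄dX ℝ Z * W) = -(17/6720)*J0*b1 - (17/6720)*J1*b0 - (5/1152)*b0*b2 - (5/1152)*b1^2 - (1/3360)*J3 ∧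
      coeff 10 (V * Z - d⁄dX ℝ Z * W) = -(281/156800)*J0*b0^2 - (47/11520)*b0^2*b1 + (1/22400)*J0*J1 - (1741/2822400)*J0*b2 - (361/338688)*J1*b1 + (79/423360)*J2*b0 - (7/2560)*b1*b2 - (5/84672)*J4 ∧
      coeff 0 (V * Z + d⁄dX ℝ Z * W) = 0 ∧
      coeff 1 (V * Z + d⁄dX ℝ Z * W) = 0 ∧
      coeff 2 (V * Z + d⁄dX ℝ Z * W) = 0 ∧
      coeff 3 (V * Z + d⁄dX ℝ Z * W) = 1 ∧
      coeff 4 (V * Z + d⁄dX ℝ Z * W) = 0 ∧
      coeff 5 (V * Z + d⁄dX ℝ Z * W) = (1/4)*b0 ∧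
      coeff 6 (V * Z + d⁄dX ℝ Z * W) = (1/8)*b1 ∧
      coeff 7 (V * Z + d⁄dX ℝ Z * W) = (1/40)*b0^2 + (1/240)*J1 + (19/480)*b2 ∧
      coeff 0 (Z * W) = 0 ∧
      coeff 1 (Z * W) = 0 ∧
      coeff 2 (Z * W) = 0 ∧
      coeff 3 (Z * W) = 0 ∧
      coeff 4 (Z * W) = (1/4) ∧
      coeff 5 (Z * W) = 0 ∧
      coeff 6 (Z * W) = (1/24)*b0 ∧
      coeff 7 (Z * W) = (1/48)*b1 ∧
      coeff 8 (Z * W) = (1/320)*b0^2 + (1/160)*b2 := by
  have Z0 := h.Z0
  have Z1 := h.Z1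
  have Z2 := h.Z2
  have W0 := h.W0
  have W1 := h.W1
  have W2 := h.W2
  have V0 := h.V0
  have V1 := h.V1
  have V2 := h.V2
  have Z3 : coeff 3 Z = 0 := by
    have r := rec3 h.hZ 0
    simp only [cS, Finset.sum_range_succ, Finset.sum_range_zero, Nat.reduceAdd, Nat.reduceSub, zero_add, Nat.add_zero, Nat.sub_zero, Nat.sub_self, B0, B1, B2, B3, B4, B5, J0', J1', J2', J3', J4', Z0, Z1, Z2, zero_mul, mul_zero, add_zero] at r
    push_cast at r
    linear_combination (1/6 : ℝ) * r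
  have Z4 : coeff 4 Z = (1/24)*b0 := by
    have r := rec3 h.hZ 1
    simp only [cS, Finset.sum_range_succ, Finset.sum_range_zero, Nat.reduceAdd, Nat.reduceSub, zero_add, Nat.add_zero, Nat.sub_zero, Nat.sub_self, B0, B1, B2, B3, B4, B5, J0', J1', J2', J3', J4', Z0, Z1, Z2, Z3, zero_mul, mul_zero, add_zero] at r
    push_cast at r
    linear_combination (1/24 : ℝ) * r
  have Z5 : coeff 5 Z = (1/120)*J0 + (1/48)*b1 := by
    have r := rec3 h.hZ 2
    simp only [cS, Finset.sum_range_succ, Finset.sum_range_zero, Nat.reduceAdd, Nat.reduceSub, zero_add, Nat.add_zero, Nat.sub_zero, Nat.sub_self, B0, B1, B2, B3, B4, B5, J0', J1', J2', J3', J4', Z0, Z1, Z2, Z3, Z4, zero_mul, mul_zero, add_zero] at r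
    push_cast at r
    linear_combination (1/60 : ℝ) * r
  have Z6 : coeff 6 Z = (1/720)*b0^2 + (1/240)*J1 + (1/160)*b2 := by
    have r := rec3 h.hZ 3
    simp only [cS, Finset.sum_range_succ, Finset.sum_range_zero, Nat.reduceAdd, Nat.reduceSub, zero_add, Nat.add_zero, Nat.sub_zero, Nat.sub_self, B0, B1, B2, B3, B4, B5, J0', J1', J2', J3', J4', Z0, Z1, Z2, Z3, Z4, Z5, zero_mul, mul_zero, add_zero] at r
    push_cast at r
    linear_combination (1/120 : ℝ) * r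
  have Z7 : coeff 7 Z = (1/360)*J0*b0 + (1/144)*b0*b1 := by
    have r := rec3 h.hZ 4
    simp only [cS, Finset.sum_range_succ, Finset.sum_range_zero, Nat.reduceAdd, Nat.reduceSub, zero_add, Nat.add_zero, Nat.sub_zero, Nat.sub_self, B0, B1, B2, B3, B4, B5, J0', J1', J2', J3', J4', Z0, Z1, Z2, Z3, Z4, Z5, Z6, zero_mul, mul_zero, add_zero] at r
    push_cast at r
    linear_combination (1/210 : ℝ) * r
  have Z8 : coeff 8 Z = (1/40320)*b0^3 + (1/40320)*J0^2 + (11/17640)*J0*b1 + (11/17640)*J1*b0 + (19/13440)*b0*b2 + (43/32256)*b1^2 + (1/28224)*J3 := by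
    have r := rec3 h.hZ 5
    simp only [cS, Finset.sum_range_succ, Finset.sum_range_zero, Nat.reduceAdd, Nat.reduceSub, zero_add, Nat.add_zero, Nat.sub_zero, Nat.sub_self, B0, B1, B2, B3, B4, B5, J0', J1', J2', J3', J4', Z0, Z1, Z2, Z3, Z4, Z5, Z6, Z7, zero_mul, mul_zero, add_zero] at r
    push_cast at r
    linear_combination (1/336 : ℝ) * r
  have Z9 : coeff 9 Z = (361/846720)*J0*b0^2 + (7/6912)*b0^2*b1 + (1/40320)*J0*J1 + (71/564480)*J0*b2 + (377/1693440)*J1*b1 - (37/423360)*J2*b0 + (1/1536)*b1*b2 + (1/105840)*J4 := by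
    have r := rec3 h.hZ 6
    simp only [cS, Finset.sum_range_succ, Finset.sum_range_zero, Nat.reduceAdd, Nat.reduceSub, zero_add, Nat.add_zero, Nat.sub_zero, Nat.sub_self, B0, B1, B2, B3, B4, B5, J0', J1', J2', J3', J4', Z0, Z1, Z2, Z3, Z4, Z5, Z6, Z7, Z8, zero_mul, mul_zero, add_zero] at r
    push_cast at r
    linear_combination (1/504 : ℝ) * r
  have W3 : coeff 3 W = 0 := by
    have r := rec3 h.hW 0
    simp only [cT, Finset.sum_range_succ, Finset.sum_range_zero, Nat.reduceAdd, Nat.reduceSub, zero_add, Nat.add_zero, Nat.sub_zero, Nat.sub_self, B0, B1, B2, B3, B4, B5, J0', J1', J2', J3', J4', W0, W1, W2, zero_mul, mul_zero, add_zero] at r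
    push_cast at r
    linear_combination (1/6 : ℝ) * r
  have W4 : coeff 4 W = (1/24)*b0 := by
    have r := rec3 h.hW 1
    simp only [cT, Finset.sum_range_succ, Finset.sum_range_zero, Nat.reduceAdd, Nat.reduceSub, zero_add, Nat.add_zero, Nat.sub_zero, Nat.sub_self, B0, B1, B2, B3, B4, B5, J0', J1', J2', J3', J4', W0, W1, W2, W3, zero_mul, mul_zero, add_zero] at r
    push_cast at r
    linear_combination (1/24 : ℝ) * r
  have W5 : coeff 5 W = -(1/120)*J0 + (1/48)*b1 := by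
    have r := rec3 h.hW 2
    simp only [cT, Finset.sum_range_succ, Finset.sum_range_zero, Nat.reduceAdd, Nat.reduceSub, zero_add, Nat.add_zero, Nat.sub_zero, Nat.sub_self, B0, B1, B2, B3, B4, B5, J0', J1', J2', J3', J4', W0, W1, W2, W3, W4, zero_mul, mul_zero, add_zero] at r
    push_cast at r
    linear_combination (1/60 : ℝ) * r
  have W6 : coeff 6 W = (1/720)*b0^2 - (1/240)*J1 + (1/160)*b2 := by
    have r := rec3 h.hW 3
    simp only [cT, Finset.sum_range_succ, Finset.sum_range_zero, Nat.reduceAdd, Nat.reduceSub, zero_add, Nat.add_zero, Nat.sub_zero, Nat.sub_self, B0, B1, B2, B3, B4, B5, J0', J1', J2', J3', J4', W0, W1, W2, W3, W4, W5, zero_mul, mul_zero, add_zero] at r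
    push_cast at r
    linear_combination (1/120 : ℝ) * r
  have W7 : coeff 7 W = (1/504)*J0*b0 + (1/144)*b0*b1 - (1/420)*J2 := by
    have r := rec3 h.hW 4
    simp only [cT, Finset.sum_range_succ, Finset.sum_range_zero, Nat.reduceAdd, Nat.reduceSub, zero_add, Nat.add_zero, Nat.sub_zero, Nat.sub_self, B0, B1, B2, B3, B4, B5, J0', J1', J2', J3', J4', W0, W1, W2, W3, W4, W5, W6, zero_mul, mul_zero, add_zero] at r
    push_cast at r
    linear_combination (1/210 : ℝ) * r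
  have W8 : coeff 8 W = (1/40320)*b0^3 + (1/40320)*J0^2 + (1/4410)*J0*b1 + (1/4410)*J1*b0 + (19/13440)*b0*b2 + (43/32256)*b1^2 - (13/28224)*J3 := by
    have r := rec3 h.hW 5
    simp only [cT, Finset.sum_range_succ, Finset.sum_range_zero, Nat.reduceAdd, Nat.reduceSub, zero_add, Nat.add_zero, Nat.sub_zero, Nat.sub_self, B0, B1, B2, B3, B4, B5, J0', J1', J2', J3', J4', W0, W1, W2, W3, W4, W5, W6, W7, zero_mul, mul_zero, add_zero] at r
    push_cast at r
    linear_combination (1/336 : ℝ) * r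
  have W9 : coeff 9 W = (347/846720)*J0*b0^2 + (7/6912)*b0^2*b1 + (1/40320)*J0*J1 + (1/564480)*J0*b2 + (11/338688)*J1*b1 - (43/211680)*J2*b0 + (1/1536)*b1*b2 - (31/423360)*J4 := by
    have r := rec3 h.hW 6
    simp only [cT, Finset.sum_range_succ, Finset.sum_range_zero, Nat.reduceAdd, Nat.reduceSub, zero_add, Nat.add_zero, Nat.sub_zero, Nat.sub_self, B0, B1, B2, B3, B4, B5, J0', J1', J2', J3', J4', W0, W1, W2, W3, W4, W5, W6, W7, W8, zero_mul, mul_zero, add_zero] at r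
    push_cast at r
    linear_combination (1/504 : ℝ) * r
  have V3 : coeff 3 V = (1/6)*b0 := by
    have r := rec3 h.hV 0
    simp only [cT, Finset.sum_range_succ, Finset.sum_range_zero, Nat.reduceAdd, Nat.reduceSub, zero_add, Nat.add_zero, Nat.sub_zero, Nat.sub_self, B0, B1, B2, B3, B4, B5, J0', J1', J2', J3', J4', V0, V1, V2, zero_mul, mul_zero, add_zero] at r
    push_cast at r
    linear_combination (1/6 : ℝ) * r
  have V4 : coeff 4 V = -(1/24)*J0 + (1/16)*b1 := by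
    have r := rec3 h.hV 1
    simp only [cT, Finset.sum_range_succ, Finset.sum_range_zero, Nat.reduceAdd, Nat.reduceSub, zero_add, Nat.add_zero, Nat.sub_zero, Nat.sub_self, B0, B1, B2, B3, B4, B5, J0', J1', J2', J3', J4', V0, V1, V2, V3, zero_mul, mul_zero, add_zero] at r
    push_cast at r
    linear_combination (1/24 : ℝ) * r
  have V5 : coeff 5 V = (1/120)*b0^2 - (1/60)*J1 + (1/60)*b2 := by
    have r := rec3 h.hV 2
    simp only [cT, Finset.sum_range_succ, Finset.sum_range_zero, Nat.reduceAdd, Nat.reduceSub, zero_add, Nat.add_zero, Nat.sub_zero, Nat.sub_self, B0, B1, B2, B3, B4, B5, J0', J1', J2', J3', J4', V0, V1, V2, V3, V4, zero_mul, mul_zero, add_zero] at r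
    push_cast at r
    linear_combination (1/60 : ℝ) * r
  have V6 : coeff 6 V = (1/315)*J0*b0 + (1/48)*b0*b1 - (1/140)*J2 := by
    have r := rec3 h.hV 3
    simp only [cT, Finset.sum_range_succ, Finset.sum_range_zero, Nat.reduceAdd, Nat.reduceSub, zero_add, Nat.add_zero, Nat.sub_zero, Nat.sub_self, B0, B1, B2, B3, B4, B5, J0', J1', J2', J3', J4', V0, V1, V2, V3, V4, V5, zero_mul, mul_zero, add_zero] at r
    push_cast at r
    linear_combination (1/120 : ℝ) * r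
  have V7 : coeff 7 V = (1/5040)*b0^3 + (1/5040)*J0^2 - (1/5880)*J0*b1 - (1/5880)*J1*b0 + (11/2520)*b0*b2 + (5/1344)*b1^2 - (23/17640)*J3 := by
    have r := rec3 h.hV 4
    simp only [cT, Finset.sum_range_succ, Finset.sum_range_zero, Nat.reduceAdd, Nat.reduceSub, zero_add, Nat.add_zero, Nat.sub_zero, Nat.sub_self, B0, B1, B2, B3, B4, B5, J0', J1', J2', J3', J4', V0, V1, V2, V3, V4, V5, V6, zero_mul, mul_zero, add_zero] at r
    push_cast at r
    linear_combination (1/210 : ℝ) * r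
  have V8 : coeff 8 V = (17/13440)*J0*b0^2 + (13/3840)*b0^2*b1 + (1/5760)*J0*J1 - (17/80640)*J0*b2 - (13/80640)*J1*b1 - (17/20160)*J2*b0 + (41/23040)*b1*b2 - (1/5040)*J4 := by
    have r := rec3 h.hV 5
    simp only [cT, Finset.sum_range_succ, Finset.sum_range_zero, Nat.reduceAdd, Nat.reduceSub, zero_add, Nat.add_zero, Nat.sub_zero, Nat.sub_self, B0, B1, B2, B3, B4, B5, J0', J1', J2', J3', J4', V0, V1, V2, V3, V4, V5, V6, V7, zero_mul, mul_zero, add_zero] at r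
    push_cast at r
    linear_combination (1/336 : ℝ) * r
  refine ⟨?_, ?_, ?_, ?_, ?_, ?_, ?_, ?_, ?_, ?_, ?_, ?_, ?_, ?_, ?_, ?_, ?_, ?_, ?_, ?_, ?_, ?_, ?_, ?_, ?_, ?_, ?_, ?_⟩
  all_goals
    simp only [map_sub, map_add, mulc, coeff_derivative, Finset.sum_range_succ, Finset.sum_range_zero, Nat.reduceAdd, Nat.reduceSub, zero_add, Nat.add_zero, Nat.sub_zero, Nat.sub_self, Z0, Z1, Z2, Z3, Z4, Z5, Z6, Z7, Z8, Z9, W0, W1, W2, W3, W4, W5, W6, W7, W8, W9, V0, V1, V2, V3, V4, V5, V6, V7, V8, zero_mul, mul_zero, add_zero]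
    try (push_cast; ring)

end Pool.Agent.W5h10.TL
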