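import Pool.Agent.W5h10.TL.Sys

/-!
# Coefficients of the formal solutions
-/

set_option autoImplicit false
set_option linter.unusedSimpArgs false

open PowerSeries

namespace Pool.Agent.W5h10.TL

/-- the coefficients, stage D -/
theorem coefsD {B J Z W V : ℝ⟦X⟧} (h : Sys B J Z W V) {b0 b1 b2 J0 J1 J2 J3 : ℝ}
    (B0 : coeff 0 B = b0)
    (B1 : coeff 1 B = b1)
    (B2 : coeff 2 B = (1/2)*b2)
    (B3 : coeff 3 B = (2/7)*J0*b0 + (2/3)*b0*b1 - (1/7)*J2)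
    (B4 : coeff 4 B = (1/14)*J0*b1 + (1/14)*J1*b0 + (1/6)*b0*b2 + (1/6)*b1^2 - (1/28)*J3)
    (B5 : coeff 5 B = (38/35)*J0*b0^2 + (2/15)*b0^2*b1 - (9/10)*J0*J1 - (7/8)*J0*b2 - (21/40)*J1*b1 - (27/140)*J2*b0 + (1/10)*b1*b2)
    (B6 : coeff 6 B = -(1/4)*J0^2*b0 - (27/140)*J0*b0*b1 + (19/105)*J1*b0^2 + (1/45)*b0^2*b2 + (1/9)*b0*b1^2 - (1/40)*J0*J2 - (3/20)*J1^2 - (7/30)*J1*b2 - (15/112)*J2*b1 - (9/280)*J3*b0 + (1/60)*b2^2)
    (B7 : coeff 7 B = (2/3)*J0*b0^3 + (4/315)*b0^3*b1 - (1/28)*J0^2*b1 - (99/140)*J0*J1*b0 - (331/560)*J0*b0*b2 - (27/980)*J0*b1^2 - (1823/3920)*J1*b0*b1 - (11/120)*J2*b0^2 + (2/35)*b0*b1*b2 + (1/63)*b1^3 - (1/280)*J0*J3 - (1/56)*J1*J2 - (19/336)*J2*b2 - (93/3920)*J3*b1)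
    (J0' : coeff 0 J = J0)
    (J1' : coeff 1 J = J1)
    (J2' : coeff 2 J = (1/2)*J2)
    (J3' : coeff 3 J = (1/6)*J3)
    (J4' : coeff 4 J = -6*J0*b0^2 + (21/4)*J0*J1 + (83/16)*J0*b2 + (155/48)*J1*b1 + (25/24)*J2*b0)
    (J5' : coeff 5 J = (249/140)*J0^2*b0 + (7/4)*J0*b0*b1 - (6/5)*J1*b0^2 + (9/56)*J0*J2 + (21/20)*J1^2 + (101/60)*J1*b2 + (41/48)*J2*b1 + (5/24)*J3*b0)
    (J6' : coeff 6 J = -5*J0*b0^3 + (83/280)*J0^2*b1 + (4577/840)*J0*J1*b0 + (443/96)*J0*b0*b2 + (7/24)*J0*b1^2 + (1067/288)*J1*b0*b1 + (481/720)*J2*b0^2 + (3/112)*J0*J3 + (229/1680)*J1*J2 + (203/480)*J2*b2 + (17/96)*J3*b1)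
    : coeff 0 (V * Z - d⁄dX ℝ Z * W) = 0 ∧
      coeff 1 (V * Z - d⁄dX ℝ Z * W) = 0 ∧
      coeff 2 (V * Z - d⁄dX ℝ Z * W) = 0 ∧
      coeff 3 (V * Z - d⁄dX ℝ Z * W) = 0 ∧
      coeff 4 (V * Z - d⁄dX ℝ Z * W) = 0 ∧
      coeff 5 (V * Z - d⁄dX ℝ Z * W) = 0 ∧
      coeff 6 (V * Z - d⁄dX ℝ Z * W) = -(1/40)*J0 - (1/48)*b1 ∧
      coeff 7 (V * Z - d⁄dX ℝ Z * W) = -(1/80)*J1 - (1/96)*b2 ∧
      coeff 8 (V * Z - d⁄dX ℝ Z * W) = -(9/1120)*J0*b0 - (1/64)*b0*b1 - (1/840)*J2 ∧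
      coeff 9 (V * Z - d⁄dX ℝ Z * W) = -(17/6720)*J0*b1 - (17/6720)*J1*b0 - (5/1152)*b0*b2 - (5/1152)*b1^2 - (1/3360)*J3 ∧
      coeff 10 (V * Z - d⁄dX ℝ Z * W) = (451/67200)*J0*b0^2 - (47/11520)*b0^2*b1 - (71/9600)*J0*J1 - (51/6400)*J0*b2 - (13/2304)*J1*b1 - (13/10080)*J2*b0 - (7/2560)*b1*b2 ∧
      coeff 11 (V * Z - d⁄dX ℝ Z * W) = -(51/22400)*J0^2*b0 - (109/26880)*J0*b0*b1 + (137/134400)*J1*b0^2 - (19/23040)*b0^2*b2 - (1/288)*b0*b1^2 - (1/16800)*J0*J2 - (23/19200)*J1^2 - (43/19200)*J1*b2 - (1/1344)*J2*b1 - (1/4480)*J3*b0 - (7/15360)*b2^2 ∧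
      coeff 12 (V * Z - d⁄dX ℝ Z * W) = (1373/302400)*J0*b0^3 - (431/725760)*b0^3*b1 + (1/985600)*J0^3 - (39973/124185600)*J0^2*b1 - (333569/62092800)*J0*J1*b0 - (8023/1612800)*J0*b0*b2 - (545/903168)*J0*b1^2 - (28213/6773760)*J1*b0*b1 - (353/604800)*J2*b0^2 - (1199/645120)*b0*b1*b2 - (409/774144)*b1^3 - (37/15523200)*J0*J3 - (109/1663200)*J1*J2 - (31/100800)*J2*b2 - (19/141120)*J3*b1 ∧
      coeff 0 (V * Z + d⁄dX ℝ Z * W) = 0 ∧
      coeff 1 (V * Z + d⁄dX ℝ Z * W) = 0 ∧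
      coeff 2 (V * Z + d⁄dX ℝ Z * W) = 0 ∧
      coeff 3 (V * Z + d⁄dX ℝ Z * W) = 1 ∧
      coeff 4 (V * Z + d⁄dX ℝ Z * W) = 0 ∧
      coeff 5 (V * Z + d⁄dX ℝ Z * W) = (1/4)*b0 ∧
      coeff 6 (V * Z + d⁄dX ℝ Z * W) = (1/8)*b1 ∧
      coeff 7 (V * Z + d⁄dX ℝ Z * W) = (1/40)*b0^2 + (1/240)*J1 + (19/480)*b2 ∧
      coeff 8 (V * Z + d⁄dX ℝ Z * W) = (9/560)*J0*b0 + (1/16)*b0*b1 - (1/168)*J2 ∧
      coeff 9 (V * Z + d⁄dX ℝ Z * W) = (17/12096)*b0^3 - (1/2240)*J0^2 + (137/47040)*J0*b1 + (509/141120)*J1*b0 + (121/8064)*b0*b2 + (215/16128)*b1^2 - (11/11760)*J3 ∧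
      coeff 0 (Z * W) = 0 ∧
      coeff 1 (Z * W) = 0 ∧
      coeff 2 (Z * W) = 0 ∧
      coeff 3 (Z * W) = 0 ∧
      coeff 4 (Z * W) = (1/4) ∧
      coeff 5 (Z * W) = 0 ∧
      coeff 6 (Z * W) = (1/24)*b0 ∧
      coeff 7 (Z * W) = (1/48)*b1 ∧
      coeff 8 (Z * W) = (1/320)*b0^2 + (1/160)*b2 ∧
      coeff 9 (Z * W) = (1/420)*J0*b0 + (5/576)*b0*b1 - (1/840)*J2 ∧
      coeff 10 (Z * W) = (17/120960)*b0^3 - (1/22400)*J0^2 + (1/2352)*J0*b1 + (1/2352)*J1*b0 + (13/6720)*b0*b2 + (19/10752)*b1^2 - (1/4704)*J3 := by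
  have Z0 := h.Z0
  have Z1 := h.Z1
  have Z2 := h.Z2
  have W0 := h.W0
  have W1 := h.W1
  have W2 := h.W2
  have V0 := h.V0
  have V1 := h.V1
  have V2 := h.V2
  have Z3 : coeff 3 Z = 0 := by
    have r := rec3 h.hZ 0
    simp only [cS, Finset.sum_range_succ, Finset.sum_range_zero, Nat.reduceAdd, Nat.reduceSub, zero_add, Nat.add_zero, Nat.sub_zero, Nat.sub_self, B0, B1, B2, B3, B4, B5, B6, B7, J0', J1', J2', J3', J4', J5', J6', Z0, Z1, Z2, zero_mul, mul_zero, add_zero] at r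
    push_cast at r
    linear_combination (1/6 : ℝ) * r
  have Z4 : coeff 4 Z = (1/24)*b0 := by
    have r := rec3 h.hZ 1
    simp only [cS, Finset.sum_range_succ, Finset.sum_range_zero, Nat.reduceAdd, Nat.reduceSub, zero_add, Nat.add_zero, Nat.sub_zero, Nat.sub_self, B0, B1, B2, B3, B4, B5, B6, B7, J0', J1', J2', J3', J4', J5', J6', Z0, Z1, Z2, Z3, zero_mul, mul_zero, add_zero] at r
    push_cast at r
    linear_combination (1/24 : ℝ) * r
  have Z5 : coeff 5 Z = (1/120)*J0 + (1/48)*b1 := by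
    have r := rec3 h.hZ 2
    simp only [cS, Finset.sum_range_succ, Finset.sum_range_zero, Nat.reduceAdd, Nat.reduceSub, zero_add, Nat.add_zero, Nat.sub_zero, Nat.sub_self, B0, B1, B2, B3, B4, B5, B6, B7, J0', J1', J2', J3', J4', J5', J6', Z0, Z1, Z2, Z3, Z4, zero_mul, mul_zero, add_zero] at r
    push_cast at r
    linear_combination (1/60 : ℝ) * r
  have Z6 : coeff 6 Z = (1/720)*b0^2 + (1/240)*J1 + (1/160)*b2 := by
    have r := rec3 h.hZ 3
    simp only [cS, Finset.sum_range_succ, Finset.sum_range_zero, Nat.reduceAdd, Nat.reduceSub, zero_add, Nat.add_zero, Nat.sub_zero, Nat.sub_self, B0, B1, B2, B3, B4, B5, B6, B7, J0', J1', J2', J3', J4', J5', J6', Z0, Z1, Z2, Z3, Z4, Z5, zero_mul, mul_zero, add_zero] at r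
    push_cast at r
    linear_combination (1/120 : ℝ) * r
  have Z7 : coeff 7 Z = (1/360)*J0*b0 + (1/144)*b0*b1 := by
    have r := rec3 h.hZ 4
    simp only [cS, Finset.sum_range_succ, Finset.sum_range_zero, Nat.reduceAdd, Nat.reduceSub, zero_add, Nat.add_zero, Nat.sub_zero, Nat.sub_self, B0, B1, B2, B3, B4, B5, B6, B7, J0', J1', J2', J3', J4', J5', J6', Z0, Z1, Z2, Z3, Z4, Z5, Z6, zero_mul, mul_zero, add_zero] at r
    push_cast at r
    linear_combination (1/210 : ℝ) * r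
  have Z8 : coeff 8 Z = (1/40320)*b0^3 + (1/40320)*J0^2 + (11/17640)*J0*b1 + (11/17640)*J1*b0 + (19/13440)*b0*b2 + (43/32256)*b1^2 + (1/28224)*J3 := by
    have r := rec3 h.hZ 5
    simp only [cS, Finset.sum_range_succ, Finset.sum_range_zero, Nat.reduceAdd, Nat.reduceSub, zero_add, Nat.add_zero, Nat.sub_zero, Nat.sub_self, B0, B1, B2, B3, B4, B5, B6, B7, J0', J1', J2', J3', J4', J5', J6', Z0, Z1, Z2, Z3, Z4, Z5, Z6, Z7, zero_mul, mul_zero, add_zero] at r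
    push_cast at r
    linear_combination (1/336 : ℝ) * r
  have Z9 : coeff 9 Z = -(113/120960)*J0*b0^2 + (7/6912)*b0^2*b1 + (7/5760)*J0*J1 + (1/768)*J0*b2 + (11/11520)*J1*b1 + (1/6720)*J2*b0 + (1/1536)*b1*b2 := by
    have r := rec3 h.hZ 6
    simp only [cS, Finset.sum_range_succ, Finset.sum_range_zero, Nat.reduceAdd, Nat.reduceSub, zero_add, Nat.add_zero, Nat.sub_zero, Nat.sub_self, B0, B1, B2, B3, B4, B5, B6, B7, J0', J1', J2', J3', J4', J5', J6', Z0, Z1, Z2, Z3, Z4, Z5, Z6, Z7, Z8, zero_mul, mul_zero, add_zero] at r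
    push_cast at r
    linear_combination (1/504 : ℝ) * r
  have Z10 : coeff 10 Z = (1/3628800)*b0^4 + (19/48384)*J0^2*b0 + (1219/1693440)*J0*b0*b1 - (1451/8467200)*J1*b0^2 + (127/806400)*b0^2*b2 + (127/193536)*b0*b1^2 + (1/50400)*J0*J2 + (37/172800)*J1^2 + (67/172800)*J1*b2 + (1/8640)*J2*b1 + (13/423360)*J3*b0 + (61/691200)*b2^2 := by
    have r := rec3 h.hZ 7
    simp only [cS, Finset.sum_range_succ, Finset.sum_range_zero, Nat.reduceAdd, Nat.reduceSub, zero_add, Nat.add_zero, Nat.sub_zero, Nat.sub_self, B0, B1, B2, B3, B4, B5, B6, B7, J0', J1', J2', J3', J4', J5', J6', Z0, Z1, Z2, Z3, Z4, Z5, Z6, Z7, Z8, Z9, zero_mul, mul_zero, add_zero] at r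
    push_cast at r
    linear_combination (1/720 : ℝ) * r
  have Z11 : coeff 11 Z = -(1151/1814400)*J0*b0^3 + (1/11340)*b0^3*b1 + (1/39916800)*J0^3 + (10349/186278400)*J0^2*b1 + (73589/93139200)*J0*J1*b0 + (577/806400)*J0*b0*b2 + (3313/33868800)*J0*b1^2 + (10571/16934400)*J1*b0*b1 + (1/13440)*J2*b0^2 + (31/107520)*b0*b1*b2 + (31/387072)*b1^3 + (137/46569600)*J0*J3 + (1/59400)*J1*J2 + (1/18900)*J2*b2 + (187/8467200)*J3*b1 := by
    have r := rec3 h.hZ 8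
    simp only [cS, Finset.sum_range_succ, Finset.sum_range_zero, Nat.reduceAdd, Nat.reduceSub, zero_add, Nat.add_zero, Nat.sub_zero, Nat.sub_self, B0, B1, B2, B3, B4, B5, B6, B7, J0', J1', J2', J3', J4', J5', J6', Z0, Z1, Z2, Z3, Z4, Z5, Z6, Z7, Z8, Z9, Z10, zero_mul, mul_zero, add_zero] at r
    push_cast at r
    linear_combination (1/990 : ℝ) * r
  have W3 : coeff 3 W = 0 := by
    have r := rec3 h.hW 0
    simp only [cT, Finset.sum_range_succ, Finset.sum_range_zero, Nat.reduceAdd, Nat.reduceSub, zero_add, Nat.add_zero, Nat.sub_zero, Nat.sub_self, B0, B1, B2, B3, B4, B5, B6, B7, J0', J1', J2', J3', J4', J5', J6', W0, W1, W2, zero_mul, mul_zero, add_zero] at r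
    push_cast at r
    linear_combination (1/6 : ℝ) * r
  have W4 : coeff 4 W = (1/24)*b0 := by
    have r := rec3 h.hW 1
    simp only [cT, Finset.sum_range_succ, Finset.sum_range_zero, Nat.reduceAdd, Nat.reduceSub, zero_add, Nat.add_zero, Nat.sub_zero, Nat.sub_self, B0, B1, B2, B3, B4, B5, B6, B7, J0', J1', J2', J3', J4', J5', J6', W0, W1, W2, W3, zero_mul, mul_zero, add_zero] at r
    push_cast at r
    linear_combination (1/24 : ℝ) * r
  have W5 : coeff 5 W = -(1/120)*J0 + (1/48)*b1 := by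
    have r := rec3 h.hW 2
    simp only [cT, Finset.sum_range_succ, Finset.sum_range_zero, Nat.reduceAdd, Nat.reduceSub, zero_add, Nat.add_zero, Nat.sub_zero, Nat.sub_self, B0, B1, B2, B3, B4, B5, B6, B7, J0', J1', J2', J3', J4', J5', J6', W0, W1, W2, W3, W4, zero_mul, mul_zero, add_zero] at r
    push_cast at r
    linear_combination (1/60 : ℝ) * r
  have W6 : coeff 6 W = (1/720)*b0^2 - (1/240)*J1 + (1/160)*b2 := by
    have r := rec3 h.hW 3
    simp only [cT, Finset.sum_range_succ, Finset.sum_range_zero, Nat.reduceAdd, Nat.reduceSub, zero_add, Nat.add_zero, Nat.sub_zero, Nat.sub_self, B0, B1, B2, B3, B4, B5, B6, B7, J0', J1', J2', J3', J4', J5', J6', W0, W1, W2, W3, W4, W5, zero_mul, mul_zero, add_zero] at r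
    push_cast at r
    linear_combination (1/120 : ℝ) * r
  have W7 : coeff 7 W = (1/504)*J0*b0 + (1/144)*b0*b1 - (1/420)*J2 := by
    have r := rec3 h.hW 4
    simp only [cT, Finset.sum_range_succ, Finset.sum_range_zero, Nat.reduceAdd, Nat.reduceSub, zero_add, Nat.add_zero, Nat.sub_zero, Nat.sub_self, B0, B1, B2, B3, B4, B5, B6, B7, J0', J1', J2', J3', J4', J5', J6', W0, W1, W2, W3, W4, W5, W6, zero_mul, mul_zero, add_zero] at r
    push_cast at r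
    linear_combination (1/210 : ℝ) * r
  have W8 : coeff 8 W = (1/40320)*b0^3 + (1/40320)*J0^2 + (1/4410)*J0*b1 + (1/4410)*J1*b0 + (19/13440)*b0*b2 + (43/32256)*b1^2 - (13/28224)*J3 := by
    have r := rec3 h.hW 5
    simp only [cT, Finset.sum_range_succ, Finset.sum_range_zero, Nat.reduceAdd, Nat.reduceSub, zero_add, Nat.add_zero, Nat.sub_zero, Nat.sub_self, B0, B1, B2, B3, B4, B5, B6, B7, J0', J1', J2', J3', J4', J5', J6', W0, W1, W2, W3, W4, W5, W6, W7, zero_mul, mul_zero, add_zero] at r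
    push_cast at r
    linear_combination (1/336 : ℝ) * r
  have W9 : coeff 9 W = (265/24192)*J0*b0^2 + (7/6912)*b0^2*b1 - (53/5760)*J0*J1 - (7/768)*J0*b2 - (13/2304)*J1*b1 - (41/20160)*J2*b0 + (1/1536)*b1*b2 := by
    have r := rec3 h.hW 6
    simp only [cT, Finset.sum_range_succ, Finset.sum_range_zero, Nat.reduceAdd, Nat.reduceSub, zero_add, Nat.add_zero, Nat.sub_zero, Nat.sub_self, B0, B1, B2, B3, B4, B5, B6, B7, J0', J1', J2', J3', J4', J5', J6', W0, W1, W2, W3, W4, W5, W6, W7, W8, zero_mul, mul_zero, add_zero] at r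
    push_cast at r
    linear_combination (1/504 : ℝ) * r
  have W10 : coeff 10 W = (1/3628800)*b0^4 - (2573/1209600)*J0^2*b0 - (3121/1693440)*J0*b0*b1 + (1399/940800)*J1*b0^2 + (127/806400)*b0^2*b2 + (127/193536)*b0*b1^2 - (1/5600)*J0*J2 - (43/34560)*J1^2 - (347/172800)*J1*b2 - (17/15120)*J2*b1 - (1/3528)*J3*b0 + (61/691200)*b2^2 := by
    have r := rec3 h.hW 7
    simp only [cT, Finset.sum_range_succ, Finset.sum_range_zero, Nat.reduceAdd, Nat.reduceSub, zero_add, Nat.add_zero, Nat.sub_zero, Nat.sub_self, B0, B1, B2, B3, B4, B5, B6, B7, J0', J1', J2', J3', J4', J5', J6', W0, W1, W2, W3, W4, W5, W6, W7, W8, W9, zero_mul, mul_zero, add_zero] at r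
    push_cast at r
    linear_combination (1/720 : ℝ) * r
  have W11 : coeff 11 W = (365/72576)*J0*b0^3 + (1/11340)*b0^3*b1 - (1/39916800)*J0^3 - (9431/37255680)*J0^2*b1 - (492007/93139200)*J0*J1*b0 - (3631/806400)*J0*b0*b2 - (7537/33868800)*J0*b1^2 - (59429/16934400)*J1*b0*b1 - (143/201600)*J2*b0^2 + (31/107520)*b0*b1*b2 + (31/387072)*b1^3 - (907/46569600)*J0*J3 - (13/118800)*J1*J2 - (59/151200)*J2*b2 - (1423/8467200)*J3*b1 := by
    have r := rec3 h.hW 8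
    simp only [cT, Finset.sum_range_succ, Finset.sum_range_zero, Nat.reduceAdd, Nat.reduceSub, zero_add, Nat.add_zero, Nat.sub_zero, Nat.sub_self, B0, B1, B2, B3, B4, B5, B6, B7, J0', J1', J2', J3', J4', J5', J6', W0, W1, W2, W3, W4, W5, W6, W7, W8, W9, W10, zero_mul, mul_zero, add_zero] at r
    push_cast at r
    linear_combination (1/990 : ℝ) * r
  have V3 : coeff 3 V = (1/6)*b0 := by
    have r := rec3 h.hV 0
    simp only [cT, Finset.sum_range_succ, Finset.sum_range_zero, Nat.reduceAdd, Nat.reduceSub, zero_add, Nat.add_zero, Nat.sub_zero, Nat.sub_self, B0, B1, B2, B3, B4, B5, B6, B7, J0', J1', J2', J3', J4', J5', J6', V0, V1, V2, zero_mul, mul_zero, add_zero] at r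
    push_cast at r
    linear_combination (1/6 : ℝ) * r
  have V4 : coeff 4 V = -(1/24)*J0 + (1/16)*b1 := by
    have r := rec3 h.hV 1
    simp only [cT, Finset.sum_range_succ, Finset.sum_range_zero, Nat.reduceAdd, Nat.reduceSub, zero_add, Nat.add_zero, Nat.sub_zero, Nat.sub_self, B0, B1, B2, B3, B4, B5, B6, B7, J0', J1', J2', J3', J4', J5', J6', V0, V1, V2, V3, zero_mul, mul_zero, add_zero] at r
    push_cast at r
    linear_combination (1/24 : ℝ) * r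
  have V5 : coeff 5 V = (1/120)*b0^2 - (1/60)*J1 + (1/60)*b2 := by
    have r := rec3 h.hV 2
    simp only [cT, Finset.sum_range_succ, Finset.sum_range_zero, Nat.reduceAdd, Nat.reduceSub, zero_add, Nat.add_zero, Nat.sub_zero, Nat.sub_self, B0, B1, B2, B3, B4, B5, B6, B7, J0', J1', J2', J3', J4', J5', J6', V0, V1, V2, V3, V4, zero_mul, mul_zero, add_zero] at r
    push_cast at r
    linear_combination (1/60 : ℝ) * r
  have V6 : coeff 6 V = (1/315)*J0*b0 + (1/48)*b0*b1 - (1/140)*J2 := by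
    have r := rec3 h.hV 3
    simp only [cT, Finset.sum_range_succ, Finset.sum_range_zero, Nat.reduceAdd, Nat.reduceSub, zero_add, Nat.add_zero, Nat.sub_zero, Nat.sub_self, B0, B1, B2, B3, B4, B5, B6, B7, J0', J1', J2', J3', J4', J5', J6', V0, V1, V2, V3, V4, V5, zero_mul, mul_zero, add_zero] at r
    push_cast at r
    linear_combination (1/120 : ℝ) * r
  have V7 : coeff 7 V = (1/5040)*b0^3 + (1/5040)*J0^2 - (1/5880)*J0*b1 - (1/5880)*J1*b0 + (11/2520)*b0*b2 + (5/1344)*b1^2 - (23/17640)*J3 := by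
    have r := rec3 h.hV 4
    simp only [cT, Finset.sum_range_succ, Finset.sum_range_zero, Nat.reduceAdd, Nat.reduceSub, zero_add, Nat.add_zero, Nat.sub_zero, Nat.sub_self, B0, B1, B2, B3, B4, B5, B6, B7, J0', J1', J2', J3', J4', J5', J6', V0, V1, V2, V3, V4, V5, V6, zero_mul, mul_zero, add_zero] at r
    push_cast at r
    linear_combination (1/210 : ℝ) * r
  have V8 : coeff 8 V = (401/13440)*J0*b0^2 + (13/3840)*b0^2*b1 - (143/5760)*J0*J1 - (287/11520)*J0*b2 - (179/11520)*J1*b1 - (13/2240)*J2*b0 + (41/23040)*b1*b2 := by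
    have r := rec3 h.hV 5
    simp only [cT, Finset.sum_range_succ, Finset.sum_range_zero, Nat.reduceAdd, Nat.reduceSub, zero_add, Nat.add_zero, Nat.sub_zero, Nat.sub_self, B0, B1, B2, B3, B4, B5, B6, B7, J0', J1', J2', J3', J4', J5', J6', V0, V1, V2, V3, V4, V5, V6, V7, zero_mul, mul_zero, add_zero] at r
    push_cast at r
    linear_combination (1/336 : ℝ) * r
  have V9 : coeff 9 V = (1/362880)*b0^4 - (683/120960)*J0^2*b0 - (47/9408)*J0*b0*b1 + (829/211680)*J1*b0^2 + (17/30240)*b0^2*b2 + (187/96768)*b0*b1^2 - (1/2520)*J0*J2 - (7/2160)*J1^2 - (23/4320)*J1*b2 - (13/4320)*J2*b1 - (113/141120)*J3*b0 + (1/4320)*b2^2 := by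
    have r := rec3 h.hV 6
    simp only [cT, Finset.sum_range_succ, Finset.sum_range_zero, Nat.reduceAdd, Nat.reduceSub, zero_add, Nat.add_zero, Nat.sub_zero, Nat.sub_self, B0, B1, B2, B3, B4, B5, B6, B7, J0', J1', J2', J3', J4', J5', J6', V0, V1, V2, V3, V4, V5, V6, V7, V8, zero_mul, mul_zero, add_zero] at r
    push_cast at r
    linear_combination (1/504 : ℝ) * r
  have V10 : coeff 10 V = (6457/453600)*J0*b0^3 + (41/120960)*b0^3*b1 - (1/3628800)*J0^3 - (1237/1881600)*J0^2*b1 - (41479/2822400)*J0*J1*b0 - (1229/96768)*J0*b0*b2 - (6829/11289600)*J0*b1^2 - (164849/16934400)*J1*b0*b1 - (139/67200)*J2*b0^2 + (811/967680)*b0*b1*b2 + (29/129024)*b1^3 - (151/4233600)*J0*J3 - (13/50400)*J1*J2 - (61/60480)*J2*b2 - (3733/8467200)*J3*b1 := by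
    have r := rec3 h.hV 7
    simp only [cT, Finset.sum_range_succ, Finset.sum_range_zero, Nat.reduceAdd, Nat.reduceSub, zero_add, Nat.add_zero, Nat.sub_zero, Nat.sub_self, B0, B1, B2, B3, B4, B5, B6, B7, J0', J1', J2', J3', J4', J5', J6', V0, V1, V2, V3, V4, V5, V6, V7, V8, V9, zero_mul, mul_zero, add_zero] at r
    push_cast at r
    linear_combination (1/720 : ℝ) * r
  refine ⟨?_, ?_, ?_, ?_, ?_, ?_, ?_, ?_, ?_, ?_, ?_, ?_, ?_, ?_, ?_, ?_, ?_, ?_, ?_, ?_, ?_, ?_, ?_, ?_, ?_, ?_, ?_, ?_, ?_, ?_, ?_, ?_, ?_, ?_⟩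
  all_goals
    simp only [map_sub, map_add, mulc, coeff_derivative, Finset.sum_range_succ, Finset.sum_range_zero, Nat.reduceAdd, Nat.reduceSub, zero_add, Nat.add_zero, Nat.sub_zero, Nat.sub_self, Z0, Z1, Z2, Z3, Z4, Z5, Z6, Z7, Z8, Z9, Z10, Z11, W0, W1, W2, W3, W4, W5, W6, W7, W8, W9, W10, W11, V0, V1, V2, V3, V4, V5, V6, V7, V8, V9, V10, zero_mul, mul_zero, add_zero]
    try (push_cast; ring)

end Pool.Agent.W5h10.TL
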