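import Pool.Agent.W5h10.TL.Tay

/-!
# One-sided behaviour at a double zero
-/

set_option autoImplicit false

open Filter Topology
open scoped ContDiff

namespace Pool.Agent.W5h10.TL

open Pool.Agent.W5h70.PG (HD)

theorem slope_left {f : ℝ → ℝ} {f' t₀ : ℝ} (h : HasDerivAt f f' t₀) (h0 : f t₀ = 0) :
    Tendsto (fun t => f t / (t - t₀)) (𝓝[<] t₀) (𝓝 f') := by
  have h1 := (hasDerivAt_iff_tendsto_slope.1 h).mono_left
    (nhdsWithin_mono t₀ (fun t (ht : t < t₀) => ht.ne))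
  refine h1.congr' ?_
  filter_upwards [self_mem_nhdsWithin] with t _
  rw [slope_def_field, h0, sub_zero]

theorem neg_left {f : ℝ → ℝ} {f' t₀ : ℝ} (h : HasDerivAt f f' t₀) (h0 : f t₀ = 0) (h1 : 0 < f') :
    ∀ᶠ t in 𝓝[<] t₀, f t < 0 := by
  have h2 := (slope_left h h0).eventually (lt_mem_nhds h1)
  filter_upwards [h2, self_mem_nhdsWithin] with t ht ht'
  have ht' : t < t₀ := ht'
  have h3 : f t = (f t / (t - t₀)) * (t - t₀) := by
    rw [div_mul_cancel₀]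
    exact (sub_neg.2 ht').ne
  rw [h3]
  exact mul_neg_of_pos_of_neg ht (sub_neg.2 ht')

/-- behaviour at a double zero -/
theorem near_left {ν f f1 f2 : ℝ → ℝ} (hν : ∀ t, 0 < ν t) (h : HD ν f f1) (h1 : HD ν f1 f2)
    {t₀ : ℝ} (z0 : f t₀ = 0) (z1 : f1 t₀ = 0) (z2 : 0 < f2 t₀) :
    (∀ᶠ t in 𝓝[<] t₀, f1 t < 0 ∧ 0 < f t) ∧
      Tendsto (fun t => f t / f1 t) (𝓝[<] t₀) (𝓝 0) := by
  have d1 := h1 t₀
  rw [smul_eq_mul] at d1
  have n1 := neg_left d1 z1 (mul_pos (hν t₀) z2)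
  constructor
  · obtain ⟨a, ha, hs⟩ := mem_nhdsLT_iff_exists_Ioo_subset.1 n1
    have ha : a < t₀ := ha
    filter_upwards [Ioo_mem_nhdsLT ha] with t ht
    refine ⟨hs ht, ?_⟩
    obtain ⟨ξ, hξ, e⟩ := exists_hasDerivAt_eq_slope f (fun t => ν t • f1 t) ht.2
      (fun x _ => (h x).continuousAt.continuousWithinAt) (fun x _ => h x)
    have h3 : f1 ξ < 0 := hs ⟨ht.1.trans hξ.1, hξ.2⟩
    have h4 : 0 < t₀ - t := sub_pos.2 ht.2
    rw [eq_div_iff h4.ne', z0, smul_eq_mul] at e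
    have h5 : ν ξ * f1 ξ * (t₀ - t) < 0 :=
      mul_neg_of_neg_of_pos (mul_neg_of_pos_of_neg (hν ξ) h3) h4
    linarith
  · have d0 := h t₀
    rw [z1, smul_zero] at d0
    have s0 := slope_left d0 z0
    have s1 := slope_left d1 z1
    have s2 := s0.div s1 (mul_pos (hν t₀) z2).ne'
    rw [zero_div] at s2
    refine s2.congr' ?_
    filter_upwards [self_mem_nhdsWithin] with t ht
    have ht' : t - t₀ ≠ 0 := (sub_neg.2 ht).ne
    show f t / (t - t₀) / (f1 t / (t - t₀)) = _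
    rw [div_div_div_cancel_right₀ ht']

end Pool.Agent.W5h10.TL
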