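import Pool.Agent.W5h10.TL.Rigid
import Pool.Agent.W5h10.TL.Left

/-!
# The two quadratic forms
-/

set_option autoImplicit false

open Filter Topology PowerSeries
open scoped ContDiff

namespace Pool.Agent.W5h10.TL

open Pool.Agent.W5h70.PG (HD Dm Dm_smooth Dm_hd Dm_per det3 cramer f0 f1 f2 zero_of_periodic
  periodic_extrema)

namespace Frm

variable {μ : ℝ → ℝ} {v0 v1 v2 : ℝ → Fin 3 → ℝ} {b c G : ℝ → ℝ}

/-- the constant of the second form is positive at a maximum of `b` -/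
theorem k_pos (H : Frm μ v0 v1 v2 b c) {L : ℝ} (hL : 0 < L) (pμ : ∀ t, μ (t + L) = μ t)
    (p1 : ∀ t, v1 (t + L) = v1 t) (pb : ∀ t, b (t + L) = b t)
    (hc : ∀ t, c t = 1 / 2 * Dm μ b t)
    (hb : ∀ t, Dm μ (Dm μ (Dm μ b)) t = 4 * b t * Dm μ b t) :
    ∃ t₀, Dm μ b t₀ = 0 ∧ 0 < b t₀ ^ 2 / 4 - Dm μ (Dm μ b) t₀ / 6 := by
  have hν : ∀ t, 0 < (μ t)⁻¹ := fun t => inv_pos.2 (H.μ_pos t)
  have sD : ∀ {f : ℝ → ℝ}, ContDiff ℝ ∞ f → ContDiff ℝ ∞ (Dm μ f) := fun hf => Dm_smooth H.sμ hf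
  have dp : ∀ {f : ℝ → ℝ}, (∀ t, f (t + L) = f t) → ∀ t, Dm μ f (t + L) = Dm μ f t :=
    fun hf t => Dm_per pμ hf t
  obtain ⟨⟨t₀, ht₀⟩, -⟩ := periodic_extrema H.sb.continuous hL pb
  have d1 : Dm μ b t₀ = 0 := by
    have h1 : IsLocalMax b t₀ := Filter.Eventually.of_forall ht₀
    have h2 := h1.hasDerivAt_eq_zero (H.hd H.sb t₀)
    rw [smul_eq_mul] at h2
    exact (mul_eq_zero.1 h2).resolve_left (hν t₀).ne'
  have d2 : Dm μ (Dm μ b) t₀ ≤ 0 := by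
    by_contra hcon
    push Not at hcon
    have h0 : HD (fun t => (μ t)⁻¹) (fun t => b t - b t₀) (Dm μ b) := fun t =>
      ((H.hd H.sb) t).sub_const _
    obtain ⟨h1, -⟩ := near_left hν h0 (H.hd (sD H.sb)) (sub_self _) d1 hcon
    obtain ⟨t, ht⟩ := h1.exists
    linarith [ht₀ t, ht.2]
  refine ⟨t₀, d1, ?_⟩
  by_contra hcon
  push Not at hcon
  have z0 : b t₀ = 0 := by
    have : b t₀ ^ 2 = 0 := by nlinarith [sq_nonneg (b t₀)]
    exact (pow_eq_zero_iff two_ne_zero).1 this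
  have z2 : Dm μ (Dm μ b) t₀ = 0 := by
    rw [z0] at hcon
    linarith
  have z3 : Dm μ (Dm μ (Dm μ b)) t₀ = 0 := by rw [hb, z0]; ring
  have cb : Continuous b := H.sb.continuous
  have cb1 : Continuous (Dm μ b) := (sD H.sb).continuous
  have h4 : ∀ t, Dm μ (Dm μ (Dm μ (Dm μ b))) t =
      0 * b t + (4 * Dm μ b t) * Dm μ b t + (4 * b t) * Dm μ (Dm μ b) t := by
    have e1 : HD (fun t => (μ t)⁻¹) (Dm μ (Dm μ (Dm μ b))) (fun t =>
        (4 : ℝ) • (Dm μ b t * Dm μ b t + b t * Dm μ (Dm μ b) t)) :=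
      (((H.hd H.sb).mul (H.hd (sD H.sb))).const_smul (4 : ℝ)).congr
        (fun t => by rw [hb, smul_eq_mul]; ring) (fun _ => rfl)
    intro t
    have e2 := (H.hd (sD (sD (sD H.sb)))).unique (fun t => (hν t).ne') e1 t
    rw [e2, smul_eq_mul]
    ring
  obtain ⟨⟨t₁, ht₁⟩, -⟩ := periodic_extrema (e := fun t => (μ t)⁻¹ * (3 + |(0 : ℝ)| +
    |4 * Dm μ b t| + |4 * b t|)) (by
      refine (H.sμ.continuous.inv₀ H.μ_ne).mul ?_
      fun_prop) hL (fun t => by simp only [pμ, dp pb, pb])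
  have bz : ∀ t, b t = 0 := lin4 hν (H.hd H.sb) (H.hd (sD H.sb)) (H.hd (sD (sD H.sb)))
    ((H.hd (sD (sD (sD H.sb)))).congr (fun _ => rfl) h4) ht₁ z0 d1 z2 z3
  have bz1 : ∀ t, Dm μ b t = 0 := by
    intro t
    have e1 : HD (fun t => (μ t)⁻¹) b (fun _ => (0 : ℝ)) := fun t => by
      rw [show b = fun _ => 0 from funext bz, smul_zero]
      exact hasDerivAt_const t 0
    exact (H.hd H.sb).unique (fun t => (hν t).ne') e1 t
  set φ := f2 (v0 0) (v1 0) with hφ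
  have e1 : φ (v2 0) = 1 := H.det 0
  have e2 : ∀ t, φ (v2 t) = 1 := by
    intro t
    rw [← e1]
    exact (H.l2 φ).const_of_zero (fun t => by rw [bz, hc, bz1]; ring) t 0
  have := zero_of_periodic hν (lin_hd φ H.d1) (fun t => by rw [e2]; norm_num) hL
    (fun t => by rw [p1]) 0
  rw [e2] at this
  norm_num at this

/-- the two forms -/
theorem forms (H : Frm μ v0 v1 v2 b c) {L : ℝ} (hL : 0 < L) (pμ : ∀ t, μ (t + L) = μ t)
    (p1 : ∀ t, v1 (t + L) = v1 t) (pb : ∀ t, b (t + L) = b t) (sG : ContDiff ℝ ∞ G)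
    (hc : ∀ t, c t = 1 / 2 * Dm μ b t)
    (hb : ∀ t, Dm μ (Dm μ (Dm μ b)) t = 4 * b t * Dm μ b t)
    (hG : ∀ t, Dm μ G t = -(1 / 3) * Dm μ b t) :
    ∃ x y l : (Fin 3 → ℝ) →ₗ[ℝ] ℝ, LinearIndependent ℝ ![x, y, l] ∧ ∃ a₁ b₁ c₁ : ℝ,
      ∀ t α β : ℝ, x (α • v0 t + β • v1 t) ^ 2 + y (α • v0 t + β • v1 t) ^ 2 -
        l (α • v0 t + β • v1 t) ^ 2 = β ^ 2 ∧
        a₁ * x (α • v0 t + β • v1 t) ^ 2 + b₁ * y (α • v0 t + β • v1 t) ^ 2 +
        c₁ * l (α • v0 t + β • v1 t) ^ 2 = α ^ 2 + G t * β ^ 2 := by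
  obtain ⟨t₀, hd1, hk⟩ := H.k_pos hL pμ p1 pb hc hb
  have hν : ∀ t, (μ t)⁻¹ ≠ 0 := fun t => inv_ne_zero (H.μ_ne t)
  have sD : ∀ {f : ℝ → ℝ}, ContDiff ℝ ∞ f → ContDiff ℝ ∞ (Dm μ f) := fun hf => Dm_smooth H.sμ hf
  -- derivatives of the coordinates of a fixed vector
  have coord : ∀ X : Fin 3 → ℝ,
      HD (fun t => (μ t)⁻¹) (fun s => det3 X (v1 s) (v2 s)) (fun s => -c s * det3 (v0 s) (v1 s) X) ∧
      HD (fun t => (μ t)⁻¹) (fun s => det3 (v0 s) X (v2 s))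
        (fun s => -det3 X (v1 s) (v2 s) - b s * det3 (v0 s) (v1 s) X) ∧
      HD (fun t => (μ t)⁻¹) (fun s => det3 (v0 s) (v1 s) X) (fun s => -det3 (v0 s) X (v2 s)) := by
    intro X
    have dX : HD (fun t => (μ t)⁻¹) (fun _ => X) (fun _ => 0) := fun s => by
      rw [smul_zero]; exact hasDerivAt_const s _
    refine ⟨(Pool.Agent.W5h70.PG.HD.det dX H.d1 H.d2).congr (fun _ => rfl) (fun s => ?_),
      (Pool.Agent.W5h70.PG.HD.det H.d0 dX H.d2).congr (fun _ => rfl) (fun s => ?_),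
      (Pool.Agent.W5h70.PG.HD.det H.d0 H.d1 dX).congr (fun _ => rfl) (fun s => ?_)⟩
    · simp only [det3, Pi.zero_apply, Pi.add_apply, Pi.smul_apply, smul_eq_mul]
      ring
    · simp only [det3, Pi.zero_apply, Pi.add_apply, Pi.smul_apply, smul_eq_mul]
      ring
    · simp only [det3, Pi.zero_apply]
      ring
  have h1 := H.hd H.sb
  have h2 := H.hd (sD H.sb)
  have h3 := H.hd (sD (sD H.sb))
  have h4 := H.hd sG
  have Qc : ∀ (X : Fin 3 → ℝ) (s t : ℝ),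
      det3 (v0 s) X (v2 s) * det3 (v0 s) X (v2 s) - ((2 : ℝ) • (det3 X (v1 s) (v2 s) *
        det3 (v0 s) (v1 s) X) + b s * (det3 (v0 s) (v1 s) X * det3 (v0 s) (v1 s) X)) =
      det3 (v0 t) X (v2 t) * det3 (v0 t) X (v2 t) - ((2 : ℝ) • (det3 X (v1 t) (v2 t) *
        det3 (v0 t) (v1 t) X) + b t * (det3 (v0 t) (v1 t) X * det3 (v0 t) (v1 t) X)) := by
    intro X s t
    obtain ⟨dα, dβ, dγ⟩ := coord X
    exact ((dβ.mul dβ).sub (((dα.mul dγ).const_smul (2 : ℝ)).add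
      (h1.mul (dγ.mul dγ)))).const_of_zero (fun u => by
        simp only [smul_eq_mul, hc]; ring) s t
  have Mc : ∀ (X : Fin 3 → ℝ) (s t : ℝ),
      det3 X (v1 s) (v2 s) * det3 X (v1 s) (v2 s) + G s * (det3 (v0 s) X (v2 s) *
        det3 (v0 s) X (v2 s)) - ((2 : ℝ) • (G s * (det3 X (v1 s) (v2 s) * det3 (v0 s) (v1 s) X)) +
        (1 / 3 : ℝ) • (Dm μ b s * (det3 (v0 s) X (v2 s) * det3 (v0 s) (v1 s) X)) +
        ((1 / 6 : ℝ) • Dm μ (Dm μ b) s + b s * G s) * (det3 (v0 s) (v1 s) X *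
        det3 (v0 s) (v1 s) X)) =
      det3 X (v1 t) (v2 t) * det3 X (v1 t) (v2 t) + G t * (det3 (v0 t) X (v2 t) *
        det3 (v0 t) X (v2 t)) - ((2 : ℝ) • (G t * (det3 X (v1 t) (v2 t) * det3 (v0 t) (v1 t) X)) +
        (1 / 3 : ℝ) • (Dm μ b t * (det3 (v0 t) X (v2 t) * det3 (v0 t) (v1 t) X)) +
        ((1 / 6 : ℝ) • Dm μ (Dm μ b) t + b t * G t) * (det3 (v0 t) (v1 t) X *
        det3 (v0 t) (v1 t) X)) := by
    intro X s t
    obtain ⟨dα, dβ, dγ⟩ := coord X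
    exact (((dα.mul dα).add (h4.mul (dβ.mul dβ))).sub
      ((((h4.mul (dα.mul dγ)).const_smul (2 : ℝ)).add
        ((h2.mul (dβ.mul dγ)).const_smul (1 / 3 : ℝ))).add
        (((h3.const_smul (1 / 6 : ℝ)).add (h1.mul h4)).mul (dγ.mul dγ)))).const_of_zero
        (fun u => by
          simp only [smul_eq_mul, hc, hG, hb]; ring) s t
  obtain ⟨k, hkdef⟩ : ∃ k, k = b t₀ ^ 2 / 4 - Dm μ (Dm μ b) t₀ / 6 := ⟨_, rfl⟩
  rw [← hkdef] at hk
  obtain ⟨r, hr⟩ : ∃ r, r = √(4 * k) := ⟨_, rfl⟩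
  have r0 : 0 < r := by rw [hr]; exact Real.sqrt_pos.2 (by positivity)
  have rr : r * r = 4 * k := by rw [hr]; exact Real.mul_self_sqrt (by positivity)
  obtain ⟨s, hs⟩ : ∃ s, s = √r := ⟨_, rfl⟩
  have s0 : 0 < s := by rw [hs]; exact Real.sqrt_pos.2 r0
  have ss : s * s = r := by rw [hs]; exact Real.mul_self_sqrt r0.le
  set A := f0 (v1 t₀) (v2 t₀) with hA
  set B := f1 (v0 t₀) (v2 t₀) with hB
  set C' := f2 (v0 t₀) (v1 t₀) with hC
  have av : ∀ X, A X = det3 X (v1 t₀) (v2 t₀) := fun _ => rfl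
  have bv : ∀ X, B X = det3 (v0 t₀) X (v2 t₀) := fun _ => rfl
  have cv : ∀ X, C' X = det3 (v0 t₀) (v1 t₀) X := fun _ => rfl
  have d00 : A (v0 t₀) = 1 := H.det t₀
  have d01 : A (v1 t₀) = 0 := by rw [av]; unfold det3; ring
  have d02 : A (v2 t₀) = 0 := by rw [av]; unfold det3; ring
  have d10 : B (v0 t₀) = 0 := by rw [bv]; unfold det3; ring
  have d11 : B (v1 t₀) = 1 := H.det t₀
  have d12 : B (v2 t₀) = 0 := by rw [bv]; unfold det3; ring
  have d20 : C' (v0 t₀) = 0 := by rw [cv]; unfold det3; ring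
  have d21 : C' (v1 t₀) = 0 := by rw [cv]; unfold det3; ring
  have d22 : C' (v2 t₀) = 1 := H.det t₀
  -- `ξ = s C'`, `η = s⁻¹ (2 A + b C')`
  refine ⟨B, (1 / 2 : ℝ) • (s⁻¹ • ((2 : ℝ) • A + b t₀ • C') - s • C'),
    (1 / 2 : ℝ) • (s⁻¹ • ((2 : ℝ) • A + b t₀ • C') + s • C'), ?_, G t₀, r / 2 + b t₀ / 2 + G t₀,
    r / 2 - b t₀ / 2 - G t₀, ?_⟩
  · rw [Fintype.linearIndependent_iff]
    intro g hg
    rw [Fin.sum_univ_three] at hg
    simp only [Matrix.cons_val_zero, Matrix.cons_val_one, Matrix.cons_val] at hg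
    have q0 := LinearMap.congr_fun hg (v0 t₀)
    have q1 := LinearMap.congr_fun hg (v1 t₀)
    have q2 := LinearMap.congr_fun hg (v2 t₀)
    simp only [LinearMap.add_apply, LinearMap.smul_apply, LinearMap.sub_apply, smul_eq_mul,
      LinearMap.zero_apply, d00, d01, d02, d10, d11, d12, d20, d21, d22, mul_zero, mul_one,
      sub_zero, zero_sub, add_zero, zero_add] at q0 q1 q2
    have hs' := s0.ne'
    have r1 : g 1 + g 2 = 0 := by
      field_simp at q0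
      linarith
    have r2 : g 2 - g 1 = 0 := by
      have : (g 2 - g 1) * s ^ 2 = 0 := by
        field_simp at q2
        linear_combination q2 - b t₀ * r1
      exact (mul_eq_zero.1 this).resolve_right (pow_ne_zero 2 hs')
    intro i
    fin_cases i
    · exact q1
    · show g 1 = 0
      linarith
    · show g 2 = 0
      linarith
  · intro t α β
    obtain ⟨X, hX⟩ : ∃ X, X = α • v0 t + β • v1 t := ⟨_, rfl⟩
    rw [← hX]
    have hdt := H.det t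
    have w0 : det3 X (v1 t) (v2 t) = α := by
      rw [hX]
      have : det3 (α • v0 t + β • v1 t) (v1 t) (v2 t) = α * det3 (v0 t) (v1 t) (v2 t) := by
        simp only [det3, Pi.add_apply, Pi.smul_apply, smul_eq_mul]; ring
      rw [this, hdt, mul_one]
    have w1 : det3 (v0 t) X (v2 t) = β := by
      rw [hX]
      have : det3 (v0 t) (α • v0 t + β • v1 t) (v2 t) = β * det3 (v0 t) (v1 t) (v2 t) := by
        simp only [det3, Pi.add_apply, Pi.smul_apply, smul_eq_mul]; ring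
      rw [this, hdt, mul_one]
    have w2 : det3 (v0 t) (v1 t) X = 0 := by
      rw [hX]
      simp only [det3, Pi.add_apply, Pi.smul_apply, smul_eq_mul]; ring
    have Q := Qc X t₀ t
    have M := Mc X t₀ t
    rw [w0, w1, w2] at Q M
    rw [hd1] at M
    simp only [LinearMap.add_apply, LinearMap.smul_apply, LinearMap.sub_apply, smul_eq_mul]
    rw [← av, ← bv, ← cv, smul_eq_mul] at Q
    rw [← av, ← bv, ← cv] at M
    simp only [smul_eq_mul] at M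
    have hi : s⁻¹ * s = 1 := inv_mul_cancel₀ s0.ne'
    have hi2 : s⁻¹ * s⁻¹ * r = 1 := by rw [← ss]; linear_combination (s⁻¹ * s + 1) * hi
    constructor
    · linear_combination Q + (-(2 * A X + b t₀ * C' X) * C' X) * hi
    · have hk' : Dm μ (Dm μ b) t₀ = 6 * (b t₀ ^ 2 / 4 - r * r / 4) := by
        rw [rr, hkdef]; ring
      rw [hk'] at M
      linear_combination M + (1 / 4) * (2 * A X + b t₀ * C' X) ^ 2 * hi2 + (1 / 4) * r * (C' X) ^ 2 * ss -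
        (b t₀ / 2 + G t₀) * (2 * A X + b t₀ * C' X) * C' X * hi

end Frm

end Pool.Agent.W5h10.TL
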