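import Pool.Agent.W5h10.TL.CoefA

/-!
# The equations of weight at most four
-/

set_option autoImplicit false
set_option linter.unusedSimpArgs false

open PowerSeries

namespace Pool.Agent.W5h10.TL

theorem eqA0 {B J Z W V E G : ℝ⟦X⟧} (h : Sys B J Z W V) {k : ℝ} (G0 : coeff 0 G = 0)
    (hE : (V * Z - C k * (Z * W)) * (V * Z - C k * (Z * W)) -
      (d⁄dX ℝ Z * W - E * (Z * W)) * (d⁄dX ℝ Z * W - E * (Z * W)) = G * (Z * W * (Z * W))) :
    k = coeff 0 E ∧ coeff 1 E = 0 := by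
  obtain ⟨b0, B0⟩ : ∃ x, coeff 0 B = x := ⟨_, rfl⟩
  obtain ⟨b1, B1⟩ : ∃ x, coeff 1 B = x := ⟨_, rfl⟩
  obtain ⟨b2, B2⟩ : ∃ x, coeff 2 B = (1 / 2) * x := ⟨2 * coeff 2 B, by ring⟩
  obtain ⟨J0, J0'⟩ : ∃ x, coeff 0 J = x := ⟨_, rfl⟩
  obtain ⟨J1, J1'⟩ : ∃ x, coeff 1 J = x := ⟨_, rfl⟩
  obtain ⟨n0, n1, n2, n3, n4, n5, n6, n7, q0, q1, q2, q3, q4, u0, u1, u2, u3, u4, u5⟩ :=
    coefsA h B0 B1 B2 J0' J1'
  have hE' : ((V * Z - d⁄dX ℝ Z * W) + (E - C k) * (Z * W)) *
      ((V * Z + d⁄dX ℝ Z * W) - (E + C k) * (Z * W)) = G * (Z * W * (Z * W)) := by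
    rw [← hE]; ring
  generalize V * Z - d⁄dX ℝ Z * W = N at *
  generalize V * Z + d⁄dX ℝ Z * W = Q at *
  generalize Z * W = U at *
  obtain ⟨e0, E0⟩ : ∃ x, coeff 0 E = x := ⟨_, rfl⟩
  obtain ⟨e1, E1⟩ : ∃ x, coeff 1 E = x := ⟨_, rfl⟩
  have r0 : coeff 0 (N + (E - C k) * U) = 0 := by
    simp only [map_add, mulc, Finset.sum_range_succ, Finset.sum_range_zero, Nat.reduceAdd,
      Nat.reduceSub, Nat.sub_self, zero_add, n0, u0, mul_zero, add_zero]
  have r1 : coeff 1 (N + (E - C k) * U) = 0 := by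
    simp only [map_add, mulc, Finset.sum_range_succ, Finset.sum_range_zero, Nat.reduceAdd,
      Nat.reduceSub, Nat.sub_zero, Nat.sub_self, zero_add, n1, u0, u1, mul_zero, add_zero]
  have r2 : coeff 2 (N + (E - C k) * U) = 0 := by
    simp only [map_add, mulc, Finset.sum_range_succ, Finset.sum_range_zero, Nat.reduceAdd,
      Nat.reduceSub, Nat.sub_zero, Nat.sub_self, zero_add, n2, u0, u1, u2, mul_zero, add_zero]
  have r3 : coeff 3 (N + (E - C k) * U) = 0 := by
    simp only [map_add, mulc, Finset.sum_range_succ, Finset.sum_range_zero, Nat.reduceAdd,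
      Nat.reduceSub, Nat.sub_zero, Nat.sub_self, zero_add, n3, u0, u1, u2, u3, mul_zero, add_zero]
  have r4 : coeff 4 (N + (E - C k) * U) = (e0 - k) / 4 := by
    simp only [map_add, map_sub, mulc, Finset.sum_range_succ, Finset.sum_range_zero, Nat.reduceAdd,
      Nat.reduceSub, Nat.sub_zero, Nat.sub_self, zero_add, n4, u0, u1, u2, u3, u4, mul_zero,
      add_zero, E0, coeff_zero_C]
    ring
  have r5 : coeff 5 (N + (E - C k) * U) = e1 / 4 := by
    simp only [map_add, map_sub, mulc, Finset.sum_range_succ, Finset.sum_range_zero, Nat.reduceAdd,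
      Nat.reduceSub, Nat.sub_zero, Nat.sub_self, zero_add, n5, u0, u1, u2, u3, u4, u5, mul_zero,
      add_zero, E0, E1, coeff_zero_C]
    rw [coeff_C]
    norm_num
    ring
  have t0 : coeff 0 (Q - (E + C k) * U) = 0 := by
    simp only [map_sub, mulc, Finset.sum_range_succ, Finset.sum_range_zero, Nat.reduceAdd,
      Nat.reduceSub, Nat.sub_self, zero_add, q0, u0, mul_zero, add_zero, sub_zero]
  have t1 : coeff 1 (Q - (E + C k) * U) = 0 := by
    simp only [map_sub, mulc, Finset.sum_range_succ, Finset.sum_range_zero, Nat.reduceAdd,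
      Nat.reduceSub, Nat.sub_zero, Nat.sub_self, zero_add, q1, u0, u1, mul_zero, add_zero, sub_zero]
  have t2 : coeff 2 (Q - (E + C k) * U) = 0 := by
    simp only [map_sub, mulc, Finset.sum_range_succ, Finset.sum_range_zero, Nat.reduceAdd,
      Nat.reduceSub, Nat.sub_zero, Nat.sub_self, zero_add, q2, u0, u1, u2, mul_zero, add_zero,
      sub_zero]
  have t3 : coeff 3 (Q - (E + C k) * U) = 1 := by
    simp only [map_sub, mulc, Finset.sum_range_succ, Finset.sum_range_zero, Nat.reduceAdd,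
      Nat.reduceSub, Nat.sub_zero, Nat.sub_self, zero_add, q3, u0, u1, u2, u3, mul_zero, add_zero,
      sub_zero]
  generalize N + (E - C k) * U = R at *
  generalize Q - (E + C k) * U = T at *
  have m : ∀ n, n < 8 → coeff n (U * U) = 0 := by
    intro n hn
    rw [mulc]
    refine Finset.sum_eq_zero fun i hi => ?_
    rw [Finset.mem_range] at hi
    have : i < 4 ∨ n - i < 4 := by omega
    rcases this with h1 | h1
    · interval_cases i <;> simp only [u0, u1, u2, u3, zero_mul]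
    · generalize n - i = j at *
      interval_cases j <;> simp only [u0, u1, u2, u3, mul_zero]
  have m7 := m 7 (by norm_num)
  have m6 := m 6 (by norm_num)
  have m5 := m 5 (by norm_num)
  have m4 := m 4 (by norm_num)
  have m3 := m 3 (by norm_num)
  have m2 := m 2 (by norm_num)
  have m1 := m 1 (by norm_num)
  have m0 := m 0 (by norm_num)
  generalize U * U = M at *
  have e := congrArg (coeff 7) hE'
  simp only [mulc, Finset.sum_range_succ, Finset.sum_range_zero, Nat.reduceAdd, Nat.reduceSub,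
    Nat.sub_zero, Nat.sub_self, zero_add, r0, r1, r2, r3, r4, t0, t1, t2, t3, m0, m1, m2, m3, m4,
    m5, m6, m7, zero_mul, mul_zero, add_zero] at e
  have hk : k = e0 := by linarith
  have e' := congrArg (coeff 8) hE'
  simp only [mulc, Finset.sum_range_succ, Finset.sum_range_zero, Nat.reduceAdd, Nat.reduceSub,
    Nat.sub_zero, Nat.sub_self, zero_add, r0, r1, r2, r3, r4, r5, t0, t1, t2, t3, m0, m1, m2, m3,
    m4, m5, m6, m7, G0, zero_mul, mul_zero, add_zero] at e'
  rw [hk, sub_self, zero_div, zero_mul] at e'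
  rw [E0, E1]
  exact ⟨hk, by linarith⟩

theorem eqA1 {B J Z W V G : ℝ⟦X⟧} (h : Sys B J Z W V) {β : ℝ} (G0 : coeff 0 G = 0)
    (hE : (V * Z - C β * (Z * W)) * (V * Z - C β * (Z * W)) -
      (d⁄dX ℝ Z * W - C β * (Z * W)) * (d⁄dX ℝ Z * W - C β * (Z * W)) =
      G * (Z * W * (Z * W))) :
    coeff 1 G = -(1 / 3) * coeff 1 B - 2 / 5 * coeff 0 J ∧
      2 * coeff 2 G = -(1 / 3) * (2 * coeff 2 B) - 2 / 5 * coeff 1 J - β * coeff 1 G := by
  obtain ⟨b0, B0⟩ : ∃ x, coeff 0 B = x := ⟨_, rfl⟩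
  obtain ⟨b1, B1⟩ : ∃ x, coeff 1 B = x := ⟨_, rfl⟩
  obtain ⟨b2, B2⟩ : ∃ x, coeff 2 B = (1 / 2) * x := ⟨2 * coeff 2 B, by ring⟩
  obtain ⟨J0, J0'⟩ : ∃ x, coeff 0 J = x := ⟨_, rfl⟩
  obtain ⟨J1, J1'⟩ : ∃ x, coeff 1 J = x := ⟨_, rfl⟩
  obtain ⟨n0, n1, n2, n3, n4, n5, n6, n7, q0, q1, q2, q3, q4, u0, u1, u2, u3, u4, u5⟩ :=
    coefsA h B0 B1 B2 J0' J1'
  have hE' : (V * Z - d⁄dX ℝ Z * W) *
      ((V * Z + d⁄dX ℝ Z * W) - C (2 * β) * (Z * W)) = G * (Z * W * (Z * W)) := by
    rw [← hE]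
    have : (C (2 * β) : ℝ⟦X⟧) = C β + C β := by rw [← map_add]; congr 1; ring
    rw [this]
    ring
  generalize V * Z - d⁄dX ℝ Z * W = N at *
  generalize V * Z + d⁄dX ℝ Z * W = Q at *
  generalize Z * W = U at *
  have t0 : coeff 0 (Q - C (2 * β) * U) = 0 := by
    rw [map_sub, coeff_C_mul, q0, u0]; ring
  have t1 : coeff 1 (Q - C (2 * β) * U) = 0 := by
    rw [map_sub, coeff_C_mul, q1, u1]; ring
  have t2 : coeff 2 (Q - C (2 * β) * U) = 0 := by
    rw [map_sub, coeff_C_mul, q2, u2]; ring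
  have t3 : coeff 3 (Q - C (2 * β) * U) = 1 := by
    rw [map_sub, coeff_C_mul, q3, u3]; ring
  have t4 : coeff 4 (Q - C (2 * β) * U) = -(β / 2) := by
    rw [map_sub, coeff_C_mul, q4, u4]; ring
  generalize Q - C (2 * β) * U = T at *
  have m : ∀ n, n < 8 → coeff n (U * U) = 0 := by
    intro n hn
    rw [mulc]
    refine Finset.sum_eq_zero fun i hi => ?_
    rw [Finset.mem_range] at hi
    have : i < 4 ∨ n - i < 4 := by omega
    rcases this with h1 | h1
    · interval_cases i <;> simp only [u0, u1, u2, u3, zero_mul]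
    · generalize n - i = j at *
      interval_cases j <;> simp only [u0, u1, u2, u3, mul_zero]
  have m8 : coeff 8 (U * U) = 1 / 16 := by
    simp only [mulc, Finset.sum_range_succ, Finset.sum_range_zero, Nat.reduceAdd, Nat.reduceSub,
      Nat.sub_zero, Nat.sub_self, zero_add, u0, u1, u2, u3, u4, zero_mul, mul_zero, add_zero]
    norm_num
  have m9 : coeff 9 (U * U) = 0 := by
    simp only [mulc, Finset.sum_range_succ, Finset.sum_range_zero, Nat.reduceAdd, Nat.reduceSub,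
      Nat.sub_zero, Nat.sub_self, zero_add, u0, u1, u2, u3, u4, u5, zero_mul, mul_zero, add_zero]
  have m7 := m 7 (by norm_num)
  have m6 := m 6 (by norm_num)
  have m5 := m 5 (by norm_num)
  have m4 := m 4 (by norm_num)
  have m3 := m 3 (by norm_num)
  have m2 := m 2 (by norm_num)
  have m1 := m 1 (by norm_num)
  have m0 := m 0 (by norm_num)
  generalize U * U = M at *
  obtain ⟨g1, G1⟩ : ∃ x, coeff 1 G = x := ⟨_, rfl⟩
  obtain ⟨g2, G2⟩ : ∃ x, coeff 2 G = x := ⟨_, rfl⟩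
  have e := congrArg (coeff 9) hE'
  simp only [mulc, Finset.sum_range_succ, Finset.sum_range_zero, Nat.reduceAdd, Nat.reduceSub,
    Nat.sub_zero, Nat.sub_self, zero_add, n0, n1, n2, n3, n4, n5, n6, t0, t1, t2, t3, m0, m1, m2,
    m3, m4, m5, m6, m7, m8, G0, G1, zero_mul, mul_zero, add_zero] at e
  have e' := congrArg (coeff 10) hE'
  simp only [mulc, Finset.sum_range_succ, Finset.sum_range_zero, Nat.reduceAdd, Nat.reduceSub,
    Nat.sub_zero, Nat.sub_self, zero_add, n0, n1, n2, n3, n4, n5, n6, n7, t0, t1, t2, t3, t4, m0,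
    m1, m2, m3, m4, m5, m6, m7, m8, m9, G0, G1, G2, zero_mul, mul_zero, add_zero] at e'
  rw [G1, G2, B1, B2, J0', J1']
  constructor
  · linear_combination (-16) * e
  · linear_combination (-32) * e' - 16 * β * e

end Pool.Agent.W5h10.TL
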