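import Pool.Agent.W5h10.TL.Sys

/-!
# The zeros of the cubic form `J`
-/

set_option autoImplicit false
set_option linter.unusedSimpArgs false

open PowerSeries

namespace Pool.Agent.W5h10.TL

/-- the formal equations satisfied by `B` and `J` -/
structure Fml (B J : ℝ⟦X⟧) : Prop where
  hB : C (7 : ℝ) * d⁄dX ℝ (d⁄dX ℝ (d⁄dX ℝ B)) =
    C (28 : ℝ) * (B * d⁄dX ℝ B) + C (12 : ℝ) * (B * J) - C (6 : ℝ) * d⁄dX ℝ (d⁄dX ℝ J)
  hJ : d⁄dX ℝ (d⁄dX ℝ (d⁄dX ℝ (d⁄dX ℝ J))) = C (126 : ℝ) * (J * d⁄dX ℝ J) +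
    C (249 / 2 : ℝ) * (J * d⁄dX ℝ (d⁄dX ℝ B)) + C (155 / 2 : ℝ) * (d⁄dX ℝ J * d⁄dX ℝ B) +
    C (25 : ℝ) * (d⁄dX ℝ (d⁄dX ℝ J) * B) - C (144 : ℝ) * (J * (B * B))

/-- the formal equation of weight nine -/
def Phi (B J : ℝ⟦X⟧) : Prop :=
  C (30 : ℝ) * (J * d⁄dX ℝ (d⁄dX ℝ (d⁄dX ℝ J))) + C (40 : ℝ) * (d⁄dX ℝ J * d⁄dX ℝ (d⁄dX ℝ J)) -
    C (378 : ℝ) * (J * (J * J)) - C (795 : ℝ) * (d⁄dX ℝ B * (J * J)) -
    C (630 : ℝ) * (B * (J * d⁄dX ℝ J)) = 0

/-- a simple zero of `J`, first step -/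
theorem zc2 {B J : ℝ⟦X⟧} (h : Fml B J) (hP : Phi B J) {b0 b1 b2 g : ℝ}
    (B0 : coeff 0 B = b0)
    (B1 : coeff 1 B = b1)
    (B2 : coeff 2 B = (1/2)*b2)
    (J0 : coeff 0 J = 0)
    (J1 : coeff 1 J = g)
    (J2 : coeff 2 J = 0)
    (J3 : coeff 3 J = (3/2)*b0*g)
    : b1 * g ^ 2 = 0 := by
  unfold Phi at hP
  have J4 : coeff 4 J = (155/48)*b1*g := by
    have r := congrArg (coeff 0) h.hJ
    simp only [map_add, map_sub, coeff_C_mul, mulc, coeff_derivative, Finset.sum_range_succ, Finset.sum_range_zero, Nat.reduceAdd, Nat.reduceSub, zero_add, Nat.add_zero, Nat.sub_zero, Nat.sub_self, B0, B1, B2, J0, J1, J2, J3, zero_mul, mul_zero, add_zero] at r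
    push_cast at r
    linear_combination (1 / 24 : ℝ) * r
  have e2 := congrArg (coeff 2) hP
  simp only [map_add, map_sub, map_zero, coeff_C_mul, mulc, coeff_derivative, Finset.sum_range_succ, Finset.sum_range_zero, Nat.reduceAdd, Nat.reduceSub, zero_add, Nat.add_zero, Nat.sub_zero, Nat.sub_self, B0, B1, B2, J0, J1, J2, J3, J4, zero_mul, mul_zero, add_zero, sub_zero] at e2
  push_cast at e2
  linear_combination (1 / 2450 : ℝ) * e2

/-- a simple zero of `J`, second step -/
theorem zc3 {B J : ℝ⟦X⟧} (h : Fml B J) (hP : Phi B J) {b0 b2 g : ℝ}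
    (B0 : coeff 0 B = b0)
    (B1 : coeff 1 B = 0)
    (B2 : coeff 2 B = (1/2)*b2)
    (J0 : coeff 0 J = 0)
    (J1 : coeff 1 J = g)
    (J2 : coeff 2 J = 0)
    (J3 : coeff 3 J = (3/2)*b0*g)
    : (b2 + 18 / 25 * g) * g ^ 2 = 0 := by
  unfold Phi at hP
  have J4 : coeff 4 J = 0 := by
    have r := congrArg (coeff 0) h.hJ
    simp only [map_add, map_sub, coeff_C_mul, mulc, coeff_derivative, Finset.sum_range_succ, Finset.sum_range_zero, Nat.reduceAdd, Nat.reduceSub, zero_add, Nat.add_zero, Nat.sub_zero, Nat.sub_self, B0, B1, B2, J0, J1, J2, J3, zero_mul, mul_zero, add_zero] at r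
    push_cast at r
    linear_combination (1 / 24 : ℝ) * r
  have J5 : coeff 5 J = (27/40)*b0^2*g + (101/60)*b2*g + (21/20)*g^2 := by
    have r := congrArg (coeff 1) h.hJ
    simp only [map_add, map_sub, coeff_C_mul, mulc, coeff_derivative, Finset.sum_range_succ, Finset.sum_range_zero, Nat.reduceAdd, Nat.reduceSub, zero_add, Nat.add_zero, Nat.sub_zero, Nat.sub_self, B0, B1, B2, J0, J1, J2, J3, J4, zero_mul, mul_zero, add_zero] at r
    push_cast at r
    linear_combination (1 / 120 : ℝ) * r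
  have e3 := congrArg (coeff 3) hP
  simp only [map_add, map_sub, map_zero, coeff_C_mul, mulc, coeff_derivative, Finset.sum_range_succ, Finset.sum_range_zero, Nat.reduceAdd, Nat.reduceSub, zero_add, Nat.add_zero, Nat.sub_zero, Nat.sub_self, B0, B1, B2, J0, J1, J2, J3, J4, J5, zero_mul, mul_zero, add_zero, sub_zero] at e3
  push_cast at e3
  linear_combination (3 / 9800 : ℝ) * e3

/-- a simple zero of `J`, third step -/
theorem zc5 {B J : ℝ⟦X⟧} (h : Fml B J) (hP : Phi B J) {b0 g : ℝ}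
    (B0 : coeff 0 B = b0)
    (B1 : coeff 1 B = 0)
    (B2 : coeff 2 B = -(9/25)*g)
    (J0 : coeff 0 J = 0)
    (J1 : coeff 1 J = g)
    (J2 : coeff 2 J = 0)
    (J3 : coeff 3 J = (3/2)*b0*g)
    : b0 * g ^ 3 = 0 := by
  unfold Phi at hP
  have B3 : coeff 3 B = 0 := by
    have r := congrArg (coeff 0) h.hB
    simp only [map_add, map_sub, coeff_C_mul, mulc, coeff_derivative, Finset.sum_range_succ, Finset.sum_range_zero, Nat.reduceAdd, Nat.reduceSub, zero_add, Nat.add_zero, Nat.sub_zero, Nat.sub_self, B0, B1, B2, J0, J1, J2, J3, zero_mul, mul_zero, add_zero] at r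
    push_cast at r
    linear_combination (1 / 42 : ℝ) * r
  have J4 : coeff 4 J = 0 := by
    have r := congrArg (coeff 0) h.hJ
    simp only [map_add, map_sub, coeff_C_mul, mulc, coeff_derivative, Finset.sum_range_succ, Finset.sum_range_zero, Nat.reduceAdd, Nat.reduceSub, zero_add, Nat.add_zero, Nat.sub_zero, Nat.sub_self, B0, B1, B2, J0, J1, J2, J3, B3, zero_mul, mul_zero, add_zero] at r
    push_cast at r
    linear_combination (1 / 24 : ℝ) * r
  have B4 : coeff 4 B = -(37/100)*b0*g := by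
    have r := congrArg (coeff 1) h.hB
    simp only [map_add, map_sub, coeff_C_mul, mulc, coeff_derivative, Finset.sum_range_succ, Finset.sum_range_zero, Nat.reduceAdd, Nat.reduceSub, zero_add, Nat.add_zero, Nat.sub_zero, Nat.sub_self, B0, B1, B2, J0, J1, J2, J3, B3, J4, zero_mul, mul_zero, add_zero] at r
    push_cast at r
    linear_combination (1 / 168 : ℝ) * r
  have J5 : coeff 5 J = (27/40)*b0^2*g - (81/500)*g^2 := by
    have r := congrArg (coeff 1) h.hJ
    simp only [map_add, map_sub, coeff_C_mul, mulc, coeff_derivative, Finset.sum_range_succ, Finset.sum_range_zero, Nat.reduceAdd, Nat.reduceSub, zero_add, Nat.add_zero, Nat.sub_zero, Nat.sub_self, B0, B1, B2, J0, J1, J2, J3, B3, J4, B4, zero_mul, mul_zero, add_zero] at r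
    push_cast at r
    linear_combination (1 / 120 : ℝ) * r
  have B5 : coeff 5 B = 0 := by
    have r := congrArg (coeff 2) h.hB
    simp only [map_add, map_sub, coeff_C_mul, mulc, coeff_derivative, Finset.sum_range_succ, Finset.sum_range_zero, Nat.reduceAdd, Nat.reduceSub, zero_add, Nat.add_zero, Nat.sub_zero, Nat.sub_self, B0, B1, B2, J0, J1, J2, J3, B3, J4, B4, J5, zero_mul, mul_zero, add_zero] at r
    push_cast at r
    linear_combination (1 / 420 : ℝ) * r
  have J6 : coeff 6 J = 0 := by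
    have r := congrArg (coeff 2) h.hJ
    simp only [map_add, map_sub, coeff_C_mul, mulc, coeff_derivative, Finset.sum_range_succ, Finset.sum_range_zero, Nat.reduceAdd, Nat.reduceSub, zero_add, Nat.add_zero, Nat.sub_zero, Nat.sub_self, B0, B1, B2, J0, J1, J2, J3, B3, J4, B4, J5, B5, zero_mul, mul_zero, add_zero] at r
    push_cast at r
    linear_combination (1 / 360 : ℝ) * r
  have J7 : coeff 7 J = (81/560)*b0^3*g - (2221/5250)*b0*g^2 := by
    have r := congrArg (coeff 3) h.hJ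
    simp only [map_add, map_sub, coeff_C_mul, mulc, coeff_derivative, Finset.sum_range_succ, Finset.sum_range_zero, Nat.reduceAdd, Nat.reduceSub, zero_add, Nat.add_zero, Nat.sub_zero, Nat.sub_self, B0, B1, B2, J0, J1, J2, J3, B3, J4, B4, J5, B5, J6, zero_mul, mul_zero, add_zero] at r
    push_cast at r
    linear_combination (1 / 840 : ℝ) * r
  have e5 := congrArg (coeff 5) hP
  simp only [map_add, map_sub, map_zero, coeff_C_mul, mulc, coeff_derivative, Finset.sum_range_succ, Finset.sum_range_zero, Nat.reduceAdd, Nat.reduceSub, zero_add, Nat.add_zero, Nat.sub_zero, Nat.sub_self, B0, B1, B2, J0, J1, J2, J3, B3, J4, B4, J5, B5, J6, J7, zero_mul, mul_zero, add_zero, sub_zero] at e5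
  push_cast at e5
  linear_combination (-5 / 6664 : ℝ) * e5

/-- a simple zero of `J`, last step -/
theorem zc7 {B J : ℝ⟦X⟧} (h : Fml B J) (hP : Phi B J) {g : ℝ}
    (B0 : coeff 0 B = 0)
    (B1 : coeff 1 B = 0)
    (B2 : coeff 2 B = -(9/25)*g)
    (J0 : coeff 0 J = 0)
    (J1 : coeff 1 J = g)
    (J2 : coeff 2 J = 0)
    (J3 : coeff 3 J = 0)
    : g ^ 4 = 0 := by
  unfold Phi at hP
  have B3 : coeff 3 B = 0 := by
    have r := congrArg (coeff 0) h.hB
    simp only [map_add, map_sub, coeff_C_mul, mulc, coeff_derivative, Finset.sum_range_succ, Finset.sum_range_zero, Nat.reduceAdd, Nat.reduceSub, zero_add, Nat.add_zero, Nat.sub_zero, Nat.sub_self, B0, B1, B2, J0, J1, J2, J3, zero_mul, mul_zero, add_zero] at r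
    push_cast at r
    linear_combination (1 / 42 : ℝ) * r
  have J4 : coeff 4 J = 0 := by
    have r := congrArg (coeff 0) h.hJ
    simp only [map_add, map_sub, coeff_C_mul, mulc, coeff_derivative, Finset.sum_range_succ, Finset.sum_range_zero, Nat.reduceAdd, Nat.reduceSub, zero_add, Nat.add_zero, Nat.sub_zero, Nat.sub_self, B0, B1, B2, J0, J1, J2, J3, B3, zero_mul, mul_zero, add_zero] at r
    push_cast at r
    linear_combination (1 / 24 : ℝ) * r
  have B4 : coeff 4 B = 0 := by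
    have r := congrArg (coeff 1) h.hB
    simp only [map_add, map_sub, coeff_C_mul, mulc, coeff_derivative, Finset.sum_range_succ, Finset.sum_range_zero, Nat.reduceAdd, Nat.reduceSub, zero_add, Nat.add_zero, Nat.sub_zero, Nat.sub_self, B0, B1, B2, J0, J1, J2, J3, B3, J4, zero_mul, mul_zero, add_zero] at r
    push_cast at r
    linear_combination (1 / 168 : ℝ) * r
  have J5 : coeff 5 J = -(81/500)*g^2 := by
    have r := congrArg (coeff 1) h.hJ
    simp only [map_add, map_sub, coeff_C_mul, mulc, coeff_derivative, Finset.sum_range_succ, Finset.sum_range_zero, Nat.reduceAdd, Nat.reduceSub, zero_add, Nat.add_zero, Nat.sub_zero, Nat.sub_self, B0, B1, B2, J0, J1, J2, J3, B3, J4, B4, zero_mul, mul_zero, add_zero] at r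
    push_cast at r
    linear_combination (1 / 120 : ℝ) * r
  have B5 : coeff 5 B = 0 := by
    have r := congrArg (coeff 2) h.hB
    simp only [map_add, map_sub, coeff_C_mul, mulc, coeff_derivative, Finset.sum_range_succ, Finset.sum_range_zero, Nat.reduceAdd, Nat.reduceSub, zero_add, Nat.add_zero, Nat.sub_zero, Nat.sub_self, B0, B1, B2, J0, J1, J2, J3, B3, J4, B4, J5, zero_mul, mul_zero, add_zero] at r
    push_cast at r
    linear_combination (1 / 420 : ℝ) * r
  have J6 : coeff 6 J = 0 := by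
    have r := congrArg (coeff 2) h.hJ
    simp only [map_add, map_sub, coeff_C_mul, mulc, coeff_derivative, Finset.sum_range_succ, Finset.sum_range_zero, Nat.reduceAdd, Nat.reduceSub, zero_add, Nat.add_zero, Nat.sub_zero, Nat.sub_self, B0, B1, B2, J0, J1, J2, J3, B3, J4, B4, J5, B5, zero_mul, mul_zero, add_zero] at r
    push_cast at r
    linear_combination (1 / 360 : ℝ) * r
  have B6 : coeff 6 B = (333/12500)*g^2 := by
    have r := congrArg (coeff 3) h.hB
    simp only [map_add, map_sub, coeff_C_mul, mulc, coeff_derivative, Finset.sum_range_succ, Finset.sum_range_zero, Nat.reduceAdd, Nat.reduceSub, zero_add, Nat.add_zero, Nat.sub_zero, Nat.sub_self, B0, B1, B2, J0, J1, J2, J3, B3, J4, B4, J5, B5, J6, zero_mul, mul_zero, add_zero] at r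
    push_cast at r
    linear_combination (1 / 840 : ℝ) * r
  have J7 : coeff 7 J = 0 := by
    have r := congrArg (coeff 3) h.hJ
    simp only [map_add, map_sub, coeff_C_mul, mulc, coeff_derivative, Finset.sum_range_succ, Finset.sum_range_zero, Nat.reduceAdd, Nat.reduceSub, zero_add, Nat.add_zero, Nat.sub_zero, Nat.sub_self, B0, B1, B2, J0, J1, J2, J3, B3, J4, B4, J5, B5, J6, B6, zero_mul, mul_zero, add_zero] at r
    push_cast at r
    linear_combination (1 / 840 : ℝ) * r
  have J8 : coeff 8 J = 0 := by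
    have r := congrArg (coeff 4) h.hJ
    simp only [map_add, map_sub, coeff_C_mul, mulc, coeff_derivative, Finset.sum_range_succ, Finset.sum_range_zero, Nat.reduceAdd, Nat.reduceSub, zero_add, Nat.add_zero, Nat.sub_zero, Nat.sub_self, B0, B1, B2, J0, J1, J2, J3, B3, J4, B4, J5, B5, J6, B6, J7, zero_mul, mul_zero, add_zero] at r
    push_cast at r
    linear_combination (1 / 1680 : ℝ) * r
  have J9 : coeff 9 J = (493/25000)*g^3 := by
    have r := congrArg (coeff 5) h.hJ
    simp only [map_add, map_sub, coeff_C_mul, mulc, coeff_derivative, Finset.sum_range_succ, Finset.sum_range_zero, Nat.reduceAdd, Nat.reduceSub, zero_add, Nat.add_zero, Nat.sub_zero, Nat.sub_self, B0, B1, B2, J0, J1, J2, J3, B3, J4, B4, J5, B5, J6, B6, J7, J8, zero_mul, mul_zero, add_zero] at r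
    push_cast at r
    linear_combination (1 / 3024 : ℝ) * r
  have e7 := congrArg (coeff 7) hP
  simp only [map_add, map_sub, map_zero, coeff_C_mul, mulc, coeff_derivative, Finset.sum_range_succ, Finset.sum_range_zero, Nat.reduceAdd, Nat.reduceSub, zero_add, Nat.add_zero, Nat.sub_zero, Nat.sub_self, B0, B1, B2, J0, J1, J2, J3, B3, J4, B4, J5, B5, J6, B6, J7, J8, J9, zero_mul, mul_zero, add_zero, sub_zero] at e7
  push_cast at e7
  linear_combination (25 / 3528 : ℝ) * e7

theorem jzero {B J : ℝ⟦X⟧} (h : Fml B J) (hP : Phi B J) (J0 : coeff 0 J = 0) :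
    coeff 1 J = 0 ∧ coeff 2 J = 0 ∧ coeff 3 J = 0 := by
  obtain ⟨b0, B0⟩ : ∃ x, coeff 0 B = x := ⟨_, rfl⟩
  obtain ⟨b1, B1⟩ : ∃ x, coeff 1 B = x := ⟨_, rfl⟩
  obtain ⟨b2, B2⟩ : ∃ x, coeff 2 B = (1/2)*x := ⟨2 * coeff 2 B, by ring⟩
  obtain ⟨g, J1⟩ : ∃ x, coeff 1 J = x := ⟨_, rfl⟩
  obtain ⟨j2, J2⟩ : ∃ x, coeff 2 J = x := ⟨_, rfl⟩
  obtain ⟨j3, J3⟩ : ∃ x, coeff 3 J = x := ⟨_, rfl⟩
  have hP' := hP
  unfold Phi at hP
  have e0 := congrArg (coeff 0) hP
  simp only [map_add, map_sub, map_zero, coeff_C_mul, mulc, coeff_derivative, Finset.sum_range_succ, Finset.sum_range_zero, Nat.reduceAdd, Nat.reduceSub, zero_add, Nat.add_zero, Nat.sub_zero, Nat.sub_self, B0, B1, B2, J0, J1, J2, J3, zero_mul, mul_zero, add_zero, sub_zero] at e0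
  push_cast at e0
  have e1 := congrArg (coeff 1) hP
  simp only [map_add, map_sub, map_zero, coeff_C_mul, mulc, coeff_derivative, Finset.sum_range_succ, Finset.sum_range_zero, Nat.reduceAdd, Nat.reduceSub, zero_add, Nat.add_zero, Nat.sub_zero, Nat.sub_self, B0, B1, B2, J0, J1, J2, J3, zero_mul, mul_zero, add_zero, sub_zero] at e1
  push_cast at e1
  have f0 : g * j2 = 0 := by linear_combination (1 / 80 : ℝ) * e0
  have f1 : -630 * b0 * g ^ 2 + 420 * g * j3 + 160 * j2 ^ 2 = 0 := by linear_combination e1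
  rw [J1, J2, J3]
  by_cases hg : g = 0
  · have h2 : j2 = 0 := by
      rw [hg] at f1
      have : j2 ^ 2 = 0 := by linear_combination (1 / 160 : ℝ) * f1
      exact pow_eq_zero_iff (two_ne_zero) |>.1 this
    rw [hg] at J1
    rw [h2] at J2
    have e3 := congrArg (coeff 3) hP
    simp only [map_add, map_sub, map_zero, coeff_C_mul, mulc, coeff_derivative, Finset.sum_range_succ, Finset.sum_range_zero, Nat.reduceAdd, Nat.reduceSub, zero_add, Nat.add_zero, Nat.sub_zero, Nat.sub_self, B0, B1, B2, J0, J1, J2, J3, zero_mul, mul_zero, add_zero, sub_zero] at e3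
    push_cast at e3
    refine ⟨hg, h2, ?_⟩
    have : j3 ^ 2 = 0 := by linear_combination (1 / 900 : ℝ) * e3
    exact pow_eq_zero_iff (two_ne_zero) |>.1 this
  · exfalso
    have h2 : j2 = 0 := (mul_eq_zero.1 f0).resolve_left hg
    have h3 : j3 = (3/2)*b0*g := by
      rw [h2] at f1
      have : g * (j3 - (3/2)*b0*g) = 0 := by linear_combination (1 / 420 : ℝ) * f1
      exact sub_eq_zero.1 ((mul_eq_zero.1 this).resolve_left hg)
    rw [h2] at J2
    rw [h3] at J3
    have k1 := zc2 h hP' B0 B1 B2 J0 J1 J2 J3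
    have hb1 : b1 = 0 := (mul_eq_zero.1 k1).resolve_right (pow_ne_zero 2 hg)
    rw [hb1] at B1
    have k2 := zc3 h hP' B0 B1 B2 J0 J1 J2 J3
    have hb2 := (mul_eq_zero.1 k2).resolve_right (pow_ne_zero 2 hg)
    have B2' : coeff 2 B = -(9/25)*g := by rw [B2]; linear_combination (1 / 2 : ℝ) * hb2
    have k3 := zc5 h hP' B0 B1 B2' J0 J1 J2 J3
    have hb0 : b0 = 0 := (mul_eq_zero.1 k3).resolve_right (pow_ne_zero 3 hg)
    rw [hb0] at B0 J3
    rw [mul_zero, zero_mul] at J3
    have k4 := zc7 h hP' B0 B1 B2' J0 J1 J2 J3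
    exact hg (pow_eq_zero_iff (four_ne_zero) |>.1 k4)

end Pool.Agent.W5h10.TL
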