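import Pool.Agent.W5h10.TL.EqC
import Pool.Agent.W5h10.TL.EqD
import Pool.Agent.W5h10.TL.Zero

/-!
# The equations of weight 7 and 9, with the formal equations
-/

set_option autoImplicit false
set_option linter.unusedSimpArgs false

open PowerSeries

namespace Pool.Agent.W5h10.TL

theorem eqC' {B J Z W V G : ℝ⟦X⟧} (h : Sys B J Z W V)
    (hB : C (7 : ℝ) * d⁄dX ℝ (d⁄dX ℝ (d⁄dX ℝ B)) =
      C (28 : ℝ) * (B * d⁄dX ℝ B) + C (12 : ℝ) * (B * J) - C (6 : ℝ) * d⁄dX ℝ (d⁄dX ℝ J))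
    (G0 : coeff 0 G = 0)
    (hG : ∀ n : ℕ, ((n : ℝ) + 1) * coeff (n + 1) G =
      -(1 / 3) * (((n : ℝ) + 1) * coeff (n + 1) B) - 2 / 5 * coeff n J)
    (hE : (V * Z - d⁄dX ℝ Z * W) * (V * Z + d⁄dX ℝ Z * W) = G * (Z * W * (Z * W))) :
    24 * coeff 4 J = 126 * coeff 0 J * coeff 1 J + 249 / 2 * coeff 0 J * (2 * coeff 2 B) +
      155 / 2 * coeff 1 J * coeff 1 B + 25 * (2 * coeff 2 J) * coeff 0 B -
      144 * coeff 0 J * coeff 0 B ^ 2 := by
  obtain ⟨b0, B0⟩ : ∃ x, coeff 0 B = x := ⟨_, rfl⟩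
  obtain ⟨b1, B1⟩ : ∃ x, coeff 1 B = x := ⟨_, rfl⟩
  obtain ⟨b2, B2⟩ : ∃ x, coeff 2 B = (1/2)*x := ⟨2 * coeff 2 B, by ring⟩
  obtain ⟨J0, J0'⟩ : ∃ x, coeff 0 J = x := ⟨_, rfl⟩
  obtain ⟨J1, J1'⟩ : ∃ x, coeff 1 J = x := ⟨_, rfl⟩
  obtain ⟨J2, J2'⟩ : ∃ x, coeff 2 J = (1/2)*x := ⟨2 * coeff 2 J, by ring⟩
  obtain ⟨J3, J3'⟩ : ∃ x, coeff 3 J = (1/6)*x := ⟨6 * coeff 3 J, by ring⟩
  obtain ⟨J4, J4'⟩ : ∃ x, coeff 4 J = (1/24)*x := ⟨24 * coeff 4 J, by ring⟩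
  have B3 : coeff 3 B = (2/7)*J0*b0 + (2/3)*b0*b1 - (1/7)*J2 := by
    have r := congrArg (coeff 0) hB
    simp only [map_add, map_sub, coeff_C_mul, mulc, coeff_derivative, Finset.sum_range_succ, Finset.sum_range_zero, Nat.reduceAdd, Nat.reduceSub, zero_add, Nat.add_zero, Nat.sub_zero, Nat.sub_self, B0, B1, B2, J0', J1', J2', J3', J4', zero_mul, mul_zero, add_zero] at r
    push_cast at r
    linear_combination (1 / 42 : ℝ) * r
  have B4 : coeff 4 B = (1/14)*J0*b1 + (1/14)*J1*b0 + (1/6)*b0*b2 + (1/6)*b1^2 - (1/28)*J3 := by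
    have r := congrArg (coeff 1) hB
    simp only [map_add, map_sub, coeff_C_mul, mulc, coeff_derivative, Finset.sum_range_succ, Finset.sum_range_zero, Nat.reduceAdd, Nat.reduceSub, zero_add, Nat.add_zero, Nat.sub_zero, Nat.sub_self, B0, B1, B2, J0', J1', J2', J3', J4', B3, zero_mul, mul_zero, add_zero] at r
    push_cast at r
    linear_combination (1 / 168 : ℝ) * r
  have B5 : coeff 5 B = (2/35)*J0*b0^2 + (2/15)*b0^2*b1 + (1/70)*J0*b2 + (1/35)*J1*b1 - (1/70)*J2*b0 + (1/10)*b1*b2 - (1/140)*J4 := by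
    have r := congrArg (coeff 2) hB
    simp only [map_add, map_sub, coeff_C_mul, mulc, coeff_derivative, Finset.sum_range_succ, Finset.sum_range_zero, Nat.reduceAdd, Nat.reduceSub, zero_add, Nat.add_zero, Nat.sub_zero, Nat.sub_self, B0, B1, B2, J0', J1', J2', J3', J4', B3, B4, zero_mul, mul_zero, add_zero] at r
    push_cast at r
    linear_combination (1 / 420 : ℝ) * r
  have := eqC h B0 B1 B2 B3 B4 B5 J0' J1' J2' J3' J4' G0 hG hE
  rw [B0, B1, B2, J0', J1', J2', J4']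
  linear_combination this

theorem eqD' {B J Z W V G : ℝ⟦X⟧} (h : Sys B J Z W V) (hF : Fml B J)
    (G0 : coeff 0 G = 0)
    (hG : ∀ n : ℕ, ((n : ℝ) + 1) * coeff (n + 1) G =
      -(1 / 3) * (((n : ℝ) + 1) * coeff (n + 1) B) - 2 / 5 * coeff n J)
    (hE : (V * Z - d⁄dX ℝ Z * W) * (V * Z + d⁄dX ℝ Z * W) = G * (Z * W * (Z * W))) :
    30 * coeff 0 J * (6 * coeff 3 J) + 40 * coeff 1 J * (2 * coeff 2 J) - 378 * coeff 0 J ^ 3 -
      795 * coeff 1 B * coeff 0 J ^ 2 - 630 * coeff 0 B * coeff 0 J * coeff 1 J = 0 := by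
  obtain ⟨b0, B0⟩ : ∃ x, coeff 0 B = x := ⟨_, rfl⟩
  obtain ⟨b1, B1⟩ : ∃ x, coeff 1 B = x := ⟨_, rfl⟩
  obtain ⟨b2, B2⟩ : ∃ x, coeff 2 B = (1/2)*x := ⟨2 * coeff 2 B, by ring⟩
  obtain ⟨J0, J0'⟩ : ∃ x, coeff 0 J = x := ⟨_, rfl⟩
  obtain ⟨J1, J1'⟩ : ∃ x, coeff 1 J = x := ⟨_, rfl⟩
  obtain ⟨J2, J2'⟩ : ∃ x, coeff 2 J = (1/2)*x := ⟨2 * coeff 2 J, by ring⟩
  obtain ⟨J3, J3'⟩ : ∃ x, coeff 3 J = (1/6)*x := ⟨6 * coeff 3 J, by ring⟩
  have B3 : coeff 3 B = (2/7)*J0*b0 + (2/3)*b0*b1 - (1/7)*J2 := by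
    have r := congrArg (coeff 0) hF.hB
    simp only [map_add, map_sub, coeff_C_mul, mulc, coeff_derivative, Finset.sum_range_succ, Finset.sum_range_zero, Nat.reduceAdd, Nat.reduceSub, zero_add, Nat.add_zero, Nat.sub_zero, Nat.sub_self, B0, B1, B2, J0', J1', J2', J3', zero_mul, mul_zero, add_zero] at r
    push_cast at r
    linear_combination (1 / 42 : ℝ) * r
  have J4' : coeff 4 J = -6*J0*b0^2 + (21/4)*J0*J1 + (83/16)*J0*b2 + (155/48)*J1*b1 + (25/24)*J2*b0 := by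
    have r := congrArg (coeff 0) hF.hJ
    simp only [map_add, map_sub, coeff_C_mul, mulc, coeff_derivative, Finset.sum_range_succ, Finset.sum_range_zero, Nat.reduceAdd, Nat.reduceSub, zero_add, Nat.add_zero, Nat.sub_zero, Nat.sub_self, B0, B1, B2, J0', J1', J2', J3', B3, zero_mul, mul_zero, add_zero] at r
    push_cast at r
    linear_combination (1 / 24 : ℝ) * r
  have B4 : coeff 4 B = (1/14)*J0*b1 + (1/14)*J1*b0 + (1/6)*b0*b2 + (1/6)*b1^2 - (1/28)*J3 := by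
    have r := congrArg (coeff 1) hF.hB
    simp only [map_add, map_sub, coeff_C_mul, mulc, coeff_derivative, Finset.sum_range_succ, Finset.sum_range_zero, Nat.reduceAdd, Nat.reduceSub, zero_add, Nat.add_zero, Nat.sub_zero, Nat.sub_self, B0, B1, B2, J0', J1', J2', J3', B3, J4', zero_mul, mul_zero, add_zero] at r
    push_cast at r
    linear_combination (1 / 168 : ℝ) * r
  have J5' : coeff 5 J = (249/140)*J0^2*b0 + (7/4)*J0*b0*b1 - (6/5)*J1*b0^2 + (9/56)*J0*J2 + (21/20)*J1^2 + (101/60)*J1*b2 + (41/48)*J2*b1 + (5/24)*J3*b0 := by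
    have r := congrArg (coeff 1) hF.hJ
    simp only [map_add, map_sub, coeff_C_mul, mulc, coeff_derivative, Finset.sum_range_succ, Finset.sum_range_zero, Nat.reduceAdd, Nat.reduceSub, zero_add, Nat.add_zero, Nat.sub_zero, Nat.sub_self, B0, B1, B2, J0', J1', J2', J3', B3, J4', B4, zero_mul, mul_zero, add_zero] at r
    push_cast at r
    linear_combination (1 / 120 : ℝ) * r
  have B5 : coeff 5 B = (38/35)*J0*b0^2 + (2/15)*b0^2*b1 - (9/10)*J0*J1 - (7/8)*J0*b2 - (21/40)*J1*b1 - (27/140)*J2*b0 + (1/10)*b1*b2 := by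
    have r := congrArg (coeff 2) hF.hB
    simp only [map_add, map_sub, coeff_C_mul, mulc, coeff_derivative, Finset.sum_range_succ, Finset.sum_range_zero, Nat.reduceAdd, Nat.reduceSub, zero_add, Nat.add_zero, Nat.sub_zero, Nat.sub_self, B0, B1, B2, J0', J1', J2', J3', B3, J4', B4, J5', zero_mul, mul_zero, add_zero] at r
    push_cast at r
    linear_combination (1 / 420 : ℝ) * r
  have J6' : coeff 6 J = -5*J0*b0^3 + (83/280)*J0^2*b1 + (4577/840)*J0*J1*b0 + (443/96)*J0*b0*b2 + (7/24)*J0*b1^2 + (1067/288)*J1*b0*b1 + (481/720)*J2*b0^2 + (3/112)*J0*J3 + (229/1680)*J1*J2 + (203/480)*J2*b2 + (17/96)*J3*b1 := by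
    have r := congrArg (coeff 2) hF.hJ
    simp only [map_add, map_sub, coeff_C_mul, mulc, coeff_derivative, Finset.sum_range_succ, Finset.sum_range_zero, Nat.reduceAdd, Nat.reduceSub, zero_add, Nat.add_zero, Nat.sub_zero, Nat.sub_self, B0, B1, B2, J0', J1', J2', J3', B3, J4', B4, J5', B5, zero_mul, mul_zero, add_zero] at r
    push_cast at r
    linear_combination (1 / 360 : ℝ) * r
  have B6 : coeff 6 B = -(1/4)*J0^2*b0 - (27/140)*J0*b0*b1 + (19/105)*J1*b0^2 + (1/45)*b0^2*b2 + (1/9)*b0*b1^2 - (1/40)*J0*J2 - (3/20)*J1^2 - (7/30)*J1*b2 - (15/112)*J2*b1 - (9/280)*J3*b0 + (1/60)*b2^2 := by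
    have r := congrArg (coeff 3) hF.hB
    simp only [map_add, map_sub, coeff_C_mul, mulc, coeff_derivative, Finset.sum_range_succ, Finset.sum_range_zero, Nat.reduceAdd, Nat.reduceSub, zero_add, Nat.add_zero, Nat.sub_zero, Nat.sub_self, B0, B1, B2, J0', J1', J2', J3', B3, J4', B4, J5', B5, J6', zero_mul, mul_zero, add_zero] at r
    push_cast at r
    linear_combination (1 / 840 : ℝ) * r
  have B7 : coeff 7 B = (2/3)*J0*b0^3 + (4/315)*b0^3*b1 - (1/28)*J0^2*b1 - (99/140)*J0*J1*b0 - (331/560)*J0*b0*b2 - (27/980)*J0*b1^2 - (1823/3920)*J1*b0*b1 - (11/120)*J2*b0^2 + (2/35)*b0*b1*b2 + (1/63)*b1^3 - (1/280)*J0*J3 - (1/56)*J1*J2 - (19/336)*J2*b2 - (93/3920)*J3*b1 := by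
    have r := congrArg (coeff 4) hF.hB
    simp only [map_add, map_sub, coeff_C_mul, mulc, coeff_derivative, Finset.sum_range_succ, Finset.sum_range_zero, Nat.reduceAdd, Nat.reduceSub, zero_add, Nat.add_zero, Nat.sub_zero, Nat.sub_self, B0, B1, B2, J0', J1', J2', J3', B3, J4', B4, J5', B5, J6', B6, zero_mul, mul_zero, add_zero] at r
    push_cast at r
    linear_combination (1 / 1470 : ℝ) * r
  have := eqD h B0 B1 B2 B3 B4 B5 B6 B7 J0' J1' J2' J3' J4' J5' J6' G0 hG hE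
  rw [B0, B1, J0', J1', J2', J3']
  linear_combination this

end Pool.Agent.W5h10.TL
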