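import Pool.Agent.W5h10.TL.Frame
import Pool.Agent.W5h10.TL.EqA
import Pool.Agent.W5h10.TL.EqB
import Pool.Agent.W5h10.TL.EqW

/-!
# The differential equations
-/

set_option autoImplicit false

open Filter Topology PowerSeries
open scoped ContDiff

namespace Pool.Agent.W5h10.TL

open Pool.Agent.W5h70.PG (HD Dm Dm_smooth Dm_hd det3 cramer f0 f1 f2)

namespace Frm

variable {μ : ℝ → ℝ} {v0 v1 v2 : ℝ → Fin 3 → ℝ} {b c E G : ℝ → ℝ}

/-- coordinates with respect to the frame at `s` -/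
def Zf (v0 v1 : ℝ → Fin 3 → ℝ) (s t : ℝ) : ℝ := f2 (v0 s) (v1 s) (v0 t)

def Z1f (v0 v1 : ℝ → Fin 3 → ℝ) (s t : ℝ) : ℝ := f2 (v0 s) (v1 s) (v1 t)

def Wf (v0 v1 v2 : ℝ → Fin 3 → ℝ) (s t : ℝ) : ℝ :=
  mn (f1 (v0 s) (v2 s)) (f2 (v0 s) (v1 s)) v0 v1 t

def Vf (v0 v1 v2 : ℝ → Fin 3 → ℝ) (s t : ℝ) : ℝ :=
  mn (f0 (v1 s) (v2 s)) (f2 (v0 s) (v1 s)) v0 v1 t

/-- the functional equation near `s` on the left side -/
def Loc (v0 v1 v2 : ℝ → Fin 3 → ℝ) (E G : ℝ → ℝ) (s k : ℝ) : Prop :=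
  ∀ᶠ t in 𝓝[<] s,
    (Vf v0 v1 v2 s t * Zf v0 v1 s t - k * (Zf v0 v1 s t * Wf v0 v1 v2 s t)) ^ 2 -
      (Z1f v0 v1 s t * Wf v0 v1 v2 s t - E t * (Zf v0 v1 s t * Wf v0 v1 v2 s t)) ^ 2 =
      (G t - G s) * (Zf v0 v1 s t * Wf v0 v1 v2 s t) ^ 2

theorem series (H : Frm μ v0 v1 v2 b c) (sE : ContDiff ℝ ∞ E) (sG : ContDiff ℝ ∞ G) {s k : ℝ}
    (h : Loc v0 v1 v2 E G s k) :
    (ser μ (Vf v0 v1 v2 s) s * ser μ (Zf v0 v1 s) s -
        C k * (ser μ (Zf v0 v1 s) s * ser μ (Wf v0 v1 v2 s) s)) *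
      (ser μ (Vf v0 v1 v2 s) s * ser μ (Zf v0 v1 s) s -
        C k * (ser μ (Zf v0 v1 s) s * ser μ (Wf v0 v1 v2 s) s)) -
      (d⁄dX ℝ (ser μ (Zf v0 v1 s) s) * ser μ (Wf v0 v1 v2 s) s -
        ser μ E s * (ser μ (Zf v0 v1 s) s * ser μ (Wf v0 v1 v2 s) s)) *
      (d⁄dX ℝ (ser μ (Zf v0 v1 s) s) * ser μ (Wf v0 v1 v2 s) s -
        ser μ E s * (ser μ (Zf v0 v1 s) s * ser μ (Wf v0 v1 v2 s) s)) =
      (ser μ G s - C (G s)) * (ser μ (Zf v0 v1 s) s * ser μ (Wf v0 v1 v2 s) s *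
        (ser μ (Zf v0 v1 s) s * ser μ (Wf v0 v1 v2 s) s)) := by
  have hν : ∀ t, (μ t)⁻¹ ≠ 0 := fun t => inv_ne_zero (H.μ_ne t)
  have TZ := ser_tay H.μ_ne H.sμ (f := Zf v0 v1 s) (lin_smooth _ H.s0)
  have TW := ser_tay H.μ_ne H.sμ (f := Wf v0 v1 v2 s) (mn_smooth _ _ H.s0 H.s1)
  have TV := ser_tay H.μ_ne H.sμ (f := Vf v0 v1 v2 s) (mn_smooth _ _ H.s0 H.s1)
  have TE := ser_tay H.μ_ne H.sμ sE
  have TG := ser_tay H.μ_ne H.sμ sG
  have TP := (TV.mul TZ).sub ((Tay.const k).mul (TZ.mul TW))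
  have TQ := (TZ.deriv.mul TW).sub (TE.mul (TZ.mul TW))
  have TU := TZ.mul TW
  have T := ((TP.mul TP).sub (TQ.mul TQ)).sub ((TG.sub (Tay.const (G s))).mul (TU.mul TU))
  have hz := T.zero hν (t₀ := s) (by
    filter_upwards [h] with t ht
    have hZ1 : coeff 0 (d⁄dX ℝ (ser μ (Zf v0 v1 s) t)) = Z1f v0 v1 s t := by
      rw [ser_d H.μ_ne (f := Zf v0 v1 s) (g := Z1f v0 v1 s) (lin_hd _ H.d0), ser_zero]
    simp only [map_sub, c0_mul, c0_C, ser_zero, hZ1]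
    linear_combination ht)
  exact sub_eq_zero.1 hz

/-- the sequence of equations -/
theorem eqs (H : Frm μ v0 v1 v2 b c) (sE : ContDiff ℝ ∞ E) (sG : ContDiff ℝ ∞ G)
    (h : ∀ s, ∃ k, Loc v0 v1 v2 E G s (k + E s)) :
    (∀ t, Dm μ E t = 0) ∧ (∀ t, Dm μ G t = -(1 / 3) * Dm μ b t - 2 / 5 * J μ b c t) ∧
      (∀ t, E t * Dm μ G t = 0) ∧
      ∀ t, Fml (ser μ b t) (ser μ (J μ b c) t) ∧ Phi (ser μ b t) (ser μ (J μ b c) t) := by
  have hν : ∀ t, (μ t)⁻¹ ≠ 0 := fun t => inv_ne_zero (H.μ_ne t)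
  have Tb := ser_tay H.μ_ne H.sμ H.sb
  have TJ := ser_tay H.μ_ne H.sμ H.sJ
  have TG := ser_tay H.μ_ne H.sμ sG
  have sD : ∀ {f : ℝ → ℝ}, ContDiff ℝ ∞ f → ContDiff ℝ ∞ (Dm μ f) := fun hf => Dm_smooth H.sμ hf
  have dser : ∀ {f : ℝ → ℝ}, ContDiff ℝ ∞ f → ∀ t, d⁄dX ℝ (ser μ f t) = ser μ (Dm μ f) t :=
    fun hf t => ser_d H.μ_ne (H.hd hf) t
  have hG0 : ∀ s, coeff 0 (ser μ G s - C (G s)) = 0 := fun s => by
    rw [map_sub, ser_zero, c0_C, sub_self]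
  have kE : ∀ s, (∀ k, Loc v0 v1 v2 E G s (k + E s) → k = 0) ∧ Dm μ E s = 0 := by
    intro s
    have key : ∀ k, Loc v0 v1 v2 E G s (k + E s) → k = 0 ∧ Dm μ E s = 0 := by
      intro k hk
      have h1 := H.series sE sG hk
      obtain ⟨h2, h3⟩ := eqA0 (H.sys s) (hG0 s) h1
      rw [ser_zero] at h2
      rw [ser_one] at h3
      exact ⟨by linarith, h3⟩
    obtain ⟨k, hk⟩ := h s
    exact ⟨fun k' hk' => (key k' hk').1, (key k hk).2⟩
  have hE : ∀ s, Dm μ E s = 0 := fun s => (kE s).2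
  have serE : ∀ s, ser μ E s = C (E s) := by
    intro s
    refine derivative.ext ?_ ?_
    · rw [derivative_C, dser sE, show Dm μ E = fun _ => 0 from funext hE]
      have : Tay (fun t => (μ t)⁻¹) (fun _ : ℝ => (C (0 : ℝ) : ℝ⟦X⟧)) := Tay.const 0
      have h2 := Tay.ext hν (ser_tay H.μ_ne H.sμ (f := fun _ => (0 : ℝ)) contDiff_const) this
        (fun t => by rw [ser_zero, c0_C]) s
      rw [h2, map_zero]
    · rw [← coeff_zero_eq_constantCoeff, ser_zero, c0_C]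
  have hL : ∀ s, Loc v0 v1 v2 E G s (E s) := by
    intro s
    obtain ⟨k, hk⟩ := h s
    have := (kE s).1 k hk
    rwa [this, zero_add] at hk
  have A1 : ∀ s, Dm μ G s = -(1 / 3) * Dm μ b s - 2 / 5 * J μ b c s ∧
      2 * coeff 2 (ser μ G s) = -(1 / 3) * (2 * coeff 2 (ser μ b s)) -
        2 / 5 * Dm μ (J μ b c) s - E s * Dm μ G s := by
    intro s
    have h1 := H.series sE sG (hL s)
    rw [serE s] at h1
    obtain ⟨h2, h3⟩ := eqA1 (H.sys s) (hG0 s) h1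
    have e1 : coeff 1 (ser μ G s - C (G s)) = Dm μ G s := by
      rw [map_sub, ser_one, coeff_C]; simp
    have e2 : coeff 2 (ser μ G s - C (G s)) = coeff 2 (ser μ G s) := by
      rw [map_sub, coeff_C]; simp
    rw [e1, ser_one, ser_zero] at h2
    rw [e1, e2, ser_one] at h3
    exact ⟨h2, h3⟩
  have dG : ∀ t, d⁄dX ℝ (ser μ G t) =
      C (-(1 / 3) : ℝ) * d⁄dX ℝ (ser μ b t) - C (2 / 5 : ℝ) * ser μ (J μ b c) t := by
    refine Tay.ext hν TG.deriv (((Tay.const _).mul Tb.deriv).sub ((Tay.const _).mul TJ))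
      (fun t => ?_)
    rw [map_sub, c0_mul, c0_mul, c0_C, c0_C, dser sG, dser H.sb, ser_zero, ser_zero, ser_zero]
    exact (A1 t).1
  have EG : ∀ t, E t * Dm μ G t = 0 := by
    intro t
    have h1 := congrArg (coeff 1) (dG t)
    rw [map_sub, coeff_C_mul, coeff_C_mul, coeff_derivative, coeff_derivative, ser_one] at h1
    have h2 := (A1 t).2
    norm_num at h1 h2
    linarith
  -- the equation without the constant
  have NQ : ∀ s, (ser μ (Vf v0 v1 v2 s) s * ser μ (Zf v0 v1 s) s -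
      d⁄dX ℝ (ser μ (Zf v0 v1 s) s) * ser μ (Wf v0 v1 v2 s) s) *
      (ser μ (Vf v0 v1 v2 s) s * ser μ (Zf v0 v1 s) s +
      d⁄dX ℝ (ser μ (Zf v0 v1 s) s) * ser μ (Wf v0 v1 v2 s) s) =
      (ser μ G s - C (G s)) * (ser μ (Zf v0 v1 s) s * ser μ (Wf v0 v1 v2 s) s *
        (ser μ (Zf v0 v1 s) s * ser μ (Wf v0 v1 v2 s) s)) := by
    intro s
    have h1 := H.series sE sG (hL s)
    rw [serE s] at h1
    by_cases hs : E s = 0
    · rw [hs, map_zero] at h1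
      rw [← h1]; ring
    · -- `E` is a nonzero constant, `G` is constant
      have cE : ∀ t, E t = E s := fun t =>
        (H.hd sE).const_of_zero hE t s
      have G1 : ∀ t, Dm μ G t = 0 := fun t => by
        have := EG t
        rw [cE t] at this
        exact (mul_eq_zero.1 this).resolve_left hs
      have cG : ∀ t, G t = G s := fun t => (H.hd sG).const_of_zero G1 t s
      have g0 : ser μ G s - C (G s) = 0 := by
        have := Tay.ext hν TG (Tay.const (G s)) (fun t => by rw [ser_zero, c0_C, cG t]) s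
        rw [this, sub_self]
      rw [g0, zero_mul] at h1 ⊢
      have hsys := H.sys s
      obtain ⟨n0, n1, n2, n3, n4, n5, n6, n7, q0, q1, q2, q3, q4, u0, u1, u2, u3, u4, u5⟩ :=
        coefsA hsys (b2 := 2 * coeff 2 (ser μ b s)) rfl rfl (by ring) rfl rfl
      have h2 : (ser μ (Vf v0 v1 v2 s) s * ser μ (Zf v0 v1 s) s -
          d⁄dX ℝ (ser μ (Zf v0 v1 s) s) * ser μ (Wf v0 v1 v2 s) s) *
          ((ser μ (Vf v0 v1 v2 s) s * ser μ (Zf v0 v1 s) s +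
          d⁄dX ℝ (ser μ (Zf v0 v1 s) s) * ser μ (Wf v0 v1 v2 s) s) -
          C (2 * E s) * (ser μ (Zf v0 v1 s) s * ser μ (Wf v0 v1 v2 s) s)) = 0 := by
        rw [← h1]
        have : (C (2 * E s) : ℝ⟦X⟧) = C (E s) + C (E s) := by rw [← map_add]; congr 1; ring
        rw [this]
        ring
      rcases mul_eq_zero.1 h2 with h3 | h3
      · rw [h3, zero_mul]
      · exfalso
        have h4 := congrArg (coeff 3) h3
        rw [map_sub, coeff_C_mul] at h4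
        have q3' : coeff 3 (ser μ (Vf v0 v1 v2 s) s * ser μ (Zf v0 v1 s) s +
          d⁄dX ℝ (ser μ (Zf v0 v1 s) s) * ser μ (Wf v0 v1 v2 s) s) = 1 := q3
        have u3' : coeff 3 (ser μ (Zf v0 v1 s) s * ser μ (Wf v0 v1 v2 s) s) = 0 := u3
        rw [q3', u3', map_zero] at h4
        norm_num at h4
  have hGn : ∀ s, ∀ n : ℕ, ((n : ℝ) + 1) * coeff (n + 1) (ser μ G s - C (G s)) =
      -(1 / 3) * (((n : ℝ) + 1) * coeff (n + 1) (ser μ b s)) -
        2 / 5 * coeff n (ser μ (J μ b c) s) := by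
    intro s n
    have h1 := congrArg (coeff n) (dG s)
    rw [map_sub, coeff_C_mul, coeff_C_mul, coeff_derivative, coeff_derivative] at h1
    rw [map_sub, coeff_C, if_neg (Nat.succ_ne_zero n)]
    linear_combination h1
  -- the equation of weight 5
  have E5 : ∀ s, 7 * (6 * coeff 3 (ser μ b s)) = 28 * b s * Dm μ b s + 12 * b s * J μ b c s -
      6 * (2 * coeff 2 (ser μ (J μ b c) s)) := by
    intro s
    have := eqB (H.sys s) (b0 := b s) (b1 := Dm μ b s) (b2 := 2 * coeff 2 (ser μ b s))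
      (b3 := 6 * coeff 3 (ser μ b s)) (J0 := J μ b c s) (J1 := Dm μ (J μ b c) s)
      (J2 := 2 * coeff 2 (ser μ (J μ b c) s)) (ser_zero _ _ _) (ser_one _) (by ring) (by ring)
      (ser_zero _ _ _) (ser_one _) (by ring) (hG0 s) (hGn s) (NQ s)
    exact this
  have hB : ∀ t, C (7 : ℝ) * d⁄dX ℝ (d⁄dX ℝ (d⁄dX ℝ (ser μ b t))) =
      C (28 : ℝ) * (ser μ b t * d⁄dX ℝ (ser μ b t)) +
      C (12 : ℝ) * (ser μ b t * ser μ (J μ b c) t) -
      C (6 : ℝ) * d⁄dX ℝ (d⁄dX ℝ (ser μ (J μ b c) t)) := by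
    refine Tay.ext hν ((Tay.const _).mul Tb.deriv.deriv.deriv)
      ((((Tay.const _).mul (Tb.mul Tb.deriv)).add ((Tay.const _).mul (Tb.mul TJ))).sub
        ((Tay.const _).mul TJ.deriv.deriv)) (fun t => ?_)
    have := E5 t
    rw [map_sub, map_add, c0_mul, c0_mul, c0_mul, c0_mul, c0_mul, c0_mul, c0_C, c0_C, c0_C, c0_C,
      coeff_derivative, coeff_derivative, coeff_derivative, coeff_derivative, coeff_derivative,
      ser_zero, ser_zero, coeff_derivative, ser_one]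
    norm_num at this ⊢
    linear_combination this
  have hJ : ∀ t, d⁄dX ℝ (d⁄dX ℝ (d⁄dX ℝ (d⁄dX ℝ (ser μ (J μ b c) t)))) =
      C (126 : ℝ) * (ser μ (J μ b c) t * d⁄dX ℝ (ser μ (J μ b c) t)) +
      C (249 / 2 : ℝ) * (ser μ (J μ b c) t * d⁄dX ℝ (d⁄dX ℝ (ser μ b t))) +
      C (155 / 2 : ℝ) * (d⁄dX ℝ (ser μ (J μ b c) t) * d⁄dX ℝ (ser μ b t)) +
      C (25 : ℝ) * (d⁄dX ℝ (d⁄dX ℝ (ser μ (J μ b c) t)) * ser μ b t) -
      C (144 : ℝ) * (ser μ (J μ b c) t * (ser μ b t * ser μ b t)) := by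
    refine Tay.ext hν TJ.deriv.deriv.deriv.deriv
      (((((Tay.const _).mul (TJ.mul TJ.deriv)).add ((Tay.const _).mul (TJ.mul Tb.deriv.deriv))).add
        ((Tay.const _).mul (TJ.deriv.mul Tb.deriv))).add
        ((Tay.const _).mul (TJ.deriv.deriv.mul Tb)) |>.sub
        ((Tay.const _).mul (TJ.mul (Tb.mul Tb)))) (fun t => ?_)
    have := eqC' (H.sys t) (hB t) (hG0 t) (hGn t) (NQ t)
    simp only [map_sub, map_add, c0_mul, c0_C, coeff_derivative]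
    norm_num at this ⊢
    linear_combination this
  have hF : ∀ t, Fml (ser μ b t) (ser μ (J μ b c) t) := fun t => ⟨hB t, hJ t⟩
  have hP : ∀ t, Phi (ser μ b t) (ser μ (J μ b c) t) := by
    intro t
    unfold Phi
    have := Tay.ext hν (F := fun t => C (30 : ℝ) * (ser μ (J μ b c) t *
        d⁄dX ℝ (d⁄dX ℝ (d⁄dX ℝ (ser μ (J μ b c) t)))) +
        C (40 : ℝ) * (d⁄dX ℝ (ser μ (J μ b c) t) * d⁄dX ℝ (d⁄dX ℝ (ser μ (J μ b c) t))) -
        C (378 : ℝ) * (ser μ (J μ b c) t * (ser μ (J μ b c) t * ser μ (J μ b c) t)) -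
        C (795 : ℝ) * (d⁄dX ℝ (ser μ b t) * (ser μ (J μ b c) t * ser μ (J μ b c) t)) -
        C (630 : ℝ) * (ser μ b t * (ser μ (J μ b c) t * d⁄dX ℝ (ser μ (J μ b c) t))))
      ((((((Tay.const _).mul (TJ.mul TJ.deriv.deriv.deriv)).add
        ((Tay.const _).mul (TJ.deriv.mul TJ.deriv.deriv))).sub
        ((Tay.const _).mul (TJ.mul (TJ.mul TJ)))).sub
        ((Tay.const _).mul (Tb.deriv.mul (TJ.mul TJ)))).sub
        ((Tay.const _).mul (Tb.mul (TJ.mul TJ.deriv)))) (Tay.const 0) (fun t => by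
          have := eqD' (H.sys t) (hF t) (hG0 t) (hGn t) (NQ t)
          simp only [map_sub, map_add, c0_mul, c0_C, coeff_derivative]
          norm_num at this ⊢
          linear_combination this) t
    rw [this, map_zero]
  exact ⟨hE, fun t => (A1 t).1, EG, fun t => ⟨hF t, hP t⟩⟩

end Frm

end Pool.Agent.W5h10.TL
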