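import Pool.Agent.W5h10.TL.Core
import Pool.Agent.W5h10.TL.Left

/-!
# The functional equation from the projective involutions
-/

set_option autoImplicit false

open Filter Topology
open scoped ContDiff

namespace Pool.Agent.W5h10.TL

open Pool.Agent.W5h70.PG (HD Dm Dm_smooth Dm_hd det3 cramer f0 f1 f2)

namespace Frm

variable {μ : ℝ → ℝ} {v0 v1 v2 : ℝ → Fin 3 → ℝ} {b c E G : ℝ → ℝ}

theorem loc_of (H : Frm μ v0 v1 v2 b c) (cE : Continuous E) (cG : Continuous G) {s κ ε : ℝ}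
    (hε : 0 < ε)
    (h : ∀ t τ x y l : ℝ, s - ε < t → t < s → 0 < τ → τ < ε → 0 < x → x < ε → 0 < y → y < ε →
      0 < l → v0 t + τ • v1 t = l • (v0 s - y • v1 s) →
      (1 / x + E s) ^ 2 + G s = (1 / τ + E t) ^ 2 + G t → 1 / x - 1 / y = κ) :
    Loc v0 v1 v2 E G s (κ + E s) := by
  have hν : ∀ t, 0 < (μ t)⁻¹ := fun t => inv_pos.2 (H.μ_pos t)
  have hd := H.det s
  have p00 : det3 (v0 s) (v1 s) (v0 s) = 0 := by unfold det3; ring
  have p01 : det3 (v0 s) (v1 s) (v1 s) = 0 := by unfold det3; ring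
  have p02 : det3 (v0 s) (v0 s) (v2 s) = 0 := by unfold det3; ring
  have p03 : det3 (v0 s) (v2 s) (v2 s) = 0 := by unfold det3; ring
  have p04 : det3 (v1 s) (v1 s) (v2 s) = 0 := by unfold det3; ring
  have p05 : det3 (v2 s) (v1 s) (v2 s) = 0 := by unfold det3; ring
  have a0 : ∀ x, f0 (v1 s) (v2 s) x = det3 x (v1 s) (v2 s) := fun _ => rfl
  have a1 : ∀ x, f1 (v0 s) (v2 s) x = det3 (v0 s) x (v2 s) := fun _ => rfl
  have a2 : ∀ x, f2 (v0 s) (v1 s) x = det3 (v0 s) (v1 s) x := fun _ => rfl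
  -- `Z`
  have hZ0 : HD (fun t => (μ t)⁻¹) (Zf v0 v1 s) (Z1f v0 v1 s) := lin_hd _ H.d0
  have hZ1 : HD (fun t => (μ t)⁻¹) (Z1f v0 v1 s) (fun t => f2 (v0 s) (v1 s) (v2 t)) :=
    lin_hd _ H.d1
  obtain ⟨eZ, tZ⟩ := near_left hν hZ0 hZ1 (t₀ := s) (by unfold Zf; rw [a2, p00])
    (by unfold Z1f; rw [a2, p01]) (by show 0 < f2 (v0 s) (v1 s) (v2 s); rw [a2, hd]; norm_num)
  -- `W`
  have hW0 : HD (fun t => (μ t)⁻¹) (Wf v0 v1 v2 s)
      (mn (f1 (v0 s) (v2 s)) (f2 (v0 s) (v1 s)) v0 v2) := H.m0 _ _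
  have hW1 := H.m1 (f1 (v0 s) (v2 s)) (f2 (v0 s) (v1 s))
  have W0 : Wf v0 v1 v2 s s = 0 := by
    simp only [Wf, mn, a1, a2, p00, p01, p02, hd]; ring
  have W1 : mn (f1 (v0 s) (v2 s)) (f2 (v0 s) (v1 s)) v0 v2 s = 0 := by
    simp only [mn, a1, a2, p00, p01, p02, p03, hd]; ring
  obtain ⟨eW, -⟩ := near_left hν hW0 hW1 (t₀ := s) W0 W1 (by
    simp only [mn, a1, a2, p00, p01, p02, p03, hd]; norm_num)
  -- `V`
  have hV0 : HD (fun t => (μ t)⁻¹) (Vf v0 v1 v2 s)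
      (mn (f0 (v1 s) (v2 s)) (f2 (v0 s) (v1 s)) v0 v2) := H.m0 _ _
  have V0 : Vf v0 v1 v2 s s = 0 := by
    simp only [Vf, mn, a0, a2, p00, p01, p04, hd]; ring
  have V1 : mn (f0 (v1 s) (v2 s)) (f2 (v0 s) (v1 s)) v0 v2 s = 1 := by
    simp only [mn, a0, a2, p00, p05, hd]; ring
  have dV := hV0 s
  rw [V1, smul_eq_mul, mul_one] at dV
  have eV := neg_left dV V0 (hν s)
  -- limits
  have dW := hW0 s
  rw [W1, smul_zero] at dW
  have tWV : Tendsto (fun t => Wf v0 v1 v2 s t / Vf v0 v1 v2 s t) (𝓝[<] s) (𝓝 0) := by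
    have s2 := (slope_left dW W0).div (slope_left dV V0) (hν s).ne'
    rw [zero_div] at s2
    refine s2.congr' ?_
    filter_upwards [self_mem_nhdsWithin] with t ht
    have ht' : t - s ≠ 0 := (sub_neg.2 ht).ne
    show Wf v0 v1 v2 s t / (t - s) / (Vf v0 v1 v2 s t / (t - s)) = _
    rw [div_div_div_cancel_right₀ ht']
  obtain ⟨τf, hτf⟩ : ∃ τf : ℝ → ℝ, τf = fun t => -(Zf v0 v1 s t / Z1f v0 v1 s t) := ⟨_, rfl⟩
  have tτ : Tendsto τf (𝓝[<] s) (𝓝 0) := by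
    rw [hτf]
    simpa using tZ.neg
  have pτ : ∀ᶠ t in 𝓝[<] s, 0 < τf t := by
    filter_upwards [eZ] with t ht
    rw [hτf]
    exact neg_pos.2 (div_neg_of_pos_of_neg ht.2 ht.1)
  have tinv : Tendsto (fun t => 1 / τf t) (𝓝[<] s) atTop := by
    have : Tendsto τf (𝓝[<] s) (𝓝[>] 0) := tendsto_nhdsWithin_iff.2 ⟨tτ, pτ⟩
    simp only [one_div]
    exact tendsto_inv_nhdsGT_zero.comp this
  have tE : Tendsto E (𝓝[<] s) (𝓝 (E s)) := (cE.tendsto s).mono_left nhdsWithin_le_nhds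
  have tG : Tendsto G (𝓝[<] s) (𝓝 (G s)) := (cG.tendsto s).mono_left nhdsWithin_le_nhds
  have t1 : Tendsto (fun t => 1 / τf t + E t) (𝓝[<] s) atTop := tinv.atTop_add tE
  have t2 : Tendsto (fun t => (1 / τf t + E t) ^ 2 + (G t - G s)) (𝓝[<] s) atTop :=
    ((tendsto_pow_atTop two_ne_zero).comp t1).atTop_add (tG.sub_const (G s))
  have e1 := t2.eventually_ge_atTop ((1 / ε + |E s| + 1) ^ 2)
  have e2 : ∀ᶠ t in 𝓝[<] s, τf t < ε := tτ.eventually (gt_mem_nhds hε)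
  have e3 : ∀ᶠ t in 𝓝[<] s, -(Wf v0 v1 v2 s t / Vf v0 v1 v2 s t) < ε := by
    have : Tendsto (fun t => -(Wf v0 v1 v2 s t / Vf v0 v1 v2 s t)) (𝓝[<] s) (𝓝 0) := by
      simpa using tWV.neg
    exact this.eventually (gt_mem_nhds hε)
  have e4 : ∀ᶠ t in 𝓝[<] s, s - ε < t :=
    nhdsWithin_le_nhds (lt_mem_nhds (by linarith))
  unfold Loc
  filter_upwards [eZ, eW, eV, pτ, e1, e2, e3, e4, self_mem_nhdsWithin] with t hz hw' hv
    hp h1 h2 h3 h4 h5
  obtain ⟨z1, z0⟩ := hz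
  have w0 := hw'.2
  have h5 : t < s := h5
  rw [show τf t = -(Zf v0 v1 s t / Z1f v0 v1 s t) from congrFun hτf t] at hp h1 h2
  clear tτ pτ tinv t1 t2 e1 e2 hτf
  generalize hZ : Zf v0 v1 s t = Z at *
  generalize hZ' : Z1f v0 v1 s t = Z' at *
  generalize hW : Wf v0 v1 v2 s t = W at *
  generalize hV : Vf v0 v1 v2 s t = V at *
  obtain ⟨w, hw⟩ : ∃ w, w = √((1 / -(Z / Z') + E t) ^ 2 + (G t - G s)) := ⟨_, rfl⟩
  have hM : 0 < 1 / ε := by positivity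
  have habs : 0 ≤ |E s| := abs_nonneg _
  have hwge : 1 / ε + |E s| + 1 ≤ w := by
    rw [hw]
    refine Real.le_sqrt_of_sq_le ?_
    exact h1
  have hw2 : w ^ 2 = (1 / -(Z / Z') + E t) ^ 2 + (G t - G s) := by
    rw [hw, Real.sq_sqrt]
    have : 0 ≤ (1 / ε + |E s| + 1) ^ 2 := sq_nonneg _
    exact this.trans h1
  have hEs := le_abs_self (E s)
  have hx0 : 1 / ε < w - E s := by linarith
  have hx1 : 0 < w - E s := hM.trans hx0
  have hx : (w - E s)⁻¹ < ε := by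
    rw [inv_lt_comm₀ hx1 hε, ← one_div]
    exact hx0
  have hy0 : 0 < -(W / V) := neg_pos.2 (div_neg_of_pos_of_neg w0 hv)
  have hl : 0 < V / Z' := div_pos_of_neg_of_neg hv z1
  have hvec : v0 t + (-(Z / Z')) • v1 t = (V / Z') • (v0 s - (-(W / V)) • v1 s) := by
    have c0 := cramer (v0 := v0 s) (v1 := v1 s) (v2 := v2 s) (v0 t)
    have c1 := cramer (v0 := v0 s) (v1 := v1 s) (v2 := v2 s) (v1 t)
    rw [hd, one_smul] at c0 c1
    have eV' : V = det3 (v0 t) (v1 s) (v2 s) * Z' - det3 (v1 t) (v1 s) (v2 s) * Z := by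
      rw [← hV, ← hZ, ← hZ']; rfl
    have eW' : W = det3 (v0 s) (v0 t) (v2 s) * Z' - det3 (v0 s) (v1 t) (v2 s) * Z := by
      rw [← hW, ← hZ, ← hZ']; rfl
    have eZ : det3 (v0 s) (v1 s) (v0 t) = Z := hZ
    have eZ' : det3 (v0 s) (v1 s) (v1 t) = Z' := hZ'
    rw [eZ] at c0
    rw [eZ'] at c1
    have hv' := hv.ne
    have hz' := z1.ne
    have key : Z' • (v0 t + (-(Z / Z')) • v1 t) = Z' • ((V / Z') • (v0 s - (-(W / V)) • v1 s)) := by
      rw [smul_add, smul_smul, smul_smul, smul_sub, smul_smul]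
      rw [show Z' * -(Z / Z') = -Z by field_simp, show Z' * (V / Z') = V by field_simp,
        show V * -(W / V) = -W by field_simp]
      rw [c0, c1, eV', eW']
      module
    exact smul_right_injective _ hz' key
  have heq : (1 / (w - E s)⁻¹ + E s) ^ 2 + G s = (1 / -(Z / Z') + E t) ^ 2 + G t := by
    rw [one_div, inv_inv, sub_add_cancel, hw2]
    ring
  have := h t (-(Z / Z')) (w - E s)⁻¹ (-(W / V)) (V / Z') h4 h5 hp h2 (inv_pos.2 hx1) hx hy0 h3 hl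
    hvec heq
  rw [one_div, inv_inv] at this
  have hw3 : w = κ + E s - V / W := by
    have : 1 / -(W / V) = -(V / W) := by
      have := w0.ne'
      have := hv.ne
      field_simp
    linarith
  rw [hw3] at hw2
  have hz0 := z0.ne'
  have hw0 := w0.ne'
  have hz' := z1.ne
  have hv' := hv.ne
  have e5 : 1 / -(Z / Z') = -(Z' / Z) := by field_simp
  rw [e5] at hw2
  have e6 : (V * Z - (κ + E s) * (Z * W)) = -(κ + E s - V / W) * (Z * W) := by
    field_simp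
    ring
  have e7 : (Z' * W - E t * (Z * W)) = -(-(Z' / Z) + E t) * (Z * W) := by
    field_simp
    ring
  rw [e6, e7]
  linear_combination (Z * W) ^ 2 * hw2

end Frm

end Pool.Agent.W5h10.TL
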