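import Pool.Agent.W5h10.TL.CoefC

/-!
# The equation of weight 7
-/

set_option autoImplicit false
set_option linter.unusedSimpArgs false

open PowerSeries

namespace Pool.Agent.W5h10.TL

theorem eqC {B J Z W V G : ℝ⟦X⟧} (h : Sys B J Z W V) {b0 b1 b2 J0 J1 J2 J3 J4 : ℝ}
    (B0 : coeff 0 B = b0)
    (B1 : coeff 1 B = b1)
    (B2 : coeff 2 B = (1/2)*b2)
    (B3 : coeff 3 B = (2/7)*J0*b0 + (2/3)*b0*b1 - (1/7)*J2)
    (B4 : coeff 4 B = (1/14)*J0*b1 + (1/14)*J1*b0 + (1/6)*b0*b2 + (1/6)*b1^2 - (1/28)*J3)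
    (B5 : coeff 5 B = (2/35)*J0*b0^2 + (2/15)*b0^2*b1 + (1/70)*J0*b2 + (1/35)*J1*b1 - (1/70)*J2*b0 + (1/10)*b1*b2 - (1/140)*J4)
    (J0' : coeff 0 J = J0)
    (J1' : coeff 1 J = J1)
    (J2' : coeff 2 J = (1/2)*J2)
    (J3' : coeff 3 J = (1/6)*J3)
    (J4' : coeff 4 J = (1/24)*J4)
    (G0 : coeff 0 G = 0)
    (hG : ∀ n : ℕ, ((n : ℝ) + 1) * coeff (n + 1) G =
      -(1 / 3) * (((n : ℝ) + 1) * coeff (n + 1) B) - 2 / 5 * coeff n J)
    (hE : (V * Z - d⁄dX ℝ Z * W) * (V * Z + d⁄dX ℝ Z * W) = G * (Z * W * (Z * W))) :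
    J4 = 126 * J0 * J1 + 249 / 2 * J0 * b2 + 155 / 2 * J1 * b1 + 25 * J2 * b0 - 144 * J0 * b0 ^ 2 := by
  obtain ⟨n0, n1, n2, n3, n4, n5, n6, n7, n8, n9, n10, q0, q1, q2, q3, q4, q5, q6, q7, u0, u1, u2, u3, u4, u5, u6, u7, u8⟩ := coefsC h B0 B1 B2 B3 B4 B5 J0' J1' J2' J3' J4'
  generalize V * Z - d⁄dX ℝ Z * W = N at *
  generalize V * Z + d⁄dX ℝ Z * W = Q at *
  generalize Z * W = U at *
  have g1 := hG 0
  rw [B1, J0'] at g1
  push_cast at g1
  have G1 : coeff 1 G = -(2/5)*J0 - (1/3)*b1 := by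
    linear_combination (1 / 1 : ℝ) * g1
  have g2 := hG 1
  rw [B2, J1'] at g2
  push_cast at g2
  have G2 : coeff 2 G = -(1/5)*J1 - (1/6)*b2 := by
    linear_combination (1 / 2 : ℝ) * g2
  have g3 := hG 2
  rw [B3, J2'] at g3
  push_cast at g3
  have G3 : coeff 3 G = -(2/21)*J0*b0 - (2/9)*b0*b1 - (2/105)*J2 := by
    linear_combination (1 / 3 : ℝ) * g3
  have g4 := hG 3
  rw [B4, J3'] at g4
  push_cast at g4
  have G4 : coeff 4 G = -(1/42)*J0*b1 - (1/42)*J1*b0 - (1/18)*b0*b2 - (1/18)*b1^2 - (1/210)*J3 := by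
    linear_combination (1 / 4 : ℝ) * g4
  have g5 := hG 4
  rw [B5, J4'] at g5
  push_cast at g5
  have G5 : coeff 5 G = -(2/105)*J0*b0^2 - (2/45)*b0^2*b1 - (1/210)*J0*b2 - (1/105)*J1*b1 + (1/210)*J2*b0 - (1/30)*b1*b2 - (1/1050)*J4 := by
    linear_combination (1 / 5 : ℝ) * g5
  have m0 : coeff 0 (U * U) = 0 := by
    simp only [mulc, Finset.sum_range_succ, Finset.sum_range_zero, Nat.reduceAdd, Nat.reduceSub, zero_add, Nat.add_zero, Nat.sub_zero, Nat.sub_self, u0, u1, u2, u3, u4, u5, u6, u7, u8, zero_mul, mul_zero, add_zero]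
    try ring
  have m1 : coeff 1 (U * U) = 0 := by
    simp only [mulc, Finset.sum_range_succ, Finset.sum_range_zero, Nat.reduceAdd, Nat.reduceSub, zero_add, Nat.add_zero, Nat.sub_zero, Nat.sub_self, u0, u1, u2, u3, u4, u5, u6, u7, u8, zero_mul, mul_zero, add_zero]
    try ring
  have m2 : coeff 2 (U * U) = 0 := by
    simp only [mulc, Finset.sum_range_succ, Finset.sum_range_zero, Nat.reduceAdd, Nat.reduceSub, zero_add, Nat.add_zero, Nat.sub_zero, Nat.sub_self, u0, u1, u2, u3, u4, u5, u6, u7, u8, zero_mul, mul_zero, add_zero]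
    try ring
  have m3 : coeff 3 (U * U) = 0 := by
    simp only [mulc, Finset.sum_range_succ, Finset.sum_range_zero, Nat.reduceAdd, Nat.reduceSub, zero_add, Nat.add_zero, Nat.sub_zero, Nat.sub_self, u0, u1, u2, u3, u4, u5, u6, u7, u8, zero_mul, mul_zero, add_zero]
    try ring
  have m4 : coeff 4 (U * U) = 0 := by
    simp only [mulc, Finset.sum_range_succ, Finset.sum_range_zero, Nat.reduceAdd, Nat.reduceSub, zero_add, Nat.add_zero, Nat.sub_zero, Nat.sub_self, u0, u1, u2, u3, u4, u5, u6, u7, u8, zero_mul, mul_zero, add_zero]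
    try ring
  have m5 : coeff 5 (U * U) = 0 := by
    simp only [mulc, Finset.sum_range_succ, Finset.sum_range_zero, Nat.reduceAdd, Nat.reduceSub, zero_add, Nat.add_zero, Nat.sub_zero, Nat.sub_self, u0, u1, u2, u3, u4, u5, u6, u7, u8, zero_mul, mul_zero, add_zero]
    try ring
  have m6 : coeff 6 (U * U) = 0 := by
    simp only [mulc, Finset.sum_range_succ, Finset.sum_range_zero, Nat.reduceAdd, Nat.reduceSub, zero_add, Nat.add_zero, Nat.sub_zero, Nat.sub_self, u0, u1, u2, u3, u4, u5, u6, u7, u8, zero_mul, mul_zero, add_zero]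
    try ring
  have m7 : coeff 7 (U * U) = 0 := by
    simp only [mulc, Finset.sum_range_succ, Finset.sum_range_zero, Nat.reduceAdd, Nat.reduceSub, zero_add, Nat.add_zero, Nat.sub_zero, Nat.sub_self, u0, u1, u2, u3, u4, u5, u6, u7, u8, zero_mul, mul_zero, add_zero]
    try ring
  have m8 : coeff 8 (U * U) = (1/16) := by
    simp only [mulc, Finset.sum_range_succ, Finset.sum_range_zero, Nat.reduceAdd, Nat.reduceSub, zero_add, Nat.add_zero, Nat.sub_zero, Nat.sub_self, u0, u1, u2, u3, u4, u5, u6, u7, u8, zero_mul, mul_zero, add_zero]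
    try ring
  have m9 : coeff 9 (U * U) = 0 := by
    simp only [mulc, Finset.sum_range_succ, Finset.sum_range_zero, Nat.reduceAdd, Nat.reduceSub, zero_add, Nat.add_zero, Nat.sub_zero, Nat.sub_self, u0, u1, u2, u3, u4, u5, u6, u7, u8, zero_mul, mul_zero, add_zero]
    try ring
  have m10 : coeff 10 (U * U) = (1/48)*b0 := by
    simp only [mulc, Finset.sum_range_succ, Finset.sum_range_zero, Nat.reduceAdd, Nat.reduceSub, zero_add, Nat.add_zero, Nat.sub_zero, Nat.sub_self, u0, u1, u2, u3, u4, u5, u6, u7, u8, zero_mul, mul_zero, add_zero]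
    try ring
  have m11 : coeff 11 (U * U) = (1/96)*b1 := by
    simp only [mulc, Finset.sum_range_succ, Finset.sum_range_zero, Nat.reduceAdd, Nat.reduceSub, zero_add, Nat.add_zero, Nat.sub_zero, Nat.sub_self, u0, u1, u2, u3, u4, u5, u6, u7, u8, zero_mul, mul_zero, add_zero]
    try ring
  have m12 : coeff 12 (U * U) = (19/5760)*b0^2 + (1/320)*b2 := by
    simp only [mulc, Finset.sum_range_succ, Finset.sum_range_zero, Nat.reduceAdd, Nat.reduceSub, zero_add, Nat.add_zero, Nat.sub_zero, Nat.sub_self, u0, u1, u2, u3, u4, u5, u6, u7, u8, zero_mul, mul_zero, add_zero]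
    try ring
  generalize U * U = M at *
  have e := congrArg (coeff 13) hE
  simp only [mulc, Finset.sum_range_succ, Finset.sum_range_zero, Nat.reduceAdd, Nat.reduceSub, zero_add, Nat.add_zero, Nat.sub_zero, Nat.sub_self, n0, n1, n2, n3, n4, n5, n6, n7, n8, n9, n10, q0, q1, q2, q3, q4, q5, q6, q7, m0, m1, m2, m3, m4, m5, m6, m7, m8, m9, m10, m11, m12, G0, G1, G2, G3, G4, G5, zero_mul, mul_zero, add_zero] at e
  linear_combination (2116800) * e

end Pool.Agent.W5h10.TL
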