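import Pool.Agent.W5h10.TL.Sys

/-!
# Frames and the formal system
-/

set_option autoImplicit false

open Filter Topology PowerSeries
open scoped ContDiff

namespace Pool.Agent.W5h10.TL

open Pool.Agent.W5h70.PG (HD Dm Dm_smooth Dm_hd det3 cramer f0 f1 f2)

section ser

variable {μ f g : ℝ → ℝ}

theorem Dm_of_HD (hμ : ∀ t, μ t ≠ 0) (h : HD (fun t => (μ t)⁻¹) f g) : Dm μ f = g := by
  funext t
  unfold Dm
  rw [(h t).deriv, smul_smul, mul_inv_cancel₀ (hμ t), one_smul]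

theorem ser_d (hμ : ∀ t, μ t ≠ 0) (h : HD (fun t => (μ t)⁻¹) f g) (t : ℝ) :
    d⁄dX ℝ (ser μ f t) = ser μ g t := by
  ext n
  unfold ser
  rw [coeff_derivative, coeff_mk, coeff_mk, Function.iterate_succ_apply, Dm_of_HD hμ h,
    Nat.factorial_succ]
  push_cast
  have h1 : (n.factorial : ℝ) ≠ 0 := by positivity
  have h2 : (n : ℝ) + 1 ≠ 0 := by positivity
  field_simp

theorem c0_mul (F G : ℝ⟦X⟧) : coeff 0 (F * G) = coeff 0 F * coeff 0 G := by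
  rw [coeff_zero_eq_constantCoeff, map_mul]

theorem c0_C (r : ℝ) : coeff 0 (C r : ℝ⟦X⟧) = r := by
  rw [coeff_zero_eq_constantCoeff, constantCoeff_C]

theorem ser_one (t : ℝ) : coeff 1 (ser μ f t) = Dm μ f t := by
  unfold ser
  rw [coeff_mk]
  simp

theorem ser_two (t : ℝ) : coeff 2 (ser μ f t) = Dm μ (Dm μ f) t / 2 := by
  unfold ser
  rw [coeff_mk]
  simp [Function.iterate_succ]

end ser

/-- Normalised frame of a curve in the projective plane. -/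
structure Frm (μ : ℝ → ℝ) (v0 v1 v2 : ℝ → Fin 3 → ℝ) (b c : ℝ → ℝ) : Prop where
  μ_pos : ∀ t, 0 < μ t
  sμ : ContDiff ℝ ∞ μ
  s0 : ContDiff ℝ ∞ v0
  s1 : ContDiff ℝ ∞ v1
  s2 : ContDiff ℝ ∞ v2
  sb : ContDiff ℝ ∞ b
  sc : ContDiff ℝ ∞ c
  det : ∀ t, det3 (v0 t) (v1 t) (v2 t) = 1
  d0 : HD (fun t => (μ t)⁻¹) v0 v1
  d1 : HD (fun t => (μ t)⁻¹) v1 v2
  d2 : HD (fun t => (μ t)⁻¹) v2 (fun t => b t • v1 t + c t • v0 t)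

namespace Frm

variable {μ : ℝ → ℝ} {v0 v1 v2 : ℝ → Fin 3 → ℝ} {b c : ℝ → ℝ}

theorem μ_ne (H : Frm μ v0 v1 v2 b c) (t : ℝ) : μ t ≠ 0 := (H.μ_pos t).ne'

/-- the cubic form -/
noncomputable def J (μ b c : ℝ → ℝ) (t : ℝ) : ℝ := c t - 1 / 2 * Dm μ b t

theorem sJ (H : Frm μ v0 v1 v2 b c) : ContDiff ℝ ∞ (J μ b c) :=
  H.sc.sub (contDiff_const.mul (Dm_smooth H.sμ H.sb))

theorem hd (H : Frm μ v0 v1 v2 b c) {f : ℝ → ℝ} (hf : ContDiff ℝ ∞ f) :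
    HD (fun t => (μ t)⁻¹) f (Dm μ f) := Dm_hd H.μ_ne hf

theorem lin_hd (φ : (Fin 3 → ℝ) →ₗ[ℝ] ℝ) {ν : ℝ → ℝ} {f g : ℝ → Fin 3 → ℝ} (h : HD ν f g) :
    HD ν (fun t => φ (f t)) (fun t => φ (g t)) := fun t => by
  have h1 := (LinearMap.toContinuousLinearMap φ).hasFDerivAt.comp_hasDerivAt t (h t)
  rw [map_smul] at h1
  exact h1

theorem lin_smooth (φ : (Fin 3 → ℝ) →ₗ[ℝ] ℝ) {f : ℝ → Fin 3 → ℝ} (h : ContDiff ℝ ∞ f) :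
    ContDiff ℝ ∞ (fun t => φ (f t)) :=
  (LinearMap.toContinuousLinearMap φ).contDiff.comp h

variable (φ ψ : (Fin 3 → ℝ) →ₗ[ℝ] ℝ)

theorem l2 (H : Frm μ v0 v1 v2 b c) : HD (fun t => (μ t)⁻¹) (fun t => φ (v2 t))
    (fun t => b t * φ (v1 t) + c t * φ (v0 t)) :=
  (lin_hd φ H.d2).congr (fun _ => rfl) (fun t => by simp)

/-- the series of `φ ∘ v0` -/
theorem serφ (H : Frm μ v0 v1 v2 b c) (t : ℝ) :
    d⁄dX ℝ (d⁄dX ℝ (d⁄dX ℝ (ser μ (fun t => φ (v0 t)) t))) =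
      ser μ b t * d⁄dX ℝ (ser μ (fun t => φ (v0 t)) t) +
      (C (1 / 2 : ℝ) * d⁄dX ℝ (ser μ b t) + ser μ (J μ b c) t) * ser μ (fun t => φ (v0 t)) t := by
  have hν : ∀ t, (μ t)⁻¹ ≠ 0 := fun t => inv_ne_zero (H.μ_ne t)
  have T0 := ser_tay H.μ_ne H.sμ (lin_smooth φ H.s0)
  have Tb := ser_tay H.μ_ne H.sμ H.sb
  have TJ := ser_tay H.μ_ne H.sμ H.sJ
  refine Tay.ext hν T0.deriv.deriv.deriv
    ((Tb.mul T0.deriv).add ((((Tay.const _).mul Tb.deriv).add TJ).mul T0)) (fun s => ?_) t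
  rw [map_add, c0_mul, c0_mul, map_add, c0_mul, c0_C]
  rw [ser_d H.μ_ne (lin_hd φ H.d0), ser_d H.μ_ne (lin_hd φ H.d1), ser_d H.μ_ne (H.l2 φ),
    ser_d H.μ_ne (H.hd H.sb)]
  simp only [ser_zero, J]
  ring

/-- minors -/
def mn (φ ψ : (Fin 3 → ℝ) →ₗ[ℝ] ℝ) (u v : ℝ → Fin 3 → ℝ) (t : ℝ) : ℝ :=
  φ (u t) * ψ (v t) - φ (v t) * ψ (u t)

theorem mn_smooth {u v : ℝ → Fin 3 → ℝ} (hu : ContDiff ℝ ∞ u) (hv : ContDiff ℝ ∞ v) :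
    ContDiff ℝ ∞ (mn φ ψ u v) :=
  ((lin_smooth φ hu).mul (lin_smooth ψ hv)).sub ((lin_smooth φ hv).mul (lin_smooth ψ hu))

theorem m0 (H : Frm μ v0 v1 v2 b c) : HD (fun t => (μ t)⁻¹) (mn φ ψ v0 v1) (mn φ ψ v0 v2) :=
  (((lin_hd φ H.d0).mul (lin_hd ψ H.d1)).sub ((lin_hd φ H.d1).mul (lin_hd ψ H.d0))).congr
    (fun _ => rfl) (fun t => by unfold mn; ring)

theorem m1 (H : Frm μ v0 v1 v2 b c) : HD (fun t => (μ t)⁻¹) (mn φ ψ v0 v2)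
    (fun t => mn φ ψ v1 v2 t + b t * mn φ ψ v0 v1 t) :=
  (((lin_hd φ H.d0).mul (H.l2 ψ)).sub ((H.l2 φ).mul (lin_hd ψ H.d0))).congr
    (fun _ => rfl) (fun t => by unfold mn; ring)

theorem m2 (H : Frm μ v0 v1 v2 b c) : HD (fun t => (μ t)⁻¹) (mn φ ψ v1 v2)
    (fun t => -c t * mn φ ψ v0 v1 t) :=
  (((lin_hd φ H.d1).mul (H.l2 ψ)).sub ((H.l2 φ).mul (lin_hd ψ H.d1))).congr
    (fun _ => rfl) (fun t => by unfold mn; ring)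

theorem m12 (H : Frm μ v0 v1 v2 b c) : HD (fun t => (μ t)⁻¹)
    (fun t => mn φ ψ v1 v2 t + b t * mn φ ψ v0 v1 t)
    (fun t => b t * mn φ ψ v0 v2 t + (Dm μ b t - c t) * mn φ ψ v0 v1 t) :=
  ((H.m2 φ ψ).add ((H.hd H.sb).mul (H.m0 φ ψ))).congr (fun _ => rfl) (fun t => by ring)

theorem serm (H : Frm μ v0 v1 v2 b c) (t : ℝ) :
    d⁄dX ℝ (d⁄dX ℝ (d⁄dX ℝ (ser μ (mn φ ψ v0 v1) t))) =
      ser μ b t * d⁄dX ℝ (ser μ (mn φ ψ v0 v1) t) +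
      (C (1 / 2 : ℝ) * d⁄dX ℝ (ser μ b t) - ser μ (J μ b c) t) * ser μ (mn φ ψ v0 v1) t := by
  have hν : ∀ t, (μ t)⁻¹ ≠ 0 := fun t => inv_ne_zero (H.μ_ne t)
  have T0 := ser_tay H.μ_ne H.sμ (mn_smooth φ ψ H.s0 H.s1)
  have Tb := ser_tay H.μ_ne H.sμ H.sb
  have TJ := ser_tay H.μ_ne H.sμ H.sJ
  refine Tay.ext hν T0.deriv.deriv.deriv
    ((Tb.mul T0.deriv).add ((((Tay.const _).mul Tb.deriv).sub TJ).mul T0)) (fun s => ?_) t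
  rw [map_add, c0_mul, c0_mul, map_sub, c0_mul, c0_C]
  rw [ser_d H.μ_ne (H.m0 φ ψ), ser_d H.μ_ne (H.m1 φ ψ), ser_d H.μ_ne (H.m12 φ ψ),
    ser_d H.μ_ne (H.hd H.sb)]
  simp only [ser_zero, J]
  ring

/-- the coordinates with respect to the frame at `s` -/
theorem sys (H : Frm μ v0 v1 v2 b c) (s : ℝ) :
    Sys (ser μ b s) (ser μ (J μ b c) s) (ser μ (fun t => f2 (v0 s) (v1 s) (v0 t)) s)
      (ser μ (mn (f1 (v0 s) (v2 s)) (f2 (v0 s) (v1 s)) v0 v1) s)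
      (ser μ (mn (f0 (v1 s) (v2 s)) (f2 (v0 s) (v1 s)) v0 v1) s) := by
  have hd := H.det s
  have a0 : ∀ x, f0 (v1 s) (v2 s) x = det3 x (v1 s) (v2 s) := fun _ => rfl
  have a1 : ∀ x, f1 (v0 s) (v2 s) x = det3 (v0 s) x (v2 s) := fun _ => rfl
  have a2 : ∀ x, f2 (v0 s) (v1 s) x = det3 (v0 s) (v1 s) x := fun _ => rfl
  have p00 : det3 (v0 s) (v1 s) (v0 s) = 0 := by unfold det3; ring
  have p01 : det3 (v0 s) (v1 s) (v1 s) = 0 := by unfold det3; ring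
  have p02 : det3 (v0 s) (v0 s) (v2 s) = 0 := by unfold det3; ring
  have p03 : det3 (v0 s) (v2 s) (v2 s) = 0 := by unfold det3; ring
  have p04 : det3 (v1 s) (v1 s) (v2 s) = 0 := by unfold det3; ring
  have p05 : det3 (v2 s) (v1 s) (v2 s) = 0 := by unfold det3; ring
  refine ⟨H.serφ _ s, H.serm _ _ s, H.serm _ _ s, ?_, ?_, ?_, ?_, ?_, ?_, ?_, ?_, ?_⟩
  · rw [ser_zero, a2, p00]
  · rw [ser_one, Dm_of_HD H.μ_ne (lin_hd _ H.d0)]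
    exact p01
  · rw [ser_two, Dm_of_HD H.μ_ne (lin_hd _ H.d0), Dm_of_HD H.μ_ne (lin_hd _ H.d1)]
    show det3 (v0 s) (v1 s) (v2 s) / 2 = 1 / 2
    rw [hd]
  · rw [ser_zero]
    simp only [mn, a1, a2, p00, p01, p02, hd]
    ring
  · rw [ser_one, Dm_of_HD H.μ_ne (H.m0 _ _)]
    simp only [mn, a1, a2, p00, p01, p02, p03, hd]
    ring
  · rw [ser_two, Dm_of_HD H.μ_ne (H.m0 _ _), Dm_of_HD H.μ_ne (H.m1 _ _)]
    simp only [mn, a1, a2, p00, p01, p02, p03, hd]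
    ring
  · rw [ser_zero]
    simp only [mn, a0, a2, p00, p01, p04, hd]
    ring
  · rw [ser_one, Dm_of_HD H.μ_ne (H.m0 _ _)]
    simp only [mn, a0, a2, p00, p01, p04, p05, hd]
    ring
  · rw [ser_two, Dm_of_HD H.μ_ne (H.m0 _ _), Dm_of_HD H.μ_ne (H.m1 _ _)]
    simp only [mn, a0, a2, p00, p01, p04, p05, hd]
    ring

end Frm

end Pool.Agent.W5h10.TL
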