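import Pool.Agent.W5h10.TL.Curve

/-!
# The main theorem
-/

set_option autoImplicit false

open Filter Topology PowerSeries
open scoped ContDiff

namespace Pool.Agent.W5h10.TL

open Pool.Agent.W5h70.PG (HD Dm Dm_smooth Dm_hd Dm_per det3 det3_smooth cramer f0 f1 f2
  periodic_extrema)

/-- projectivity of all involutions, unfolded -/
def PInv (p : ℝ → Fin 3 → ℝ) (A B C : ℝ → ℝ) : Prop :=
  ∀ s : ℝ, ∃ κ ε : ℝ, 0 < ε ∧ ∀ t τ x y r : ℝ, |t - s| < ε → 0 < τ → τ < ε → 0 < x → x < ε →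
    0 < y → y < ε → 0 < r → p t + τ • deriv p t = r • (p s - y • deriv p s) →
    A s / x ^ 2 + 2 * B s / x + C s = A t / τ ^ 2 + 2 * B t / τ + C t → 1 / x - 1 / y = κ

theorem label {A B C μ ρ x : ℝ} (hμ : 0 < μ) (hA : μ ^ 2 = A) (hx : 0 < x)
    (_ : 1 + x * ρ ≠ 0) :
    A / (x * μ / (1 + x * ρ)) ^ 2 + 2 * B / (x * μ / (1 + x * ρ)) + C =
      (1 / x + (ρ + B / μ)) ^ 2 + (C - (B / μ) ^ 2) := by
  rw [← hA]
  have hμ' := hμ.ne'
  have hx' := hx.ne'
  field_simp
  ring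

namespace Cu

variable {A B C : ℝ → ℝ} {p : ℝ → Fin 3 → ℝ} {L σ : ℝ}

theorem nproj (h : Cu A p L σ) (hp : PInv p A B C) (s : ℝ) : ∃ κ ε : ℝ, 0 < ε ∧
    ∀ t τ x y l : ℝ, s - ε < t → t < s → 0 < τ → τ < ε → 0 < x → x < ε → 0 < y → y < ε →
      0 < l → w0 A p σ t + τ • w1 A p σ t = l • (w0 A p σ s - y • w1 A p σ s) →
      (1 / x + (rho A p σ s + B s / mu A s)) ^ 2 + (C s - (B s / mu A s) ^ 2) =
        (1 / τ + (rho A p σ t + B t / mu A t)) ^ 2 + (C t - (B t / mu A t) ^ 2) →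
      1 / x - 1 / y = κ := by
  obtain ⟨κ, ε, hε, H⟩ := hp s
  have cρ := h.rho_smooth.continuous
  have cμ := h.mu_smooth.continuous
  have e1 : ∀ᶠ t in 𝓝 s, |rho A p σ t| < |rho A p σ s| + 1 :=
    (cρ.abs.tendsto s).eventually (gt_mem_nhds (by linarith))
  have e2 : ∀ᶠ t in 𝓝 s, mu A t < mu A s + 1 :=
    (cμ.tendsto s).eventually (gt_mem_nhds (by linarith))
  obtain ⟨δ, hδ, hball⟩ := Metric.eventually_nhds_iff.1 (e1.and e2)
  set R := |rho A p σ s| + 1 with hR
  set M := mu A s + 1 with hM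
  have hR0 : 0 < R := by positivity
  have hμs := h.mu_pos s
  have hM0 : 0 < M := by positivity
  have hME : 0 < M / ε := div_pos hM0 hε
  obtain ⟨K, hK⟩ : ∃ K, K = R + M / ε + 1 := ⟨_, rfl⟩
  have hK0 : 0 < K := by rw [hK]; positivity
  refine ⟨κ * mu A s - 2 * rho A p σ s, min (min δ ε) (1 / K), by positivity, ?_⟩
  intro t τ x y l h1 h2 h3 h4 h5 h6 h7 h8 h9 h10 h11
  rw [lt_min_iff, lt_min_iff] at h4 h6 h8
  have hts : |t - s| < min δ ε := by
    rw [abs_lt]
    have := min_le_left (min δ ε) (1 / K)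
    constructor <;> linarith
  rw [lt_min_iff] at hts
  obtain ⟨bρt, bμt⟩ := hball (by rw [Real.dist_eq]; exact hts.1)
  have bρs : |rho A p σ s| < R := by rw [hR]; linarith
  have bμs : mu A s < M := by rw [hM]; linarith
  -- general estimate
  have est : ∀ z ρ m : ℝ, 0 < z → z < 1 / K → |ρ| < R → 0 < m → m < M →
      0 < 1 + z * ρ ∧ 0 < z * m / (1 + z * ρ) ∧ z * m / (1 + z * ρ) < ε := by
    intro z ρ m a1 a2 a3 a4 a5
    have b1 : z * K < 1 := by rwa [lt_div_iff₀ hK0] at a2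
    have b2 : -R < ρ := (abs_lt.1 a3).1
    have b3 : z * (R + M / ε + 1) < 1 := by rwa [hK] at b1
    have b4 : 0 < z * (M / ε) := mul_pos a1 hME
    have b5 : z * (-R) < z * ρ := mul_lt_mul_of_pos_left b2 a1
    have b6 : z * (M / ε) < 1 + z * ρ := by nlinarith
    have b7 : 0 < 1 + z * ρ := b4.trans b6
    refine ⟨b7, by positivity, ?_⟩
    rw [div_lt_iff₀ b7]
    have b8 : z * M < ε * (1 + z * ρ) := by
      have := mul_lt_mul_of_pos_left b6 hε
      have e : ε * (z * (M / ε)) = z * M := by field_simp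
      linarith
    have b9 : z * m < z * M := mul_lt_mul_of_pos_left a5 a1
    linarith
  obtain ⟨c1, c2, c3⟩ := est τ (rho A p σ t) (mu A t) h3 h4.2 bρt (h.mu_pos t) bμt
  obtain ⟨d1, d2, d3⟩ := est x (rho A p σ s) (mu A s) h5 h6.2 bρs hμs bμs
  obtain ⟨g1, g2, g3⟩ := est y (-rho A p σ s) (mu A s) h7 h8.2 (by rwa [abs_neg]) hμs bμs
  have hla := h.la_div s t
  have hlt := h.la_ne t
  have hls := h.la_ne s
  have hv : p t + (τ * mu A t / (1 + τ * rho A p σ t)) • deriv p t =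
      (l * (la A p σ s / la A p σ t) * ((1 + y * -rho A p σ s) / (1 + τ * rho A p σ t))) •
        (p s - (y * mu A s / (1 + y * -rho A p σ s)) • deriv p s) := by
    have k1 := h.w_pt t τ c1.ne'
    have k2 := h.w_pt s (-y) (by rw [neg_mul, ← mul_neg]; exact g1.ne')
    rw [neg_smul, ← sub_eq_add_neg] at k2
    rw [k1, k2, show (1 : ℝ) + -y * rho A p σ s = 1 + y * -rho A p σ s by ring,
      show -y * mu A s / (1 + y * -rho A p σ s) = -(y * mu A s / (1 + y * -rho A p σ s)) by ring,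
      neg_smul, ← sub_eq_add_neg, smul_smul] at h10
    have hne : la A p σ t * (1 + τ * rho A p σ t) ≠ 0 := mul_ne_zero hlt c1.ne'
    refine smul_right_injective _ hne ?_
    show (la A p σ t * (1 + τ * rho A p σ t)) • _ = (la A p σ t * (1 + τ * rho A p σ t)) • _
    rw [h10, smul_smul]
    congr 1
    field_simp
  have hlab : A s / (x * mu A s / (1 + x * rho A p σ s)) ^ 2 +
      2 * B s / (x * mu A s / (1 + x * rho A p σ s)) + C s =
      A t / (τ * mu A t / (1 + τ * rho A p σ t)) ^ 2 +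
      2 * B t / (τ * mu A t / (1 + τ * rho A p σ t)) + C t := by
    rw [label hμs (h.mu_sq s) h5 d1.ne', label (h.mu_pos t) (h.mu_sq t) h3 c1.ne']
    exact h11
  have key := H t (τ * mu A t / (1 + τ * rho A p σ t)) (x * mu A s / (1 + x * rho A p σ s))
    (y * mu A s / (1 + y * -rho A p σ s))
    (l * (la A p σ s / la A p σ t) * ((1 + y * -rho A p σ s) / (1 + τ * rho A p σ t)))
    hts.2 c2 c3 d2 d3 g2 g3 (mul_pos (mul_pos h9 hla) (div_pos g1 c1)) hv hlab
  have hμ' := hμs.ne'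
  have hx' := h5.ne'
  have hy' := h7.ne'
  have k1 : 1 / (x * mu A s / (1 + x * rho A p σ s)) = (1 / x + rho A p σ s) / mu A s := by
    field_simp
  have k2 : 1 / (y * mu A s / (1 + y * -rho A p σ s)) = (1 / y - rho A p σ s) / mu A s := by
    field_simp
    ring
  rw [k1, k2] at key
  have k3 : (1 / x + rho A p σ s) / mu A s - (1 / y - rho A p σ s) / mu A s =
      (1 / x - 1 / y + 2 * rho A p σ s) / mu A s := by ring
  rw [k3, div_eq_iff hμ'] at key
  linarith

theorem main (h : Cu A p L σ) (sB : ContDiff ℝ ∞ B) (sC : ContDiff ℝ ∞ C)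
    (pB : ∀ t, B (t + L) = B t) (pC : ∀ t, C (t + L) = C t) (hp : PInv p A B C) :
    ∃ x y l : (Fin 3 → ℝ) →ₗ[ℝ] ℝ, LinearIndependent ℝ ![x, y, l] ∧
      (∀ t, l (p t) ≠ 0 ∧ x (p t) ^ 2 + y (p t) ^ 2 = l (p t) ^ 2) ∧
      ∃ (a b c g₁ ε : ℝ) (f : ℝ → ℝ), 0 < ε ∧ StrictMonoOn f (Set.Ici g₁) ∧
        ∀ t s g : ℝ, 0 < s → s < ε → A t / s ^ 2 + 2 * B t / s + C t = g →
          g₁ ≤ g ∧ a < f g ∧ b < f g ∧ -c < f g ∧ l (p t + s • deriv p t) ≠ 0 ∧
          (f g - a) * x (p t + s • deriv p t) ^ 2 + (f g - b) * y (p t + s • deriv p t) ^ 2 =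
            (f g + c) * l (p t + s • deriv p t) ^ 2 := by
  obtain ⟨b, c, H, pb, pc⟩ := h.exists_frame
  have sμ := h.mu_smooth
  have hμ := h.mu_ne
  have hν : ∀ t, (mu A t)⁻¹ ≠ 0 := fun t => inv_ne_zero (hμ t)
  obtain ⟨E, hE⟩ : ∃ E : ℝ → ℝ, E = fun t => rho A p σ t + B t / mu A t := ⟨_, rfl⟩
  obtain ⟨G, hG⟩ : ∃ G : ℝ → ℝ, G = fun t => C t - (B t / mu A t) ^ 2 := ⟨_, rfl⟩
  have sE : ContDiff ℝ ∞ E := by rw [hE]; exact h.rho_smooth.add (sB.div sμ hμ)
  have sG : ContDiff ℝ ∞ G := by rw [hG]; exact sC.sub ((sB.div sμ hμ).pow 2)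
  have Et : ∀ t, E t = rho A p σ t + B t / mu A t := fun t => by rw [hE]
  have Gt : ∀ t, G t = C t - (B t / mu A t) ^ 2 := fun t => by rw [hG]
  have hloc : ∀ s, ∃ k, Frm.Loc (w0 A p σ) (w1 A p σ) (w2 A p σ) E G s (k + E s) := by
    intro s
    obtain ⟨κ, ε, hε, hn⟩ := h.nproj hp s
    refine ⟨κ, H.loc_of sE.continuous sG.continuous hε ?_⟩
    intro t τ x y l h1 h2 h3 h4 h5 h6 h7 h8 h9 h10 h11
    refine hn t τ x y l h1 h2 h3 h4 h5 h6 h7 h8 h9 h10 ?_
    rw [← Et, ← Et, ← Gt, ← Gt]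
    exact h11
  obtain ⟨dE, dG, EG, hF⟩ := H.eqs sE sG hloc
  have hJ := H.J_zero h.L_pos h.mu_per h.w0_per h.w1_per h.w2_per pb pc hF
  have hc : ∀ t, c t = 1 / 2 * Dm (mu A) b t := fun t => by
    have := hJ t
    unfold Frm.J at this
    linarith
  have J0 : Frm.J (mu A) b c = fun _ => 0 := funext hJ
  have D0 : Dm (mu A) (fun _ : ℝ => (0 : ℝ)) = fun _ => 0 := by
    funext t
    simp [Dm]
  have hb : ∀ t, Dm (mu A) (Dm (mu A) (Dm (mu A) b)) t = 4 * b t * Dm (mu A) b t := by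
    intro t
    have h1 := congrArg (coeff 0) (hF t).1.hB
    simp only [map_add, map_sub, c0_mul, c0_C] at h1
    have sD : ∀ {f : ℝ → ℝ}, ContDiff ℝ ∞ f → ContDiff ℝ ∞ (Dm (mu A) f) :=
      fun hf => Dm_smooth sμ hf
    have dser : ∀ {f : ℝ → ℝ}, ContDiff ℝ ∞ f → ∀ t, d⁄dX ℝ (ser (mu A) f t) =
      ser (mu A) (Dm (mu A) f) t := fun hf t => ser_d hμ (Dm_hd hμ hf) t
    rw [dser H.sb, dser (sD H.sb), dser (sD (sD H.sb)), dser H.sJ, dser (sD H.sJ)] at h1
    simp only [ser_zero] at h1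
    rw [J0, D0, D0] at h1
    linarith
  have hG' : ∀ t, Dm (mu A) G t = -(1 / 3) * Dm (mu A) b t := fun t => by
    rw [dG, hJ]; ring
  obtain ⟨x, y, l, hli, a₁, b₁, c₁, hf⟩ := H.forms h.L_pos h.mu_per h.w1_per pb sG hc hb hG'
  -- constancy
  have cE : ∀ t, E t = E 0 := fun t => (Dm_hd hμ sE).const_of_zero dE t 0
  obtain ⟨e, he⟩ : ∃ e, e = E 0 := ⟨_, rfl⟩
  have cE' : ∀ t, E t = e := fun t => by rw [cE t, he]
  obtain ⟨g0, hg0⟩ : ∃ g0, g0 = G 0 := ⟨_, rfl⟩
  have cG : e ≠ 0 → ∀ t, G t = g0 := by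
    intro h1 t
    rw [hg0]
    refine (Dm_hd hμ sG).const_of_zero (fun t => ?_) t 0
    have := EG t
    rw [cE' t] at this
    exact (mul_eq_zero.1 this).resolve_left h1
  -- the point in the frame
  have pt : ∀ t s : ℝ, p t + s • deriv p t =
      ((1 - s * rho A p σ t / mu A t) / la A p σ t) • w0 A p σ t +
        (s / (la A p σ t * mu A t)) • w1 A p σ t := by
    intro t s
    rw [h.w1_rho]
    show _ = _ • (la A p σ t • p t) + _
    have h1 := h.la_ne t
    have h2 := hμ t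
    rw [smul_add, smul_smul, smul_smul, smul_smul, ← add_assoc, ← add_smul]
    have e1 : (1 - s * rho A p σ t / mu A t) / la A p σ t * la A p σ t +
      s / (la A p σ t * mu A t) * (la A p σ t * rho A p σ t) = 1 := by
      field_simp
      ring
    have e2 : s / (la A p σ t * mu A t) * (la A p σ t * mu A t) = s := by
      field_simp
    rw [e1, e2, one_smul]
  -- bounds
  have cμ := sμ.continuous
  obtain ⟨-, t₂, ht₂⟩ := periodic_extrema cμ h.L_pos h.mu_per
  have cBμ : Continuous (fun t => B t / mu A t) := (sB.div sμ hμ).continuous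
  obtain ⟨⟨t₃, ht₃⟩, -⟩ := periodic_extrema (e := fun t => |B t / mu A t|) cBμ.abs h.L_pos
    (fun t => by simp only [pB, h.mu_per])
  obtain ⟨⟨t₄, ht₄⟩, -⟩ := periodic_extrema (e := fun t => |G t|) sG.continuous.abs h.L_pos
    (fun t => by simp only [Gt, pB, pC, h.mu_per])
  obtain ⟨m, hm⟩ : ∃ m, m = mu A t₂ := ⟨_, rfl⟩
  have m0 : 0 < m := by rw [hm]; exact h.mu_pos _
  have hmt : ∀ t, m ≤ mu A t := fun t => by rw [hm]; exact ht₂ t
  obtain ⟨K, hK⟩ : ∃ K, K = |B t₃ / mu A t₃| := ⟨_, rfl⟩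
  have hKt : ∀ t, |B t / mu A t| ≤ K := fun t => by rw [hK]; exact ht₃ t
  have hK0 : 0 ≤ K := by rw [hK]; exact abs_nonneg _
  obtain ⟨K', hK'⟩ : ∃ K', K' = |G t₄| := ⟨_, rfl⟩
  have hKt' : ∀ t, |G t| ≤ K' := fun t => by rw [hK']; exact ht₄ t
  have hK0' : 0 ≤ K' := by rw [hK']; exact abs_nonneg _
  obtain ⟨N, hN⟩ : ∃ N, N = 1 + K' + |a₁| + |b₁| + |c₁| + |g0| + |e| := ⟨_, rfl⟩
  have n1 := abs_nonneg a₁
  have n2 := abs_nonneg b₁
  have n3 := abs_nonneg c₁
  have n4 := abs_nonneg g0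
  have n5 := abs_nonneg e
  have hN1 : 1 ≤ N := by rw [hN]; linarith
  have hden : 0 < N + K + |e| + 1 := by linarith
  obtain ⟨f, hfdef⟩ : ∃ f : ℝ → ℝ, f = fun g => if e = 0 then g else (√(g - g0) - e) ^ 2 + g0 :=
    ⟨_, rfl⟩
  refine ⟨x, y, l, hli, ?_, a₁, b₁, c₁, g0 + e ^ 2, m / (N + K + |e| + 1), f, by positivity,
    ?_, ?_⟩
  · intro t
    have h1 := pt t 0
    rw [zero_smul, add_zero, zero_mul, zero_div, sub_zero, zero_div] at h1
    obtain ⟨h2, h3⟩ := hf t (1 / la A p σ t) 0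
    rw [← h1] at h2 h3
    have h4 : x (p t) ^ 2 + y (p t) ^ 2 = l (p t) ^ 2 := by linear_combination h2
    refine ⟨fun h0 => ?_, h4⟩
    rw [h0] at h3 h4
    have h5 : x (p t) ^ 2 = 0 := by nlinarith [sq_nonneg (x (p t)), sq_nonneg (y (p t))]
    have h6 : y (p t) ^ 2 = 0 := by nlinarith [sq_nonneg (x (p t)), sq_nonneg (y (p t))]
    rw [h5, h6] at h3
    have h7 : (0 : ℝ) < (1 / la A p σ t) ^ 2 := by
      have := h.la_ne t
      positivity
    linarith
  · by_cases h0 : e = 0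
    · have : f = id := by rw [hfdef]; funext g; rw [if_pos h0]; rfl
      rw [this]
      exact strictMono_id.strictMonoOn _
    · intro u hu v hv huv
      rw [hfdef]
      simp only [if_neg h0]
      have hu : g0 + e ^ 2 ≤ u := hu
      have h1 : |e| ≤ √(u - g0) := Real.abs_le_sqrt (by linarith)
      have h2 : √(u - g0) < √(v - g0) := Real.sqrt_lt_sqrt (by nlinarith [sq_nonneg e]) (by linarith)
      have h3 := le_abs_self e
      have h4 : 0 ≤ √(u - g0) - e := by linarith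
      have h5 : (√(u - g0) - e) ^ 2 < (√(v - g0) - e) ^ 2 :=
        pow_lt_pow_left₀ (by linarith) h4 two_ne_zero
      linarith
  · intro t s g hs hsε hg
    have hμt := h.mu_pos t
    have hμt' := hμ t
    obtain ⟨u, hu⟩ : ∃ u, u = mu A t / s + B t / mu A t := ⟨_, rfl⟩
    have hgu : g = u ^ 2 + G t := by
      rw [← hg, hu, Gt, ← h.mu_sq t]
      field_simp
      ring
    have hub : N + |e| ≤ u := by
      have h1 : s * (N + K + |e| + 1) < m := by rwa [lt_div_iff₀ hden] at hsε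
      have h2 : s * (N + K + |e| + 1) < mu A t := h1.trans_le (hmt t)
      have h3 : N + K + |e| + 1 < mu A t / s := by
        rw [lt_div_iff₀ hs]
        linarith
      have h4 := (abs_le.1 (hKt t)).1
      rw [hu]
      linarith
    have he1 := le_abs_self e
    have hue : N ≤ u - e := by linarith
    have hGt := abs_le.1 (hKt' t)
    have hg0u : 0 ≤ u := by linarith
    -- the value of `f`
    have hfg : f g = (u - e) ^ 2 + G t := by
      rw [hfdef]
      by_cases h0 : e = 0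
      · simp only [if_pos h0]
        rw [hgu, h0, sub_zero]
      · simp only [if_neg h0]
        rw [hgu, cG h0 t, add_sub_cancel_right, Real.sqrt_sq hg0u]
    have hNf : N ≤ (u - e) ^ 2 := hue.trans (le_self_pow₀ (hN1.trans hue) two_ne_zero)
    have a1 := le_abs_self a₁
    have a2 := le_abs_self b₁
    have a3 := neg_abs_le c₁
    have f1 : a₁ < f g := by rw [hfg]; linarith
    have f2 : b₁ < f g := by rw [hfg]; linarith
    have f3 : -c₁ < f g := by rw [hfg]; linarith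
    have g1 : g0 + e ^ 2 ≤ g := by
      rw [hgu]
      by_cases h0 : e = 0
      · have hNu : N ≤ u := by linarith only [hub, n5]
        have h6 : N ≤ u ^ 2 := hNu.trans (le_self_pow₀ (hN1.trans hNu) two_ne_zero)
        have := le_abs_self g0
        rw [h0]
        linarith only [h6, this, hGt.1, hN, n1, n2, n3, n4, n5, hK0']
      · rw [cG h0 t]
        have h6 : |e| ≤ u := by linarith only [hub, hN1]
        have h7 := sq_le_sq' (by linarith only [h6, n5]) h6
        rw [sq_abs] at h7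
        linarith only [h7]
    obtain ⟨h2, h3⟩ := hf t ((1 - s * rho A p σ t / mu A t) / la A p σ t)
      (s / (la A p σ t * mu A t))
    rw [← pt t s] at h2 h3
    have hrho : rho A p σ t = e - B t / mu A t := by
      have := Et t
      rw [cE' t] at this
      linarith
    have hβ : s / (la A p σ t * mu A t) ≠ 0 :=
      div_ne_zero hs.ne' (mul_ne_zero (h.la_ne t) hμt')
    have hrat : ((1 - s * rho A p σ t / mu A t) / la A p σ t) ^ 2 + G t *
        (s / (la A p σ t * mu A t)) ^ 2 = f g * (s / (la A p σ t * mu A t)) ^ 2 := by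
      rw [hfg, hrho, hu]
      have h1 := h.la_ne t
      have hs' := hs.ne'
      have e1 : (1 - s * (e - B t / mu A t) / mu A t) / la A p σ t =
        (mu A t / s + B t / mu A t - e) * (s / (la A p σ t * mu A t)) := by
        field_simp
        ring
      rw [e1]
      ring
    have hM : (f g - a₁) * x (p t + s • deriv p t) ^ 2 +
        (f g - b₁) * y (p t + s • deriv p t) ^ 2 = (f g + c₁) * l (p t + s • deriv p t) ^ 2 := by
      linear_combination f g * h2 - h3 - hrat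
    refine ⟨g1, f1, f2, f3, fun h0 => ?_, hM⟩
    rw [h0] at hM h2
    have h5 : 0 < (s / (la A p σ t * mu A t)) ^ 2 := by positivity
    have p1 : 0 < f g - a₁ := by linarith
    have p2 : 0 < f g - b₁ := by linarith
    have hx2 := sq_nonneg (x (p t + s • deriv p t))
    have hy2 := sq_nonneg (y (p t + s • deriv p t))
    have q1 : (f g - a₁) * x (p t + s • deriv p t) ^ 2 ≤ 0 := by
      have := mul_nonneg p2.le hy2
      linarith
    have q2 : (f g - b₁) * y (p t + s • deriv p t) ^ 2 ≤ 0 := by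
      have := mul_nonneg p1.le hx2
      linarith
    have q3 : x (p t + s • deriv p t) ^ 2 ≤ 0 := by
      by_contra hcon
      push Not at hcon
      have := mul_pos p1 hcon
      linarith
    have q4 : y (p t + s • deriv p t) ^ 2 ≤ 0 := by
      by_contra hcon
      push Not at hcon
      have := mul_pos p2 hcon
      linarith
    have r1 : x (p t + s • deriv p t) ^ 2 = 0 := le_antisymm q3 hx2
    have r2 : y (p t + s • deriv p t) ^ 2 = 0 := le_antisymm q4 hy2
    rw [r1, r2] at h2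
    rw [← h2] at h5
    norm_num at h5

end Cu

end Pool.Agent.W5h10.TL
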