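import Pool.Agent.W5h10.TL.Core

/-!
# The cubic form vanishes
-/

set_option autoImplicit false

open Filter Topology PowerSeries
open scoped ContDiff

namespace Pool.Agent.W5h10.TL

open Pool.Agent.W5h70.PG (HD Dm Dm_smooth Dm_hd Dm_per det3 cramer f0 f1 f2 zero_of_periodic
  periodic_extrema)

/-- a solution of a linear equation of order four with vanishing initial values vanishes -/
theorem lin4 {ν y0 y1 y2 y3 α0 α1 α2 : ℝ → ℝ} (hν : ∀ t, 0 < ν t) (h0 : HD ν y0 y1)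
    (h1 : HD ν y1 y2) (h2 : HD ν y2 y3)
    (h3 : HD ν y3 (fun t => α0 t * y0 t + α1 t * y1 t + α2 t * y2 t)) {K : ℝ}
    (hK : ∀ t, ν t * (3 + |α0 t| + |α1 t| + |α2 t|) ≤ K) {t₀ : ℝ} (i0 : y0 t₀ = 0)
    (i1 : y1 t₀ = 0) (i2 : y2 t₀ = 0) (i3 : y3 t₀ = 0) (t : ℝ) : y0 t = 0 := by
  obtain ⟨e, he⟩ : ∃ e : ℝ → ℝ, e = fun t => y0 t ^ 2 + y1 t ^ 2 + y2 t ^ 2 + y3 t ^ 2 := ⟨_, rfl⟩
  obtain ⟨e', he'⟩ : ∃ e' : ℝ → ℝ, e' = fun t => ν t * (2 * (y0 t * y1 t) + 2 * (y1 t * y2 t) +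
    2 * (y2 t * y3 t) + 2 * (y3 t * (α0 t * y0 t + α1 t * y1 t + α2 t * y2 t))) := ⟨_, rfl⟩
  have hd : ∀ t, HasDerivAt e (e' t) t := by
    intro t
    rw [he, he']
    refine ((((h0 t).fun_pow 2).fun_add ((h1 t).fun_pow 2)).fun_add ((h2 t).fun_pow 2)).fun_add
      ((h3 t).fun_pow 2) |>.congr_deriv ?_
    simp only [smul_eq_mul]
    push_cast
    ring
  have e0 : ∀ t, 0 ≤ e t := fun t => by rw [he]; positivity
  have bd : ∀ t, |e' t| ≤ K * e t := by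
    intro t
    have key : ∀ a b : ℝ, |2 * (a * b)| ≤ a ^ 2 + b ^ 2 := fun a b => by
      rw [abs_le]
      constructor <;> nlinarith [sq_nonneg (a + b), sq_nonneg (a - b)]
    have b1 : |2 * (y0 t * y1 t)| ≤ e t := by
      rw [he]; nlinarith [key (y0 t) (y1 t), sq_nonneg (y2 t), sq_nonneg (y3 t)]
    have b2 : |2 * (y1 t * y2 t)| ≤ e t := by
      rw [he]; nlinarith [key (y1 t) (y2 t), sq_nonneg (y0 t), sq_nonneg (y3 t)]
    have b3 : |2 * (y2 t * y3 t)| ≤ e t := by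
      rw [he]; nlinarith [key (y2 t) (y3 t), sq_nonneg (y0 t), sq_nonneg (y1 t)]
    have c0 : |2 * (y3 t * y0 t)| ≤ e t := by
      rw [he]; nlinarith [key (y3 t) (y0 t), sq_nonneg (y1 t), sq_nonneg (y2 t)]
    have c1 : |2 * (y3 t * y1 t)| ≤ e t := by
      rw [he]; nlinarith [key (y3 t) (y1 t), sq_nonneg (y0 t), sq_nonneg (y2 t)]
    have c2 : |2 * (y3 t * y2 t)| ≤ e t := by
      rw [he]; nlinarith [key (y3 t) (y2 t), sq_nonneg (y0 t), sq_nonneg (y1 t)]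
    have d0 : |α0 t * (2 * (y3 t * y0 t))| ≤ |α0 t| * e t := by
      rw [abs_mul]; exact mul_le_mul_of_nonneg_left c0 (abs_nonneg _)
    have d1 : |α1 t * (2 * (y3 t * y1 t))| ≤ |α1 t| * e t := by
      rw [abs_mul]; exact mul_le_mul_of_nonneg_left c1 (abs_nonneg _)
    have d2 : |α2 t * (2 * (y3 t * y2 t))| ≤ |α2 t| * e t := by
      rw [abs_mul]; exact mul_le_mul_of_nonneg_left c2 (abs_nonneg _)
    have h4 : |2 * (y0 t * y1 t) + 2 * (y1 t * y2 t) + 2 * (y2 t * y3 t) +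
        2 * (y3 t * (α0 t * y0 t + α1 t * y1 t + α2 t * y2 t))| ≤
        (3 + |α0 t| + |α1 t| + |α2 t|) * e t := by
      have e1 : 2 * (y0 t * y1 t) + 2 * (y1 t * y2 t) + 2 * (y2 t * y3 t) +
        2 * (y3 t * (α0 t * y0 t + α1 t * y1 t + α2 t * y2 t)) =
        2 * (y0 t * y1 t) + 2 * (y1 t * y2 t) + 2 * (y2 t * y3 t) +
        α0 t * (2 * (y3 t * y0 t)) + α1 t * (2 * (y3 t * y1 t)) +
        α2 t * (2 * (y3 t * y2 t)) := by ring
      rw [e1]
      rw [abs_le] at b1 b2 b3 d0 d1 d2 ⊢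
      constructor <;> linarith [b1.1, b2.1, b3.1, d0.1, d1.1, d2.1, b1.2, b2.2, b3.2, d0.2, d1.2,
        d2.2]
    have h5 : |e' t| ≤ ν t * ((3 + |α0 t| + |α1 t| + |α2 t|) * e t) := by
      rw [he']
      show |ν t * _| ≤ _
      rw [abs_mul, abs_of_pos (hν t)]
      exact mul_le_mul_of_nonneg_left h4 (hν t).le
    calc |e' t| ≤ ν t * ((3 + |α0 t| + |α1 t| + |α2 t|) * e t) := h5
      _ = (ν t * (3 + |α0 t| + |α1 t| + |α2 t|)) * e t := by ring
      _ ≤ K * e t := mul_le_mul_of_nonneg_right (hK t) (e0 t)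
  have ez : e t₀ = 0 := by rw [he]; simp [i0, i1, i2, i3]
  have hexp : ∀ r t, HasDerivAt (fun t : ℝ => Real.exp (r * t)) (Real.exp (r * t) * r) t :=
    fun r t => by
      have := ((hasDerivAt_id t).const_mul r).exp
      simpa using this
  have hm : Monotone fun t => e t * Real.exp (K * t) := by
    refine monotone_of_hasDerivAt_nonneg (f' := fun t => e' t * Real.exp (K * t) +
      e t * (Real.exp (K * t) * K)) (fun t => (hd t).mul (hexp K t)) (fun t => ?_)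
    have h4 := (abs_le.1 (bd t)).1
    have h5 := Real.exp_pos (K * t)
    show 0 ≤ e' t * Real.exp (K * t) + e t * (Real.exp (K * t) * K)
    nlinarith
  have ha : Antitone fun t => e t * Real.exp (-K * t) := by
    refine antitone_of_hasDerivAt_nonpos (f' := fun t => e' t * Real.exp (-K * t) +
      e t * (Real.exp (-K * t) * -K)) (fun t => (hd t).mul (hexp (-K) t)) (fun t => ?_)
    have h4 := (abs_le.1 (bd t)).2
    have h5 := Real.exp_pos (-K * t)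
    show e' t * Real.exp (-K * t) + e t * (Real.exp (-K * t) * -K) ≤ 0
    nlinarith
  have hz : e t = 0 := by
    rcases le_total t t₀ with h4 | h4
    · have h5 := hm h4
      simp only [ez, zero_mul] at h5
      have h6 := Real.exp_pos (K * t)
      nlinarith [e0 t]
    · have h5 := ha h4
      simp only [ez, zero_mul] at h5
      have h6 := Real.exp_pos (-K * t)
      nlinarith [e0 t]
  rw [he] at hz
  have hz' : y0 t ^ 2 + y1 t ^ 2 + y2 t ^ 2 + y3 t ^ 2 = 0 := hz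
  have : y0 t ^ 2 = 0 := by
    nlinarith [sq_nonneg (y0 t), sq_nonneg (y1 t), sq_nonneg (y2 t), sq_nonneg (y3 t)]
  exact (pow_eq_zero_iff two_ne_zero).1 this

theorem sign_or {f : ℝ → ℝ} (hf : Continuous f) (h : ∀ t, f t ≠ 0) :
    (∀ t, 0 < f t) ∨ ∀ t, f t < 0 := by
  rcases lt_or_gt_of_ne (h 0) with h0 | h0
  · right
    intro t
    by_contra hcon
    push Not at hcon
    obtain ⟨s, -, hs⟩ := isPreconnected_univ.intermediate_value (Set.mem_univ (0 : ℝ))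
      (Set.mem_univ t) hf.continuousOn ⟨h0.le, hcon⟩
    exact h s hs
  · left
    intro t
    by_contra hcon
    push Not at hcon
    obtain ⟨s, -, hs⟩ := isPreconnected_univ.intermediate_value (Set.mem_univ t)
      (Set.mem_univ (0 : ℝ)) hf.continuousOn ⟨hcon, h0.le⟩
    exact h s hs

namespace Frm

variable {μ : ℝ → ℝ} {v0 v1 v2 : ℝ → Fin 3 → ℝ} {b c : ℝ → ℝ}

/-- the cubic form of a closed curve has a zero -/
theorem exists_zero (H : Frm μ v0 v1 v2 b c) {L : ℝ} (hL : 0 < L) (p0 : ∀ t, v0 (t + L) = v0 t)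
    (p1 : ∀ t, v1 (t + L) = v1 t) (p2 : ∀ t, v2 (t + L) = v2 t) (pb : ∀ t, b (t + L) = b t) :
    ∃ t, J μ b c t = 0 := by
  by_contra hcon
  push Not at hcon
  have hν : ∀ t, 0 < (μ t)⁻¹ := fun t => inv_pos.2 (H.μ_pos t)
  set φ := f0 (v1 0) (v2 0) with hφ
  have e1 : φ (v0 0) = 1 := H.det 0
  have h0 := lin_hd φ H.d0
  have h1 := lin_hd φ H.d1
  have h2 := H.l2 φ
  have hb := H.hd H.sb
  have hW : HD (fun t => (μ t)⁻¹) (fun t => φ (v0 t) * φ (v2 t) -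
      ((1 / 2 : ℝ) • (φ (v1 t) * φ (v1 t)) + (1 / 2 : ℝ) • (b t * (φ (v0 t) * φ (v0 t)))))
      (fun t => J μ b c t * φ (v0 t) ^ 2) :=
    ((h0.mul h2).sub (((h1.mul h1).const_smul (1 / 2 : ℝ)).add
      ((hb.mul (h0.mul h0)).const_smul (1 / 2 : ℝ)))).congr (fun _ => rfl) (fun t => by
        simp only [smul_eq_mul, J]
        ring)
  have hp : ∀ t, (fun t => φ (v0 t) * φ (v2 t) -
      ((1 / 2 : ℝ) • (φ (v1 t) * φ (v1 t)) + (1 / 2 : ℝ) • (b t * (φ (v0 t) * φ (v0 t))))) (t + L) =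
      (fun t => φ (v0 t) * φ (v2 t) -
      ((1 / 2 : ℝ) • (φ (v1 t) * φ (v1 t)) + (1 / 2 : ℝ) • (b t * (φ (v0 t) * φ (v0 t))))) t := by
    intro t
    simp only [p0, p1, p2, pb]
  rcases sign_or H.sJ.continuous hcon with h3 | h3
  · have := zero_of_periodic hν hW (fun t => mul_nonneg (h3 t).le (sq_nonneg _)) hL hp 0
    rw [e1, one_pow, mul_one] at this
    exact hcon 0 this
  · have hW' := (hW.const_smul (-1 : ℝ))
    have := zero_of_periodic hν hW' (fun t => by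
      have := mul_nonneg (neg_nonneg.2 (h3 t).le) (sq_nonneg (φ (v0 t)))
      simp only [smul_eq_mul]
      linarith) hL (fun t => congrArg (fun r : ℝ => (-1 : ℝ) • r) (hp t)) 0
    simp only [smul_eq_mul, e1] at this
    exact hcon 0 (by linarith)

theorem J_zero (H : Frm μ v0 v1 v2 b c) {L : ℝ} (hL : 0 < L) (pμ : ∀ t, μ (t + L) = μ t)
    (p0 : ∀ t, v0 (t + L) = v0 t) (p1 : ∀ t, v1 (t + L) = v1 t) (p2 : ∀ t, v2 (t + L) = v2 t)
    (pb : ∀ t, b (t + L) = b t) (pc : ∀ t, c (t + L) = c t)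
    (h : ∀ t, Fml (ser μ b t) (ser μ (J μ b c) t) ∧ Phi (ser μ b t) (ser μ (J μ b c) t)) (t : ℝ) :
    J μ b c t = 0 := by
  have hν : ∀ t, 0 < (μ t)⁻¹ := fun t => inv_pos.2 (H.μ_pos t)
  have sD : ∀ {f : ℝ → ℝ}, ContDiff ℝ ∞ f → ContDiff ℝ ∞ (Dm μ f) := fun hf => Dm_smooth H.sμ hf
  have dser : ∀ {f : ℝ → ℝ}, ContDiff ℝ ∞ f → ∀ t, d⁄dX ℝ (ser μ f t) = ser μ (Dm μ f) t :=
    fun hf t => ser_d H.μ_ne (H.hd hf) t
  obtain ⟨t₀, ht₀⟩ := H.exists_zero hL p0 p1 p2 pb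
  have sJ := H.sJ
  obtain ⟨z1, z2, z3⟩ := jzero (h t₀).1 (h t₀).2 (by rw [ser_zero, ht₀])
  have w1 : Dm μ (J μ b c) t₀ = 0 := by rw [← ser_one, z1]
  have w2 : Dm μ (Dm μ (J μ b c)) t₀ = 0 := by
    have := ser_two (μ := μ) (f := J μ b c) t₀
    rw [z2] at this
    linarith
  have w3 : Dm μ (Dm μ (Dm μ (J μ b c))) t₀ = 0 := by
    have h1 : coeff 0 (d⁄dX ℝ (d⁄dX ℝ (d⁄dX ℝ (ser μ (J μ b c) t₀)))) =
        Dm μ (Dm μ (Dm μ (J μ b c))) t₀ := by
      rw [dser sJ, dser (sD sJ), dser (sD (sD sJ)), ser_zero]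
    rw [← h1, coeff_derivative, coeff_derivative, coeff_derivative, z3]
    simp
  have ode : ∀ t, Dm μ (Dm μ (Dm μ (Dm μ (J μ b c)))) t =
      (126 * Dm μ (J μ b c) t + 249 / 2 * Dm μ (Dm μ b) t - 144 * b t ^ 2) * J μ b c t +
      (155 / 2 * Dm μ b t) * Dm μ (J μ b c) t + (25 * b t) * Dm μ (Dm μ (J μ b c)) t := by
    intro t
    have h1 := congrArg (coeff 0) (h t).1.hJ
    simp only [map_add, map_sub, c0_mul, c0_C] at h1
    rw [dser sJ, dser (sD sJ), dser (sD (sD sJ)), dser (sD (sD (sD sJ))), dser H.sb,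
      dser (sD H.sb)] at h1
    simp only [ser_zero] at h1
    rw [h1]
    ring
  have dp : ∀ {f : ℝ → ℝ}, (∀ t, f (t + L) = f t) → ∀ t, Dm μ f (t + L) = Dm μ f t :=
    fun hf t => Dm_per pμ hf t
  have pJ : ∀ t, J μ b c (t + L) = J μ b c t := fun t => by
    unfold J
    rw [pc, dp pb]
  have cb : Continuous b := H.sb.continuous
  have cb1 : Continuous (Dm μ b) := (sD H.sb).continuous
  have cb2 : Continuous (Dm μ (Dm μ b)) := (sD (sD H.sb)).continuous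
  have cJ1 : Continuous (Dm μ (J μ b c)) := (sD sJ).continuous
  obtain ⟨⟨t₁, ht₁⟩, -⟩ := periodic_extrema (e := fun t => (μ t)⁻¹ * (3 +
    |126 * Dm μ (J μ b c) t + 249 / 2 * Dm μ (Dm μ b) t - 144 * b t ^ 2| + |155 / 2 * Dm μ b t| +
    |25 * b t|)) (by
      refine (H.sμ.continuous.inv₀ H.μ_ne).mul ?_
      fun_prop) hL (fun t => by
      simp only [pμ, dp pJ, dp (dp pb), dp pb, pb])
  exact lin4 hν (H.hd sJ) (H.hd (sD sJ)) (H.hd (sD (sD sJ)))
    ((H.hd (sD (sD (sD sJ)))).congr (fun _ => rfl) ode) ht₁ ht₀ w1 w2 w3 t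

end Frm

end Pool.Agent.W5h10.TL
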