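import Pool.Agent.W5h10.TL.Tay

/-!
# Formal power series solutions of the linear equations
-/

set_option autoImplicit false

open PowerSeries

namespace Pool.Agent.W5h10.TL

theorem mulc (F G : ℝ⟦X⟧) (n : ℕ) :
    coeff n (F * G) = ∑ k ∈ Finset.range (n + 1), coeff k F * coeff (n - k) G := by
  rw [coeff_mul, Finset.Nat.sum_antidiagonal_eq_sum_range_succ_mk]

theorem rec3 {B S Z : ℝ⟦X⟧} (hZ : d⁄dX ℝ (d⁄dX ℝ (d⁄dX ℝ Z)) = B * d⁄dX ℝ Z + S * Z) (n : ℕ) :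
    ((n : ℝ) + 1) * (n + 2) * (n + 3) * coeff (n + 3) Z =
      ∑ k ∈ Finset.range (n + 1), (((n - k : ℕ) : ℝ) + 1) * coeff k B * coeff (n - k + 1) Z +
      ∑ k ∈ Finset.range (n + 1), coeff k S * coeff (n - k) Z := by
  have h := congrArg (coeff n) hZ
  rw [map_add, mulc, mulc, coeff_derivative, coeff_derivative, coeff_derivative] at h
  have e : (((n : ℝ) + 1) * (n + 2) * (n + 3) * coeff (n + 3) Z) =
      coeff (n + 1 + 1 + 1) Z * (((n + 1 + 1 : ℕ) : ℝ) + 1) * (((n + 1 : ℕ) : ℝ) + 1) * ((n : ℝ) + 1) := by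
    push_cast
    ring
  rw [e, h]
  congr 1
  refine Finset.sum_congr rfl fun k _ => ?_
  rw [coeff_derivative]
  ring

/-- `Z`, `W`, `V` are the Taylor series of the coordinates of a curve and of the dual curve. -/
structure Sys (B J Z W V : ℝ⟦X⟧) : Prop where
  hZ : d⁄dX ℝ (d⁄dX ℝ (d⁄dX ℝ Z)) = B * d⁄dX ℝ Z + (C (1 / 2 : ℝ) * d⁄dX ℝ B + J) * Z
  hW : d⁄dX ℝ (d⁄dX ℝ (d⁄dX ℝ W)) = B * d⁄dX ℝ W + (C (1 / 2 : ℝ) * d⁄dX ℝ B - J) * W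
  hV : d⁄dX ℝ (d⁄dX ℝ (d⁄dX ℝ V)) = B * d⁄dX ℝ V + (C (1 / 2 : ℝ) * d⁄dX ℝ B - J) * V
  Z0 : coeff 0 Z = 0
  Z1 : coeff 1 Z = 0
  Z2 : coeff 2 Z = 1 / 2
  W0 : coeff 0 W = 0
  W1 : coeff 1 W = 0
  W2 : coeff 2 W = 1 / 2
  V0 : coeff 0 V = 0
  V1 : coeff 1 V = 1
  V2 : coeff 2 V = 0

theorem cS (B J : ℝ⟦X⟧) (n : ℕ) : coeff n (C (1 / 2 : ℝ) * d⁄dX ℝ B + J) =
    ((n : ℝ) + 1) / 2 * coeff (n + 1) B + coeff n J := by
  rw [map_add, coeff_C_mul, coeff_derivative]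
  ring

theorem cT (B J : ℝ⟦X⟧) (n : ℕ) : coeff n (C (1 / 2 : ℝ) * d⁄dX ℝ B - J) =
    ((n : ℝ) + 1) / 2 * coeff (n + 1) B - coeff n J := by
  rw [map_sub, coeff_C_mul, coeff_derivative]
  ring

end Pool.Agent.W5h10.TL
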