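import Pool.Agent.W5h70.PG.Norm

/-!
# Taylor series with respect to the derivation `ν⁻¹ d/dt`
-/

set_option autoImplicit false

open Filter Topology PowerSeries
open scoped ContDiff

namespace Pool.Agent.W5h10.TL

open Pool.Agent.W5h70.PG (HD Dm Dm_smooth Dm_hd)

/-- `F t` is the Taylor series at `t` of the function `constant coefficient of F`, for the
derivation `ν⁻¹ d/dt` -/
def Tay (ν : ℝ → ℝ) (F : ℝ → ℝ⟦X⟧) : Prop :=
  ∀ n, HD ν (fun t => coeff n (F t)) (fun t => coeff n (d⁄dX ℝ (F t)))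

variable {ν : ℝ → ℝ} {F G : ℝ → ℝ⟦X⟧}

theorem Tay.add (hF : Tay ν F) (hG : Tay ν G) : Tay ν (fun t => F t + G t) := fun n => by
  simpa only [map_add] using (hF n).add (hG n)

theorem Tay.sub (hF : Tay ν F) (hG : Tay ν G) : Tay ν (fun t => F t - G t) := fun n => by
  simpa only [map_sub] using (hF n).sub (hG n)

theorem Tay.const (r : ℝ) : Tay ν (fun _ => C r) := fun n t => by
  simp only [derivative_C, map_zero, smul_zero]
  exact hasDerivAt_const t _

theorem HD.sum {ι : Type*} (s : Finset ι) {f g : ι → ℝ → ℝ} (h : ∀ i ∈ s, HD ν (f i) (g i)) :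
    HD ν (fun t => ∑ i ∈ s, f i t) (fun t => ∑ i ∈ s, g i t) := fun t => by
  rw [Finset.smul_sum]
  exact HasDerivAt.fun_sum fun i hi => h i hi t

theorem Tay.mul (hF : Tay ν F) (hG : Tay ν G) : Tay ν (fun t => F t * G t) := fun n => by
  have e1 : (fun t => coeff n (F t * G t)) =
      fun t => ∑ q ∈ Finset.HasAntidiagonal.antidiagonal n, coeff q.1 (F t) * coeff q.2 (G t) := by
    funext t
    rw [coeff_mul]
  have e2 : (fun t => coeff n (d⁄dX ℝ (F t * G t))) = fun t => ∑ q ∈ Finset.HasAntidiagonal.antidiagonal n,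
      (coeff q.1 (d⁄dX ℝ (F t)) * coeff q.2 (G t) + coeff q.1 (F t) * coeff q.2 (d⁄dX ℝ (G t))) := by
    funext t
    rw [Derivation.leibniz, map_add, smul_eq_mul, smul_eq_mul, Finset.sum_add_distrib,
      mul_comm (G t), coeff_mul, coeff_mul, add_comm]
  have e3 := HD.sum (ν := ν) (Finset.HasAntidiagonal.antidiagonal n)
    (f := fun q t => coeff q.1 (F t) * coeff q.2 (G t))
    (g := fun q t => coeff q.1 (d⁄dX ℝ (F t)) * coeff q.2 (G t) +
      coeff q.1 (F t) * coeff q.2 (d⁄dX ℝ (G t))) fun q _ => (hF q.1).mul (hG q.2)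
  exact e3.congr (fun t => (congrFun e1 t).symm) (fun t => (congrFun e2 t).symm)

theorem Tay.deriv (hF : Tay ν F) : Tay ν (fun t => d⁄dX ℝ (F t)) := fun n => by
  refine ((hF (n + 1)).const_smul ((n : ℝ) + 1)).congr (fun t => ?_) (fun t => ?_)
  · rw [coeff_derivative, smul_eq_mul, mul_comm]
  · rw [coeff_derivative _ n, smul_eq_mul, mul_comm]

/-- a function which vanishes on one side of `t₀` has the Taylor series `0` at `t₀` -/
theorem Tay.zero (hν : ∀ t, ν t ≠ 0) (hF : Tay ν F) {t₀ : ℝ}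
    (h : ∀ᶠ t in 𝓝[<] t₀, coeff 0 (F t) = 0) : F t₀ = 0 := by
  obtain ⟨a, ha, h⟩ := mem_nhdsLT_iff_exists_Ioo_subset.1 h
  have ha : a < t₀ := ha
  have key : ∀ n, ∀ t ∈ Set.Ioo a t₀, coeff n (F t) = 0 := by
    intro n
    induction n with
    | zero => exact fun t ht => h ht
    | succ n ih =>
      intro t ht
      have h1 := hF n t
      have h2 : HasDerivAt (fun t => coeff n (F t)) 0 t :=
        (hasDerivAt_const t (0 : ℝ)).congr_of_eventuallyEq
          ((Filter.eventually_of_mem (Ioo_mem_nhds ht.1 ht.2) fun s hs => ih s hs))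
      have h3 : ν t • coeff n (d⁄dX ℝ (F t)) = 0 := h1.unique h2
      rw [coeff_derivative, smul_eq_mul] at h3
      rcases mul_eq_zero.1 h3 with h4 | h4
      · exact absurd h4 (hν t)
      · exact (mul_eq_zero.1 h4).resolve_right (by positivity)
  ext n
  rw [map_zero]
  have h1 : ContinuousWithinAt (fun t => coeff n (F t)) (Set.Ioo a t₀) t₀ :=
    (hF n t₀).continuousAt.continuousWithinAt
  have : (𝓝[Set.Ioo a t₀] t₀).NeBot := by
    rw [← mem_closure_iff_nhdsWithin_neBot, closure_Ioo ha.ne]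
    exact Set.right_mem_Icc.2 ha.le
  refine tendsto_nhds_unique h1 (tendsto_const_nhds.congr' ?_)
  filter_upwards [self_mem_nhdsWithin] with t ht
  exact (key n t ht).symm

/-- two functions with the same values have the same Taylor series -/
theorem Tay.ext (hν : ∀ t, ν t ≠ 0) (hF : Tay ν F) (hG : Tay ν G)
    (h : ∀ t, coeff 0 (F t) = coeff 0 (G t)) (t : ℝ) : F t = G t := by
  rw [← sub_eq_zero]
  exact (hF.sub hG).zero hν (Eventually.of_forall fun s => by rw [map_sub, h, sub_self])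

/-- the Taylor series of a smooth function for the derivation `μ d/dt` -/
noncomputable def ser (μ f : ℝ → ℝ) (t : ℝ) : ℝ⟦X⟧ :=
  PowerSeries.mk fun n => ((Dm μ)^[n] f t) / n.factorial

theorem ser_tay {μ f : ℝ → ℝ} (hμ : ∀ t, μ t ≠ 0) (sμ : ContDiff ℝ ∞ μ) (sf : ContDiff ℝ ∞ f) :
    Tay (fun t => (μ t)⁻¹) (ser μ f) := by
  have h : ∀ n, ContDiff ℝ ∞ ((Dm μ)^[n] f) := by
    intro n
    induction n with
    | zero => exact sf
    | succ n ih =>
      rw [Function.iterate_succ_apply']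
      exact Dm_smooth sμ ih
  intro n
  refine ((Dm_hd hμ (h n)).const_smul ((n.factorial : ℝ)⁻¹)).congr (fun t => ?_) (fun t => ?_)
  · unfold ser
    rw [coeff_mk, smul_eq_mul, inv_mul_eq_div]
  · unfold ser
    rw [coeff_derivative, coeff_mk, smul_eq_mul, ← Function.iterate_succ_apply' (Dm μ) n f,
      Nat.factorial_succ]
    push_cast
    have h1 : (n.factorial : ℝ) ≠ 0 := by positivity
    have h2 : (n : ℝ) + 1 ≠ 0 := by positivity
    field_simp

theorem ser_zero (μ f : ℝ → ℝ) (t : ℝ) : coeff 0 (ser μ f t) = f t := by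
  unfold ser
  rw [coeff_mk]
  simp

end Pool.Agent.W5h10.TL
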